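import Pool.Agent.AKU6.Def2
import Pool.Agent.AKY.Snd
import Mathlib

set_option autoImplicit false

/-!
# Packed vectors with bounded digits, blocks with up to 128 columns
-/

namespace Pool.Agent.AKU6

open Finset Pool.Agent.AKY

/-- all digits are at most `b` -/
def Bd (b P : ℕ) : Prop := ∀ j, lq P j ≤ b

theorem Bd.add {a b P Q : ℕ} (hP : Bd a P) (hQ : Bd b Q) (h : a + b < 2 ^ 48) :
    Bd (a + b) (P + Q) ∧ ∀ j, lq (P + Q) j = lq P j + lq Q j := by
  have h1 : ∀ j, lq (P + Q) j = lq P j + lq Q j := fun j =>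
    lq_add (fun j => lt_of_le_of_lt (add_le_add (hP j) (hQ j)) h) j
  exact ⟨fun j => by rw [h1]; exact add_le_add (hP j) (hQ j), h1⟩

theorem Bd.mul {a b P t : ℕ} (hP : Bd a P) (ht : t ≤ b) (h : b * a < 2 ^ 48) :
    Bd (b * a) (t * P) ∧ ∀ j, lq (t * P) j = t * lq P j := by
  have h1 : ∀ j, lq (t * P) j = t * lq P j := fun j =>
    lq_mul (fun j => lt_of_le_of_lt (Nat.mul_le_mul ht (hP j)) h) j
  exact ⟨fun j => by rw [h1]; exact Nat.mul_le_mul ht (hP j), h1⟩

theorem Bd.mono {a b P : ℕ} (h : Bd a P) (hab : a ≤ b) : Bd b P := fun j => (h j).trans hab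

theorem okV_iff {n b P : ℕ} (h : okV n b P = true) : Bd b P := by
  unfold okV at h
  have h' : Nat.ble (Nat.succ P) (Nat.pow 2 (Nat.mul 48 n)) = true ∧
      (allN n fun j => Nat.ble (lq P j) b) = true := by
    cases h1 : Nat.ble (Nat.succ P) (Nat.pow 2 (Nat.mul 48 n))
    · rw [h1] at h; exact absurd h (by simp [an])
    · rw [h1] at h
      exact ⟨rfl, h⟩
  obtain ⟨h1, h2⟩ := h'
  rw [Nat.ble_eq] at h1
  intro j
  by_cases hj : j < n
  · have := allN_iff.1 h2 j hj
    rwa [Nat.ble_eq] at this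
  · have h3 : P < 2 ^ (48 * n) := h1
    rw [lq_big h3 (not_lt.1 hj)]
    exact Nat.zero_le _

/-! ### blocks -/

structure LK6 (cols : List ℕ) : Prop where
  n : cols.length ≤ 128
  d : ∀ c ∈ cols, Bd 262143 c

theorem okL6_iff {n : ℕ} {cols : List ℕ} (h : okL6 n cols = true) : LK6 cols := by
  unfold okL6 at h
  cases h1 : Nat.ble (len cols) 128
  · rw [h1] at h; exact absurd h (by simp [an])
  · rw [h1] at h
    rw [Nat.ble_eq, len_eq] at h1
    have h2 : (allF cols fun c => okV n 262143 c) = true := h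
    exact ⟨h1, fun c hc => okV_iff (allF_iff.1 h2 c hc)⟩

theorem rw6_aux {cols : List ℕ} (h128 : cols.length ≤ 128) (h : ∀ c ∈ cols, Bd 262143 c) (i : ℕ) :
    Bd (cols.length * 2 ^ 36) (rw cols i) ∧ ∀ j, lq (rw cols i) j = dot cols i j := by
  induction cols with
  | nil => exact ⟨fun j => by rw [show rw [] i = 0 from rfl, lq_zero]; exact Nat.zero_le _,
      fun j => by rw [show rw [] i = 0 from rfl, lq_zero]; rfl⟩
  | cons c l ih =>
    have hl : l.length ≤ 127 := by rw [List.length_cons] at h128; omega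
    obtain ⟨i1, i2⟩ := ih (by omega) (fun c hc => h c (List.mem_cons_of_mem _ hc))
    have hc := h c List.mem_cons_self
    have e : rw (c :: l) i = lq c i * c + rw l i := rfl
    obtain ⟨k1, k2⟩ := hc.mul (hc i) (by norm_num)
    have k3 : Bd (2 ^ 36) (lq c i * c) := k1.mono (by norm_num)
    obtain ⟨k4, k5⟩ := k3.add i1 (by
      have := Nat.mul_le_mul_right (2 ^ 36) hl
      omega)
    rw [e]
    refine ⟨k4.mono (by rw [List.length_cons, add_mul, one_mul, add_comm]), fun j => ?_⟩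
    rw [k5, k2, i2]
    unfold dot
    rw [List.map_cons, List.sum_cons]

theorem rw6 {cols : List ℕ} (h : LK6 cols) (i : ℕ) :
    Bd (2 ^ 43) (rw cols i) ∧ ∀ j, lq (rw cols i) j = dot cols i j := by
  obtain ⟨h1, h2⟩ := rw6_aux h.n h.d i
  exact ⟨h1.mono (by have := Nat.mul_le_mul_right (2 ^ 36) h.n; omega), h2⟩

theorem ps6_aux {cols : List ℕ} (h128 : cols.length ≤ 128) (h : ∀ c ∈ cols, Bd 262143 c) :
    Bd (cols.length * 2 ^ 18) (ps cols) ∧ ∀ j, lq (ps cols) j = (cols.map fun c => lq c j).sum := by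
  induction cols with
  | nil => exact ⟨fun j => by rw [show ps [] = 0 from rfl, lq_zero]; exact Nat.zero_le _,
      fun j => by rw [show ps [] = 0 from rfl, lq_zero]; rfl⟩
  | cons c l ih =>
    have hl : l.length ≤ 127 := by rw [List.length_cons] at h128; omega
    obtain ⟨i1, i2⟩ := ih (by omega) (fun c hc => h c (List.mem_cons_of_mem _ hc))
    have hc := h c List.mem_cons_self
    have e : ps (c :: l) = c + ps l := rfl
    have k3 : Bd (2 ^ 18) c := hc.mono (by norm_num)
    obtain ⟨k4, k5⟩ := k3.add i1 (by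
      have := Nat.mul_le_mul_right (2 ^ 18) hl
      omega)
    rw [e]
    refine ⟨k4.mono (by rw [List.length_cons, add_mul, one_mul, add_comm]), fun j => ?_⟩
    rw [k5, i2, List.map_cons, List.sum_cons]

theorem ps6 {cols : List ℕ} (h : LK6 cols) :
    Bd (2 ^ 25) (ps cols) ∧ ∀ j, lq (ps cols) j = (cols.map fun c => lq c j).sum := by
  obtain ⟨h1, h2⟩ := ps6_aux h.n h.d
  exact ⟨h1.mono (by have := Nat.mul_le_mul_right (2 ^ 18) h.n; omega), h2⟩

theorem Qc_eq6 {cols : List ℕ} (h : LK6 cols) (i j : ℕ) :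
    (lq (rw cols i) j : ℤ) = Qc cols i j + OV * ((lq (ps cols) i : ℤ) + lq (ps cols) j) -
      (OV : ℤ) * OV * len cols := by
  rw [(rw6 h i).2, (ps6 h).2, (ps6 h).2, len_eq]
  clear h
  unfold dot Qc
  induction cols with
  | nil => simp
  | cons c l ih =>
    simp only [List.map_cons, List.sum_cons, List.length_cons]
    push_cast at ih ⊢
    linarith

/-! ### products -/

theorem U1_eq {a b A B : ℕ} (hA : Bd a A) (hB : Bd b B) (h : a * b + b * a < 2 ^ 48) (i : ℕ) :
    Bd (a * b + b * a) (U1 A B i) ∧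
      ∀ j, lq (U1 A B i) j = lq A i * lq B j + lq B i * lq A j := by
  obtain ⟨h1, h2⟩ := hB.mul (hA i) (by omega)
  obtain ⟨h3, h4⟩ := hA.mul (hB i) (by omega)
  obtain ⟨h5, h6⟩ := h1.add h3 h
  exact ⟨h5, fun j => by
    show lq (lq A i * B + lq B i * A) j = _
    rw [h6, h2, h4]⟩

end Pool.Agent.AKU6
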