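import Pool.Agent.AKU6.Def2
import Pool.Agent.AKU5.Snd
import Mathlib

set_option autoImplicit false

/-!
# Six points: configurations and the rows
-/

namespace Pool.Agent.AKU6

open Finset Pool.Agent.AKY Pool.Agent.AKU5

variable {κ : Type}

/-- a configuration: states of the ordered triples -/
structure Cfg (κ : Type) where
  st : κ → κ → κ → ℕ

/-- four ordered points -/
structure P4 (κ : Type) where
  a : κ
  b : κ
  c : κ
  d : κ

/-- they are different -/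
def P4.N (p : P4 κ) : Prop :=
  p.a ≠ p.b ∧ p.a ≠ p.c ∧ p.a ≠ p.d ∧ p.b ≠ p.c ∧ p.b ≠ p.d ∧ p.c ≠ p.d

/-- `y` is none of them -/
def P4.F (p : P4 κ) (y : κ) : Prop := y ≠ p.a ∧ y ≠ p.b ∧ y ≠ p.c ∧ y ≠ p.d

/-- code of four points -/
def Cfg.co (G : Cfg κ) (p : P4 κ) : S4 :=
  ⟨G.st p.a p.b p.c, G.st p.a p.b p.d, G.st p.a p.c p.d, G.st p.b p.c p.d⟩

/-- the flag of `y` -/
def Cfg.fl (G : Cfg κ) (p : P4 κ) (y : κ) : S6 :=
  ⟨G.st p.a p.b y, G.st p.a p.c y, G.st p.b p.c y, G.st p.a p.d y, G.st p.b p.d y, G.st p.c p.d y⟩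

/-- non-acute indicators of the triples with `y z` -/
def Cfg.bi (G : Cfg κ) (p : P4 κ) (y z : κ) : S4 :=
  ⟨na (G.st p.a y z), na (G.st p.b y z), na (G.st p.c y z), na (G.st p.d y z)⟩

/-- reflection -/
def Cfg.mir (G : Cfg κ) : Cfg κ := ⟨fun a b c => mi (G.st a b c)⟩

/-- the hypotheses on a configuration; `tab` = possible codes of four points -/
structure Cfg.Ok (G : Cfg κ) (tab : ℕ) : Prop where
  lt : ∀ a b c, a ≠ b → a ≠ c → b ≠ c → G.st a b c < 8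
  sw : ∀ a b c, a ≠ b → a ≠ c → b ≠ c → G.st a c b = sw (G.st a b c)
  sx : ∀ a b c, a ≠ b → a ≠ c → b ≠ c → G.st b a c = sx (G.st a b c)
  tab : ∀ p : P4 κ, p.N → tab.testBit (cdS (G.co p)) = true

/-- the possible codes are invariant under reflection -/
def MT (tab : ℕ) : Prop := ∀ s : S4, s.a < 8 → s.b < 8 → s.c < 8 → s.d < 8 →
  tab.testBit (cdS s) = true → tab.testBit (cdS (m4 1 s)) = true

/-! ### the rows -/

section

variable (C : Ce) (w : ℕ → ℤ) (G : Cfg κ)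

noncomputable def q1 (s : S4) (f g : S6) : ℤ :=
  if cls C s < 15 then Qc (nth [] C.LQ (cls C s)) (ixt C (cls C s) f) (ixt C (cls C s) g) else 0

noncomputable def m1 (k : ℕ) (s : S4) (f : S6) : ℤ :=
  if cls C s < 15 ∧ fs s k % 4 = 0 then (lq (mc C (cls C s) k) (ixt C (cls C s) f) : ℤ) else 0

noncomputable def d1 (k : ℕ) (s : S4) : ℤ :=
  if cls C s < 15 then (dk C (cls C s) k : ℤ) - C.dO else 0

/-- the block -/
noncomputable def TQ (p : P4 κ) (y z : κ) : ℤ :=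
  q1 C (G.co p) (G.fl p y) (G.fl p z) +
    q1 C (m4 1 (G.co p)) (m6 1 (G.fl p y)) (m6 1 (G.fl p z))

/-- the multiplier of the weight of the root without the point `k` -/
noncomputable def TM (k : ℕ) (p : P4 κ) (y : κ) : ℤ :=
  m1 C k (G.co p) (G.fl p y) + m1 C k (m4 1 (G.co p)) (m6 1 (G.fl p y))

/-- the multiplier of the degree of the point `k` -/
noncomputable def TD (k : ℕ) (p : P4 κ) : ℤ := d1 C k (G.co p) + d1 C k (m4 1 (G.co p))

/-- code of three points and `y` -/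
def Cfg.c4 (a b c y : κ) : ℕ := cd (G.st a b c) (G.st a b y) (G.st a c y) (G.st b c y)

noncomputable def wt (a b c y : κ) : ℤ := w (G.c4 a b c y) - C.th

/-- the block of an acute root `a b c` -/
noncomputable def TB (a b c x y : κ) : ℤ :=
  if G.st a b c % 4 = 0 then Qc C.LB (lb IX (G.c4 a b c x)) (lb IX (G.c4 a b c y)) else 0

/-- **the row** -/
noncomputable def T (p : P4 κ) (y z : κ) : ℤ :=
  TQ C G p y z +
    ((TM C G 0 p y * wt C w G p.b p.c p.d z + TM C G 0 p z * wt C w G p.b p.c p.d y) +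
      (TM C G 1 p y * wt C w G p.a p.c p.d z + TM C G 1 p z * wt C w G p.a p.c p.d y) +
      (TM C G 2 p y * wt C w G p.a p.b p.d z + TM C G 2 p z * wt C w G p.a p.b p.d y) +
      (TM C G 3 p y * wt C w G p.a p.b p.c z + TM C G 3 p z * wt C w G p.a p.b p.c y)) +
    (TD C G 0 p * (4 - 9 * na (G.st p.a y z)) + TD C G 1 p * (4 - 9 * na (G.st p.b y z)) +
      TD C G 2 p * (4 - 9 * na (G.st p.c y z)) + TD C G 3 p * (4 - 9 * na (G.st p.d y z))) +
    TB C G p.a p.b p.c p.d y * wt C w G p.a p.b p.c z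

end

/-! ### small facts -/

theorem sw_lt {t : ℕ} (h : t < 8) : sw t < 8 := by interval_cases t <;> decide

theorem sx_lt {t : ℕ} (h : t < 8) : sx t < 8 := by interval_cases t <;> decide

theorem mi_lt {t : ℕ} (h : t < 8) : mi t < 8 := by interval_cases t <;> decide

theorem sw_mi {t : ℕ} (h : t < 8) : sw (mi t) = mi (sw t) := by interval_cases t <;> decide

theorem sx_mi {t : ℕ} (h : t < 8) : sx (mi t) = mi (sx t) := by interval_cases t <;> decide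

theorem mi_mi {t : ℕ} (h : t < 8) : mi (mi t) = t := by interval_cases t <;> decide

theorem sw_sw {t : ℕ} (h : t < 8) : sw (sw t) = t := by interval_cases t <;> decide

theorem sx_sx {t : ℕ} (h : t < 8) : sx (sx t) = t := by interval_cases t <;> decide

theorem ro_eq {t : ℕ} (h : t < 8) : ro t = sw (sx t) := by interval_cases t <;> decide

theorem na_mi {t : ℕ} (h : t < 8) : na (mi t) = na t := by interval_cases t <;> decide

theorem na_sw {t : ℕ} (h : t < 8) : na (sw t) = na t := by interval_cases t <;> decide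

theorem na_sx {t : ℕ} (h : t < 8) : na (sx t) = na t := by interval_cases t <;> decide

theorem mi_mod {t : ℕ} (h : t < 8) : mi t % 4 = t % 4 := by interval_cases t <;> decide

theorem acu_iff {t : ℕ} (h : t < 8) : acu t = true ↔ t % 4 = 0 := by
  interval_cases t <;> decide

theorem na_zero {t : ℕ} : na t = 0 ↔ t % 4 = 0 := by
  unfold na
  split_ifs with h
  · exact ⟨fun _ => h, fun _ => rfl⟩
  · exact ⟨fun h' => absurd h' (by norm_num), fun h' => absurd h' h⟩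

theorem an_iff {a b : Bool} : an a b = true ↔ a = true ∧ b = true := by
  cases a <;> cases b <;> decide

theorem im_iff {a b : Bool} : im a b = true ↔ (a = true → b = true) := by
  cases a <;> cases b <;> decide

theorem ite'_eq (a : Bool) (x y : ℕ) : ite' a x y = if a = true then x else y := by
  cases a <;> rfl

theorem eq4_iff {s t : S4} : eq4 s t = true ↔ s = t := by
  obtain ⟨a, b, c, d⟩ := s
  obtain ⟨a', b', c', d'⟩ := t
  simp only [eq4, an_iff, Nat.beq_eq, S4.mk.injEq]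
  tauto

/-! ### permutations of the four points -/

def gp (k : ℕ) (p : P4 κ) : P4 κ :=
  Nat.rec (motive := fun _ => P4 κ) ⟨p.b, p.a, p.c, p.d⟩
    (fun k _ => Nat.rec (motive := fun _ => P4 κ) ⟨p.a, p.c, p.b, p.d⟩
      (fun _ _ => ⟨p.a, p.b, p.d, p.c⟩) k) k

theorem gp_N {p : P4 κ} (h : p.N) (k : ℕ) : (gp k p).N := by
  obtain ⟨h1, h2, h3, h4, h5, h6⟩ := h
  rcases k with _ | _ | k
  · exact ⟨h1.symm, h4, h5, h2, h3, h6⟩
  · exact ⟨h2, h1, h3, h4.symm, h6, h5⟩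
  · exact ⟨h1, h3, h2, h5, h4, h6.symm⟩

theorem gp_F {p : P4 κ} {y : κ} (h : p.F y) (k : ℕ) : (gp k p).F y := by
  obtain ⟨h1, h2, h3, h4⟩ := h
  rcases k with _ | _ | k
  · exact ⟨h2, h1, h3, h4⟩
  · exact ⟨h1, h3, h2, h4⟩
  · exact ⟨h1, h2, h4, h3⟩

variable {G : Cfg κ} {tab : ℕ}

theorem co_gp (hG : G.Ok tab) {p : P4 κ} (h : p.N) (k : ℕ) : G.co (gp k p) = g4 k (G.co p) := by
  obtain ⟨h1, h2, h3, h4, h5, h6⟩ := h
  rcases k with _ | _ | k
  · show S4.mk _ _ _ _ = S4.mk _ _ _ _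
    rw [S4.mk.injEq]
    exact ⟨hG.sx _ _ _ h1 h2 h4, hG.sx _ _ _ h1 h3 h5, rfl, rfl⟩
  · show S4.mk _ _ _ _ = S4.mk _ _ _ _
    rw [S4.mk.injEq]
    exact ⟨hG.sw _ _ _ h1 h2 h4, rfl, rfl, hG.sx _ _ _ h4 h5 h6⟩
  · show S4.mk _ _ _ _ = S4.mk _ _ _ _
    rw [S4.mk.injEq]
    exact ⟨rfl, rfl, hG.sw _ _ _ h2 h3 h6, hG.sw _ _ _ h4 h5 h6⟩

theorem fl_gp (hG : G.Ok tab) {p : P4 κ} (h : p.N) {y : κ} (hy : p.F y) (k : ℕ) :
    G.fl (gp k p) y = g6 k (G.fl p y) := by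
  obtain ⟨h1, h2, h3, h4, h5, h6⟩ := h
  obtain ⟨y1, y2, y3, y4⟩ := hy
  rcases k with _ | _ | k
  · show S6.mk _ _ _ _ _ _ = S6.mk _ _ _ _ _ _
    rw [S6.mk.injEq]
    exact ⟨hG.sx _ _ _ h1 y1.symm y2.symm, rfl, rfl, rfl, rfl, rfl⟩
  · show S6.mk _ _ _ _ _ _ = S6.mk _ _ _ _ _ _
    rw [S6.mk.injEq]
    exact ⟨rfl, rfl, hG.sx _ _ _ h4 y2.symm y3.symm, rfl, rfl, rfl⟩
  · show S6.mk _ _ _ _ _ _ = S6.mk _ _ _ _ _ _
    rw [S6.mk.injEq]
    exact ⟨rfl, rfl, rfl, rfl, rfl, hG.sx _ _ _ h6 y3.symm y4.symm⟩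

theorem bi_gp (p : P4 κ) (y z : κ) (k : ℕ) : G.bi (gp k p) y z = gn k (G.bi p y z) := by
  rcases k with _ | _ | k <;> rfl

theorem act_nil {α : Type} (g : ℕ → α → α) (s : α) : act g [] s = s := rfl

theorem act_cons {α : Type} (g : ℕ → α → α) (k : ℕ) (w : List ℕ) (s : α) :
    act g (k :: w) s = act g w (g k s) := rfl

theorem act_N {p : P4 κ} (h : p.N) (w : List ℕ) : (act gp w p).N := by
  induction w generalizing p with
  | nil => exact h
  | cons k w ih => exact ih (gp_N h k)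

theorem act_F {p : P4 κ} {y : κ} (h : p.F y) (w : List ℕ) : (act gp w p).F y := by
  induction w generalizing p with
  | nil => exact h
  | cons k w ih => exact ih (gp_F h k)

theorem co_act (hG : G.Ok tab) {p : P4 κ} (h : p.N) (w : List ℕ) :
    G.co (act gp w p) = act g4 w (G.co p) := by
  induction w generalizing p with
  | nil => rfl
  | cons k w ih => rw [act_cons, act_cons, ih (gp_N h k), co_gp hG h]

theorem fl_act (hG : G.Ok tab) {p : P4 κ} (h : p.N) {y : κ} (hy : p.F y) (w : List ℕ) :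
    G.fl (act gp w p) y = act g6 w (G.fl p y) := by
  induction w generalizing p with
  | nil => rfl
  | cons k w ih => rw [act_cons, act_cons, ih (gp_N h k) (gp_F hy k), fl_gp hG h hy]

theorem bi_act (p : P4 κ) (y z : κ) (w : List ℕ) :
    G.bi (act gp w p) y z = act gn w (G.bi p y z) := by
  induction w generalizing p with
  | nil => rfl
  | cons k w ih => rw [act_cons, act_cons, ih, bi_gp]

/-! ### reflection -/

theorem co_mir (p : P4 κ) : G.mir.co p = m4 1 (G.co p) := rfl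

theorem fl_mir (p : P4 κ) (y : κ) : G.mir.fl p y = m6 1 (G.fl p y) := rfl

theorem co_lt (hG : G.Ok tab) {p : P4 κ} (h : p.N) : (G.co p).a < 8 ∧ (G.co p).b < 8 ∧
    (G.co p).c < 8 ∧ (G.co p).d < 8 := by
  obtain ⟨h1, h2, h3, h4, h5, h6⟩ := h
  exact ⟨hG.lt _ _ _ h1 h2 h4, hG.lt _ _ _ h1 h3 h5, hG.lt _ _ _ h2 h3 h6, hG.lt _ _ _ h4 h5 h6⟩

theorem fl_lt (hG : G.Ok tab) {p : P4 κ} (h : p.N) {y : κ} (hy : p.F y) :
    (G.fl p y).e < 8 ∧ (G.fl p y).g < 8 ∧ (G.fl p y).h < 8 ∧ (G.fl p y).u < 8 ∧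
      (G.fl p y).v < 8 ∧ (G.fl p y).w < 8 := by
  obtain ⟨h1, h2, h3, h4, h5, h6⟩ := h
  obtain ⟨y1, y2, y3, y4⟩ := hy
  exact ⟨hG.lt _ _ _ h1 y1.symm y2.symm, hG.lt _ _ _ h2 y1.symm y3.symm,
    hG.lt _ _ _ h4 y2.symm y3.symm, hG.lt _ _ _ h3 y1.symm y4.symm,
    hG.lt _ _ _ h5 y2.symm y4.symm, hG.lt _ _ _ h6 y3.symm y4.symm⟩

theorem mir_ok (hG : G.Ok tab) (hM : MT tab) : G.mir.Ok tab where
  lt a b c h1 h2 h3 := mi_lt (hG.lt a b c h1 h2 h3)
  sw a b c h1 h2 h3 := by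
    show mi (G.st a c b) = sw (mi (G.st a b c))
    rw [hG.sw a b c h1 h2 h3, sw_mi (hG.lt a b c h1 h2 h3)]
  sx a b c h1 h2 h3 := by
    show mi (G.st b a c) = sx (mi (G.st a b c))
    rw [hG.sx a b c h1 h2 h3, sx_mi (hG.lt a b c h1 h2 h3)]
  tab p hp := by
    obtain ⟨h1, h2, h3, h4⟩ := co_lt hG hp
    rw [co_mir]
    exact hM _ h1 h2 h3 h4 (hG.tab p hp)

theorem m4_m4 {s : S4} (ha : s.a < 8) (hb : s.b < 8) (hc : s.c < 8) (hd : s.d < 8) :
    m4 1 (m4 1 s) = s := by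
  obtain ⟨a, b, c, d⟩ := s
  show S4.mk _ _ _ _ = _
  rw [S4.mk.injEq]
  exact ⟨mi_mi ha, mi_mi hb, mi_mi hc, mi_mi hd⟩

theorem m6_m6 {f : S6} (h : f.e < 8 ∧ f.g < 8 ∧ f.h < 8 ∧ f.u < 8 ∧ f.v < 8 ∧ f.w < 8) :
    m6 1 (m6 1 f) = f := by
  obtain ⟨e, g, hh, u, v, w⟩ := f
  obtain ⟨h1, h2, h3, h4, h5, h6⟩ := h
  show S6.mk _ _ _ _ _ _ = _
  rw [S6.mk.injEq]
  exact ⟨mi_mi h1, mi_mi h2, mi_mi h3, mi_mi h4, mi_mi h5, mi_mi h6⟩

end Pool.Agent.AKU6
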