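import Pool.Agent.AKU5.Ix

set_option autoImplicit false

/-!
# Six points: the kernel check

The state of an ordered triple of points is a number below `8`.  The code of four ordered points
`p, q, r, s` is made of the states of `pqr, pqs, prs, qrs`; the flag of a further point `y` over
them of the states of `pqy, pry, qry, psy, qsy, rsy`.  Every code is carried to one of 15
representatives by a word in the three adjacent transpositions and possibly a reflection.
-/

namespace Pool.Agent.AKU6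

open Pool.Agent.AKY Pool.Agent.AKU5

/-- the first two points are exchanged -/
def sx (t : Nat) : Nat := Nat.mod (Nat.shiftRight 0x31207564 (Nat.mul 4 t)) 16

/-- reflection -/
def mi (t : Nat) : Nat := Nat.xor 4 t

/-- a bit -/
def bit (m k : Nat) : Nat := Nat.land 1 (Nat.shiftRight m k)

/-- digit of 48 bits at a position given in bits -/
def lz (P k : Nat) : Nat := Nat.mod (Nat.shiftRight P k) 281474976710656

/-- four states -/
structure S4 where
  a : Nat
  b : Nat
  c : Nat
  d : Nat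

/-- six states -/
structure S6 where
  e : Nat
  g : Nat
  h : Nat
  u : Nat
  v : Nat
  w : Nat

/-- exchange of the points `0 1`, `1 2`, `2 3` -/
def g4 (k : Nat) (s : S4) : S4 :=
  Nat.rec (motive := fun _ => S4) ⟨sx s.a, sx s.b, s.d, s.c⟩
    (fun k _ => Nat.rec (motive := fun _ => S4) ⟨sw s.a, s.c, s.b, sx s.d⟩
      (fun _ _ => ⟨s.b, s.a, sw s.c, sw s.d⟩) k) k

def g6 (k : Nat) (s : S6) : S6 :=
  Nat.rec (motive := fun _ => S6) ⟨sx s.e, s.h, s.g, s.v, s.u, s.w⟩
    (fun k _ => Nat.rec (motive := fun _ => S6) ⟨s.g, s.e, sx s.h, s.u, s.w, s.v⟩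
      (fun _ _ => ⟨s.e, s.u, s.v, s.g, s.h, sx s.w⟩) k) k

/-- the same for four numbers attached to the points -/
def gn (k : Nat) (s : S4) : S4 :=
  Nat.rec (motive := fun _ => S4) ⟨s.b, s.a, s.c, s.d⟩
    (fun k _ => Nat.rec (motive := fun _ => S4) ⟨s.a, s.c, s.b, s.d⟩
      (fun _ _ => ⟨s.a, s.b, s.d, s.c⟩) k) k

noncomputable def act {α : Type} (g : Nat → α → α) (w : List Nat) (s : α) : α :=
  List.rec (motive := fun _ => α → α) (fun s => s) (fun k _ ih s => ih (g k s)) w s

/-- reflection -/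
def m4 (m : Nat) (s : S4) : S4 :=
  Nat.rec (motive := fun _ => S4) s (fun _ _ => ⟨mi s.a, mi s.b, mi s.c, mi s.d⟩) m

def m6 (m : Nat) (s : S6) : S6 :=
  Nat.rec (motive := fun _ => S6) s
    (fun _ _ => ⟨mi s.e, mi s.g, mi s.h, mi s.u, mi s.v, mi s.w⟩) m

/-- class, reflection and word of a code -/
structure Wd where
  r : Nat
  m : Nat
  w : List Nat

/-- five points `0 1 2 3 4` with given code `0 1 2 3` and `0 1 2 4` and states of `0 3 4`, `1 3 4`:
state of `2 3 4`, positions of the flags of the points `4, 3, 2, 1, 0`, rows of the last three -/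
structure E5 where
  x : Nat
  i4 : Nat
  i3 : Nat
  i2 : Nat
  i1 : Nat
  i0 : Nat
  r2 : Nat
  r1 : Nat
  r0 : Nat

structure N1 where
  x : Nat
  l : List E5

structure N0 where
  x : Nat
  l : List N1

/-- a point over a representative: its states, positions of the five flags, rows, non-acute
indicators, degree rows -/
structure X5 where
  e : Nat
  g : Nat
  h : Nat
  u : Nat
  v : Nat
  w : Nat
  i4 : Nat
  i3 : Nat
  i2 : Nat
  i1 : Nat
  i0 : Nat
  r4 : Nat
  r3 : Nat
  r2 : Nat
  r1 : Nat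
  r0 : Nat
  be : Nat
  bg : Nat
  bh : Nat
  bu : Nat
  bv : Nat
  bw : Nat
  d3 : Nat
  d2 : Nat
  d1 : Nat
  d0 : Nat
  q3 : Nat
  q2 : Nat
  q1 : Nat
  q0 : Nat
  p3 : Nat
  p2 : Nat
  p1 : Nat
  p0 : Nat

/-- a representative: states, masks of the codes of its rank or a higher one, numbers of the
degree tables, degree rows, points -/
structure Rk where
  a : Nat
  b : Nat
  c : Nat
  d : Nat
  mm : List (List Nat)
  k01 : Nat
  k02 : Nat
  k12 : Nat
  k03 : Nat
  k13 : Nat
  k23 : Nat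
  p0 : Nat
  p1 : Nat
  p2 : Nat
  p3 : Nat
  L : List X5

/-- automorphism of a representative: word, reflection, images of the flags (digits of 16 bits) -/
structure Am where
  w : List Nat
  e : Nat
  p : Nat

abbrev T3 (α : Type) := List (List (List α))

/-- a certificate -/
structure Ce where
  /-- words of the codes -/
  WT : T3 (List Wd)
  /-- representatives -/
  RP : List S4
  /-- indices of the flags of the representatives -/
  IT : List (T3 (T3 Nat))
  /-- numbers of flags -/
  NF : List Nat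
  /-- automorphisms -/
  AT : List (List Am)
  /-- columns of the blocks, of the block of the points over an acute triple -/
  LQ : List (List Nat)
  LB : List Nat
  /-- multipliers `(root - k; point k, flag)`, weights, block rows of the flags -/
  M : List (List Nat)
  OM : List (List Nat)
  MB : List (List Nat)
  oB : Nat
  W : Nat
  th : Nat
  /-- rows of the tables -/
  RT : List (T3 Nat)
  oT : Nat
  /-- degree multipliers `d + dO`, digit `k`; tables of the codes, digit `2 v + b` -/
  dq : List Nat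
  dO : Nat
  od : Nat
  DT : T3 (List Nat)
  /-- degree tables: bits, bit, bit, states, digit `8 x + y` -/
  TD : List (T3 (List Nat))
  /-- groups of five points -/
  GT : T3 (T3 (List (List N0)))
  /-- representatives in the order of the check -/
  RK : List Rk
  og : Nat
  cb : Nat

section

variable (C : Ce)

/-! ### the check of six points -/

def L8 : List Nat := [0, 1, 2, 3, 4, 5, 6, 7]

noncomputable def f0 (l : List N0) (x : Nat) : List N1 :=
  List.rec (motive := fun _ => List N1) []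
    (fun n _ ih => Bool.rec (motive := fun _ => List N1) ih n.l (Nat.beq n.x x)) l

noncomputable def f1 (l : List N1) (x : Nat) : List E5 :=
  List.rec (motive := fun _ => List E5) []
    (fun n _ ih => Bool.rec (motive := fun _ => List E5) ih n.l (Nat.beq n.x x)) l

noncomputable def fr (l : List E5) (x : Nat) (K : E5 → Bool) : Bool :=
  List.rec (motive := fun _ => Bool) false
    (fun e _ ih => Bool.rec (motive := fun _ => Bool) ih (K e) (Nat.beq e.x x)) l

/-- all elements whose bit is set in `m` satisfy `K`, and all bits occur -/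
noncomputable def lp (l : List E5) (K : E5 → Bool) (m : Nat) : Bool :=
  List.rec (motive := fun _ => Nat → Bool) (fun m => Nat.beq m 0)
    (fun e _ ih m => Bool.rec (motive := fun _ => Bool) (ih m)
      (Bool.rec (motive := fun _ => Bool) false (ih (Nat.xor m (Nat.shiftLeft 1 e.x))) (K e))
      (Nat.beq (bit m e.x) 1)) l m

noncomputable def g3t (a e g h : Nat) : T3 (List N0) :=
  nth [] (nth [] (nth [] (nth [] C.GT a) e) g) h

noncomputable def gr (a e g h e' g' h' : Nat) : List N0 :=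
  nth [] (nth [] (nth [] (g3t C a e g h) e') g') h'

variable (R : Rk) (X Y : X5)

noncomputable def m01 : Nat := nth 0 (nth [] R.mm X.e) Y.e
noncomputable def m02 : Nat := nth 0 (nth [] R.mm X.g) Y.g
noncomputable def m12 : Nat := nth 0 (nth [] R.mm X.h) Y.h
noncomputable def m03 : Nat := nth 0 (nth [] R.mm X.u) Y.u
noncomputable def m13 : Nat := nth 0 (nth [] R.mm X.v) Y.v
noncomputable def m23 : Nat := nth 0 (nth [] R.mm X.w) Y.w

noncomputable def gZ : List N0 := gr C R.a X.e X.g X.h Y.e Y.g Y.h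
noncomputable def gW : List N0 := gr C R.b X.e X.u X.v Y.e Y.u Y.v
noncomputable def gV : List N0 := gr C R.c X.g X.u X.w Y.g Y.u Y.w
noncomputable def gU : List N0 := gr C R.d X.h X.v X.w Y.h Y.v Y.w

noncomputable def td (k b b' s t : Nat) : Nat :=
  nth 0 (nth [] (nth [] (nth [] (nth [] C.TD k) b) b') s) t

noncomputable def d01 : Nat := td C R.k01 X.bw Y.bw X.e Y.e
noncomputable def d02 : Nat := td C R.k02 X.bv Y.bv X.g Y.g
noncomputable def d12 : Nat := td C R.k12 X.bu Y.bu X.h Y.h
noncomputable def d03 : Nat := td C R.k03 X.bh Y.bh X.u Y.u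
noncomputable def d13 : Nat := td C R.k13 X.bg Y.bg X.v Y.v
noncomputable def d23 : Nat := td C R.k23 X.be Y.be X.w Y.w

noncomputable def P0 : Nat := Nat.add R.p0 (Nat.add X.p0 Y.p0)
noncomputable def P1 : Nat := Nat.add R.p1 (Nat.add X.p1 Y.p1)
noncomputable def P2 : Nat := Nat.add R.p2 (Nat.add X.p2 Y.p2)
noncomputable def P3 : Nat := Nat.add R.p3 (Nat.add X.p3 Y.p3)

/-- row `x` of a mask -/
def ro8 (m x : Nat) : Nat := Nat.shiftRight m (Nat.mul 8 x)

def ix8 (x y : Nat) : Nat := Nat.add (Nat.mul 8 x) y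

noncomputable def t0 : Nat :=
  Nat.add (lz X.r4 Y.i4) (Nat.add
    (Nat.add (Nat.add (lq X.d3 Y.q3) (lq X.d2 Y.q2)) (Nat.add (lq X.d1 Y.q1) (lq X.d0 Y.q0)))
    (Nat.add (Nat.add (lq Y.d3 X.q3) (lq Y.d2 X.q2)) (Nat.add (lq Y.d1 X.q1) (lq Y.d0 X.q0))))

noncomputable def t1 (x0 x1 : Nat) : Nat :=
  Nat.add (t0 X Y) (Nat.add (Nat.add (lq (P0 R X Y) x0) (lq (P1 R X Y) x1))
    (lq (d01 C R X Y) (ix8 x0 x1)))

noncomputable def t2 (x0 x1 : Nat) (Z : E5) : Nat :=
  Nat.add (t1 C R X Y x0 x1) (Nat.add (Nat.add (lz X.r3 Z.i4) (lz Y.r3 Z.i3))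
    (Nat.add (lq (P2 R X Y) Z.x) (Nat.add (lq (d02 C R X Y) (ix8 x0 Z.x))
      (lq (d12 C R X Y) (ix8 x1 Z.x)))))

noncomputable def t3 (x0 x1 : Nat) (Z W : E5) : Nat :=
  Nat.add (t2 C R X Y x0 x1 Z) (Nat.add
    (Nat.add (lz X.r2 W.i4) (Nat.add (lz Y.r2 W.i3) (lz Z.r2 W.i2)))
    (Nat.add (Nat.add (lq (P3 R X Y) W.x) (lq (d03 C R X Y) (ix8 x0 W.x)))
      (Nat.add (lq (d13 C R X Y) (ix8 x1 W.x)) (lq (d23 C R X Y) (ix8 Z.x W.x)))))

noncomputable def t4 (x0 x1 : Nat) (Z W V U : E5) : Nat :=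
  Nat.add (Nat.add (t3 C R X Y x0 x1 Z W)
    (Nat.add (Nat.add (lz X.r1 V.i4) (lz Y.r1 V.i3)) (Nat.add (lz Z.r1 V.i2) (lz W.r1 V.i1))))
    (Nat.add (Nat.add (lz X.r0 U.i4) (lz Y.r0 U.i3))
      (Nat.add (lz Z.r0 U.i2) (Nat.add (lz W.r0 U.i1) (lz V.r0 U.i0))))

noncomputable def lv3 (x0 x1 : Nat) (Z W : E5) : Bool :=
  fr (f1 (f0 (gV C R X Y) x0) Z.x) W.x fun V =>
    fr (f1 (f0 (gU C R X Y) x1) Z.x) W.x fun U => Nat.ble (t4 C R X Y x0 x1 Z W V U) C.cb

noncomputable def al2 (x0 x1 : Nat) : Nat :=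
  Nat.land 255 (Nat.land (ro8 (m02 R X Y) x0) (ro8 (m12 R X Y) x1))

noncomputable def al3 (x0 x1 x2 : Nat) : Nat :=
  Nat.land (Nat.land 255 (Nat.land (ro8 (m03 R X Y) x0) (ro8 (m13 R X Y) x1)))
    (ro8 (m23 R X Y) x2)

noncomputable def lv2 (x0 x1 : Nat) (Z : E5) : Bool :=
  lp (f1 (f0 (gW C R X Y) x0) x1) (fun W => lv3 C R X Y x0 x1 Z W) (al3 R X Y x0 x1 Z.x)

noncomputable def lv1 (x0 x1 : Nat) : Bool :=
  Bool.rec (motive := fun _ => Bool) true
    (lp (f1 (f0 (gZ C R X Y) x0) x1) (fun Z => lv2 C R X Y x0 x1 Z) (al2 R X Y x0 x1))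
    (Nat.beq (bit (m01 R X Y) (ix8 x0 x1)) 1)

noncomputable def lv0 (x0 : Nat) : Bool :=
  Bool.rec (motive := fun _ => Bool) (allF L8 fun x1 => lv1 C R X Y x0 x1) true
    (Nat.beq (Nat.land 255 (ro8 (m01 R X Y) x0)) 0)

/-- the check of two points over a representative -/
noncomputable def chkP : Bool := allF L8 fun x0 => lv0 C R X Y x0

noncomputable def dropN {α : Type} (i : Nat) (l : List α) : List α :=
  Nat.rec (motive := fun _ => List α → List α) (fun l => l)
    (fun _ ih l => List.rec (motive := fun _ => List α) [] (fun _ t _ => ih t) l) i l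

/-- the check of the point number `i` over the representative number `r` and the later ones -/
noncomputable def chkI (r i : Nat) : Bool :=
  List.rec (motive := fun _ => Bool) true
    (fun X l _ => allF (X :: l) fun Y =>
      chkP C (nth ⟨0, 0, 0, 0, [], 0, 0, 0, 0, 0, 0, 0, 0, 0, 0, []⟩ C.RK r) X Y)
    (dropN i (nth ⟨0, 0, 0, 0, [], 0, 0, 0, 0, 0, 0, 0, 0, 0, 0, []⟩ C.RK r).L)

end

end Pool.Agent.AKU6
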