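import Pool.Agent.AKU6.Def
import Pool.Agent.AKY.Tab

set_option autoImplicit false

/-!
# Six points: the checks of the tables
-/

namespace Pool.Agent.AKU6

open Pool.Agent.AKY Pool.Agent.AKU5

/-- words of the 24 orders of four points; list `k`: the point `k` is the last one -/
def PW : List (List (List Nat)) :=
  [[[0, 1, 2], [0, 1, 2, 0], [0, 1, 2, 1], [0, 1, 2, 0, 1], [0, 1, 2, 1, 0], [0, 1, 2, 0, 1, 0]],
   [[1, 2], [1, 2, 0], [1, 2, 1], [1, 2, 0, 1], [1, 2, 1, 0], [1, 2, 0, 1, 0]],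
   [[2], [2, 0], [2, 1], [2, 0, 1], [2, 1, 0], [2, 0, 1, 0]],
   [[], [0], [1], [0, 1], [1, 0], [0, 1, 0]]]

/-- conjunction -/
noncomputable def an (a b : Bool) : Bool := Bool.rec (motive := fun _ => Bool) false b a

/-- implication -/
noncomputable def im (a b : Bool) : Bool := Bool.rec (motive := fun _ => Bool) true b a

/-- choice -/
noncomputable def ite' (a : Bool) (x y : Nat) : Nat :=
  Bool.rec (motive := fun _ => Nat) y x a

noncomputable def eq4 (s t : S4) : Bool :=
  an (an (Nat.beq s.a t.a) (Nat.beq s.b t.b)) (an (Nat.beq s.c t.c) (Nat.beq s.d t.d))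

/-- acute? -/
def acu (t : Nat) : Bool := Nat.beq (nb t) 0

def cdS (s : S4) : Nat := cd s.a s.b s.c s.d

/-- digit of 16 bits -/
def l16 (P k : Nat) : Nat := Nat.mod (Nat.shiftRight P (Nat.mul 16 k)) 65536

section

variable (C : Ce) (tab : Nat)

noncomputable def wd (s : S4) : Wd :=
  nth ⟨15, 0, []⟩ (nth [] (nth [] (nth [] C.WT s.a) s.b) s.c) s.d

noncomputable def rep (r : Nat) : S4 := nth ⟨0, 0, 0, 0⟩ C.RP r

/-- class of a representative, otherwise 15 -/
noncomputable def cls (s : S4) : Nat :=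
  List.rec (motive := fun _ => Nat → Nat) (fun _ => 15)
    (fun x _ ih k => Bool.rec (motive := fun _ => Nat) (ih (Nat.succ k)) k (eq4 x s)) C.RP 0

noncomputable def ixt (r : Nat) (f : S6) : Nat :=
  nth 0 (nth [] (nth [] (nth [] (nth [] (nth [] (nth [] C.IT r) f.e) f.g) f.h) f.u) f.v) f.w

noncomputable def row (r i : Nat) : Nat :=
  nth 0 (nth [] (nth [] (nth [] C.RT r) (Nat.shiftRight i 6))
    (Nat.mod (Nat.shiftRight i 3) 8)) (Nat.mod i 8)

noncomputable def dt (s : S4) : Nat :=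
  nth 0 (nth [] (nth [] (nth [] C.DT s.a) s.b) s.c) s.d

/-- degree part: bits of the four points -/
noncomputable def dl (P : Nat) (n : S4) : Nat :=
  Nat.add (Nat.add (lq P n.a) (lq P (Nat.add 2 n.b)))
    (Nat.add (lq P (Nat.add 4 n.c)) (lq P (Nat.add 6 n.d)))

/-- the flag carried to the representative -/
noncomputable def cf (s : S4) (f : S6) : S6 := m6 (wd C s).m (act g6 (wd C s).w f)

/-- index of a flag -/
noncomputable def ixc (s : S4) (f : S6) : Nat := ixt C (wd C s).r (cf C s f)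

/-! codes and words -/

noncomputable def okW1 (s : S4) : Bool :=
  an (an (Nat.ble (Nat.succ (wd C s).r) 15)
      (eq4 (m4 (wd C s).m (act g4 (wd C s).w s)) (rep C (wd C s).r)))
    (an (an (an (bt tab (cdS (m4 1 s))) (Nat.beq (wd C (m4 1 s)).r (wd C s).r))
        (Nat.beq (lb IX (cdS s)) (lb IX (cdS (m4 1 s)))))
      (allN 2 fun a => allN 2 fun b => allN 2 fun c => allN 2 fun d =>
        Nat.beq (dl (dt C s) ⟨a, b, c, d⟩)
          (dl (dt C (rep C (wd C s).r)) (act gn (wd C s).w ⟨a, b, c, d⟩))))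

noncomputable def okW : Bool :=
  allN 8 fun a => allN 8 fun b => allN 8 fun c => allN 8 fun d =>
    im (bt tab (cd a b c d)) (okW1 C tab ⟨a, b, c, d⟩)

/-! representatives -/

noncomputable def dk (r k : Nat) : Nat := lq (nth 0 C.dq r) k

noncomputable def dpos (r : Nat) (n : S4) : Nat :=
  Nat.add (Nat.mul 4 (Nat.add (Nat.add (dk C r 0) (dk C r 1)) (Nat.add (dk C r 2) (dk C r 3))))
    (Nat.mul (Nat.mul 9 C.dO) (Nat.add (Nat.add n.a n.b) (Nat.add n.c n.d)))

noncomputable def dneg (r : Nat) (n : S4) : Nat :=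
  Nat.add (Nat.mul 16 C.dO) (Nat.mul 9
    (Nat.add (Nat.add (Nat.mul n.a (dk C r 0)) (Nat.mul n.b (dk C r 1)))
      (Nat.add (Nat.mul n.c (dk C r 2)) (Nat.mul n.d (dk C r 3)))))

noncomputable def okR : Bool :=
  allN 15 fun r => an
    (an (an (bt tab (cdS (rep C r))) (Nat.beq (cls C (rep C r)) r))
      (Nat.ble (Nat.mul 4 C.dO)
        (Nat.add (Nat.add (dk C r 0) (dk C r 1)) (Nat.add (dk C r 2) (dk C r 3)))))
    (allN 2 fun a => allN 2 fun b => allN 2 fun c => allN 2 fun d =>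
      Nat.beq
        (Nat.add (dl (dt C (rep C r)) ⟨a, b, c, d⟩)
          (Nat.mul 2 (sumF (nth [] C.AT r) fun P => dneg C r (act gn P.w ⟨a, b, c, d⟩))))
        (Nat.add (Nat.mul 4 C.od)
          (Nat.mul 2 (sumF (nth [] C.AT r) fun P => dpos C r (act gn P.w ⟨a, b, c, d⟩)))))

/-- the automorphisms of `AT` are the orders and reflections which fix the representative -/
noncomputable def stp (b : Bool) (w : List Nat) (e : Nat) (A : List Am) (K : List Am → Bool) :
    Bool :=
  Bool.rec (motive := fun _ => Bool) (K A)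
    (List.rec (motive := fun _ => Bool) false
      (fun P t _ => an (an (eqL P.w w) (Nat.beq P.e e)) (K t)) A) b

noncomputable def fld (r : Nat) (s : S4) (l : List (List Nat)) (A : List Am)
    (K : List Am → Bool) : Bool :=
  List.rec (motive := fun _ => List Am → Bool) K
    (fun w _ ih A => stp (Nat.beq (cls C (act g4 w s)) r) w 0 A fun A =>
      stp (Nat.beq (cls C (m4 1 (act g4 w s))) r) w 1 A ih) l A

noncomputable def nil' (A : List Am) : Bool :=
  List.rec (motive := fun _ => Bool) true (fun _ _ _ => false) A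

noncomputable def okA : Bool :=
  allN 15 fun r => fld C r (rep C r) (nth [] PW 0) (nth [] C.AT r) fun A =>
    fld C r (rep C r) (nth [] PW 1) A fun A => fld C r (rep C r) (nth [] PW 2) A fun A =>
      fld C r (rep C r) (nth [] PW 3) A nil'

/-- classes which are not the class of `r` do not occur -/
noncomputable def okR2 : Bool :=
  allN 15 fun r => allF PW fun l => allF l fun w =>
    an (an' (cls C (act g4 w (rep C r))) r) (an' (cls C (m4 1 (act g4 w (rep C r)))) r)
where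
  an' (x r : Nat) : Bool := Bool.rec (motive := fun _ => Bool) (Nat.beq x 15) true (Nat.beq x r)

/-! flags of the representatives -/

noncomputable def om (r k : Nat) : Nat := nth 0 (nth [] C.OM r) k
noncomputable def mc (r k : Nat) : Nat := nth 0 (nth [] C.M r) k
noncomputable def mb (r k : Nat) : Nat := nth 0 (nth [] C.MB r) k

/-- first state of the root without the point `k` and code with the point of the flag -/
def fs (s : S4) (k : Nat) : Nat :=
  Nat.rec (motive := fun _ => Nat) s.d (fun k _ => Nat.rec (motive := fun _ => Nat) s.c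
    (fun k _ => Nat.rec (motive := fun _ => Nat) s.b (fun _ _ => s.a) k) k) k

def fc (s : S4) (f : S6) (k : Nat) : Nat :=
  Nat.rec (motive := fun _ => Nat) (cd s.d f.h f.v f.w)
    (fun k _ => Nat.rec (motive := fun _ => Nat) (cd s.c f.g f.u f.w)
      (fun k _ => Nat.rec (motive := fun _ => Nat) (cd s.b f.e f.u f.v)
        (fun _ _ => cd s.a f.e f.g f.h) k) k) k

/-- code of the first three points and the point of the flag in the order `w` -/
noncomputable def uw (s : S4) (f : S6) (w : List Nat) : Nat :=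
  cd (act g4 w s).a (act g6 w f).e (act g6 w f).g (act g6 w f).h

noncomputable def okK (r : Nat) (s : S4) (f : S6) (i k : Nat) : Bool :=
  an (Bool.rec (motive := fun _ => Bool)
      (an (Nat.beq (lq (mc C r k) i) 0) (Nat.beq (lq (mb C r k) i) C.oB))
      (Nat.beq (lq (om C r k) i) (lq C.W (lb IX (fc s f k)))) (acu (fs s k)))
    (an (allF (nth [] PW k) fun w => im (acu (act g4 w s).a)
        (Nat.beq (lq C.W (lb IX (uw s f w))) (lq (om C r k) i)))
      (Nat.beq
        (Nat.add (lq (mb C r k) i) (sumF (nth [] PW k) fun w => ite' (acu (act g4 w s).a)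
          (Nat.mul OV (Nat.add (lq (ps C.LB) (lb IX (cdS (act g4 w s))))
            (lq (ps C.LB) (lb IX (uw s f w))))) 0))
        (Nat.add C.oB (sumF (nth [] PW k) fun w => ite' (acu (act g4 w s).a)
          (Nat.add (lq (rw C.LB (lb IX (cdS (act g4 w s)))) (lb IX (uw s f w)))
            (Nat.mul (Nat.mul OV OV) (len C.LB))) 0))))

noncomputable def okF1 (r : Nat) (s : S4) (f : S6) : Bool :=
  an (Nat.ble (Nat.succ (ixt C r f)) (nth 0 C.NF r))
    (an (allF (nth [] C.AT r) fun P =>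
        Nat.beq (l16 P.p (ixt C r f)) (ixt C r (m6 P.e (act g6 P.w f))))
      (allN 4 fun k => okK C r s f (ixt C r f) k))

noncomputable def okFr (r : Nat) (s : S4) : Bool :=
  allN 8 fun e => allN 8 fun g => allN 8 fun h => im (bt tab (cd s.a e g h))
    (allN 8 fun u => allN 8 fun v => im (bt tab (cd s.b e u v))
      (allN 8 fun w => im (an (bt tab (cd s.c g u w)) (bt tab (cd s.d h v w)))
        (okF1 C r s ⟨e, g, h, u, v, w⟩)))

noncomputable def okF (r : Nat) : Bool := okFr C tab r (rep C r)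

/-! entries of the tables -/

noncomputable def U1 (A B : Nat) (i : Nat) : Nat := Nat.add (Nat.mul (lq A i) B) (Nat.mul (lq B i) A)

noncomputable def U (r i : Nat) : Nat :=
  Nat.add (rw (nth [] C.LQ r) i) (Nat.add
    (Nat.add (U1 (mc C r 0) (om C r 0) i) (U1 (mc C r 1) (om C r 1) i))
    (Nat.add (U1 (mc C r 2) (om C r 2) i) (U1 (mc C r 3) (om C r 3) i)))

noncomputable def Ub (r i : Nat) : Nat :=
  Nat.add
    (Nat.add (U1 (mb C r 0) (om C r 0) i) (U1 (mb C r 1) (om C r 1) i))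
    (Nat.add (U1 (mb C r 2) (om C r 2) i) (U1 (mb C r 3) (om C r 3) i))

noncomputable def ll (r : Nat) : Nat :=
  Nat.add (Nat.mul OV (ps (nth [] C.LQ r))) (Nat.mul C.th
    (Nat.add (Nat.add (mc C r 0) (mc C r 1)) (Nat.add (mc C r 2) (mc C r 3))))

noncomputable def lb' (r : Nat) : Nat :=
  Nat.add (Nat.mul C.th
    (Nat.add (Nat.add (mb C r 0) (mb C r 1)) (Nat.add (mb C r 2) (mb C r 3))))
    (Nat.mul C.oB (Nat.add (Nat.add (om C r 0) (om C r 1)) (Nat.add (om C r 2) (om C r 3))))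

noncomputable def okS1 (r i j : Nat) : Bool :=
  Nat.beq
    (Nat.add (lq (row C r i) j) (Nat.add
      (Nat.mul 2 (sumF (nth [] C.AT r) fun P => Nat.add (lq (ll C r) (l16 P.p i)) (lq (ll C r) (l16 P.p j))))
      (Nat.add (lq (lb' C r) i) (lq (lb' C r) j))))
    (Nat.add C.oT (Nat.add
      (Nat.mul 2 (sumF (nth [] C.AT r) fun P => Nat.add (lq (U C r (l16 P.p i)) (l16 P.p j))
        (Nat.mul (Nat.mul OV OV) (len (nth [] C.LQ r)))))
      (Nat.add (lq (Ub C r i) j) (Nat.mul 8 (Nat.mul C.oB C.th)))))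

noncomputable def okSi (r i : Nat) : Bool := allN (nth 0 C.NF r) fun j => okS1 C r i j

/-- rows `64 k .. 64 k + 63` of the class `r` -/
noncomputable def okS (r k : Nat) : Bool :=
  allN 64 fun i => im (Nat.ble (Nat.succ (Nat.add (Nat.mul 64 k) i)) (nth 0 C.NF r))
    (okSi C r (Nat.add (Nat.mul 64 k) i))

/-! blocks and vectors -/

/-- `n` digits, at most `b` -/
noncomputable def okV (n b P : Nat) : Bool :=
  an (Nat.ble (Nat.succ P) (Nat.pow 2 (Nat.mul 48 n))) (allN n fun j => Nat.ble (lq P j) b)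

noncomputable def okL6 (n : Nat) (cols : List Nat) : Bool :=
  an (Nat.ble (len cols) 128) (allF cols fun c => okV n 262143 c)

noncomputable def okC : Bool :=
  an (an (okL6 58 C.LB) (an (Nat.ble C.th 2047) (Nat.ble C.oB 8589934592)))
    (an (Nat.beq (Nat.add C.cb C.og) (Nat.add (Nat.mul 15 C.oT) (Nat.mul 60 C.od)))
      (allN 15 fun r => an
        (an (okL6 (nth 0 C.NF r) (nth [] C.LQ r)) (Nat.ble (nth 0 C.NF r) 512))
        (allN 4 fun k => an (okV (nth 0 C.NF r) 2147483647 (mc C r k))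
          (an (okV (nth 0 C.NF r) 2047 (om C r k)) (okV (nth 0 C.NF r) 8589934591 (mb C r k))))))

/-! groups of five points -/

/-- roots and flags of five points: `012 = a`, `013 = e`, `023 = g`, `123 = h`, `014 = e'`,
`024 = g'`, `124 = h'`, `034 = x`, `134 = y`, `234 = z` -/
def s4 (a e g h _e' _g' _h' _x _y _z : Nat) : S4 := ⟨a, e, g, h⟩
def s3 (a _e _g _h e' g' h' _x _y _z : Nat) : S4 := ⟨a, e', g', h'⟩
def s2 (_a e _g _h e' _g' _h' x y _z : Nat) : S4 := ⟨e, e', x, y⟩
def s1 (_a _e g _h _e' g' _h' x _y z : Nat) : S4 := ⟨g, g', x, z⟩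
def s0 (_a _e _g h _e' _g' h' _x y z : Nat) : S4 := ⟨h, h', y, z⟩
def h4 (_a _e _g _h e' g' h' x y z : Nat) : S6 := ⟨e', g', h', x, y, z⟩
def h3 (_a e g h _e' _g' _h' x y z : Nat) : S6 := ⟨e, g, h, sw x, sw y, sw z⟩
def h2 (a _e g h _e' g' h' _x _y z : Nat) : S6 := ⟨a, sw g, sw h, sw g', sw h', ro z⟩
def h1 (a e _g h e' _g' h' _x y _z : Nat) : S6 := ⟨sw a, sw e, ro h, sw e', ro h', ro y⟩
def h0 (a e g _h e' g' _h' x _y _z : Nat) : S6 := ⟨ro a, ro e, ro g, ro e', ro g', ro x⟩

/-- the position and the row of a flag -/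
noncomputable def okI (s : S4) (f : S6) (i : Nat) : Bool := Nat.beq i (Nat.mul 48 (ixc C s f))

noncomputable def okIR (s : S4) (f : S6) (i r : Nat) : Bool :=
  an (Nat.beq i (Nat.mul 48 (ixc C s f))) (Nat.beq r (row C (wd C s).r (ixc C s f)))

noncomputable def okE (a e g h e' g' h' x y : Nat) (E : E5) : Bool :=
  an (an (okI C (s4 a e g h e' g' h' x y E.x) (h4 a e g h e' g' h' x y E.x) E.i4)
      (okI C (s3 a e g h e' g' h' x y E.x) (h3 a e g h e' g' h' x y E.x) E.i3))
    (an (okIR C (s2 a e g h e' g' h' x y E.x) (h2 a e g h e' g' h' x y E.x) E.i2 E.r2)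
      (an (okIR C (s1 a e g h e' g' h' x y E.x) (h1 a e g h e' g' h' x y E.x) E.i1 E.r1)
        (okIR C (s0 a e g h e' g' h' x y E.x) (h0 a e g h e' g' h' x y E.x) E.i0 E.r0)))

noncomputable def okG1 (a e g h e' g' h' : Nat) : Bool :=
  allF (gr C a e g h e' g' h') fun n => allF n.l fun m => allF m.l fun E =>
    okE C a e g h e' g' h' n.x m.x E

noncomputable def okG (a e : Nat) : Bool :=
  allN 8 fun g => allN 8 fun h => im (bt tab (cd a e g h))
    (allN 8 fun e' => allN 8 fun g' => allN 8 fun h' => im (bt tab (cd a e' g' h'))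
      (okG1 C a e g h e' g' h'))

/-! the representatives of the check -/

/-- possible code of class at least `r` -/
noncomputable def cr (r a b c d : Nat) : Bool :=
  an (bt tab (cd a b c d)) (Nat.ble r (wd C ⟨a, b, c, d⟩).r)

noncomputable def okM (r : Nat) (mm : List (List Nat)) : Bool :=
  allN 8 fun s => allN 8 fun t => allN 8 fun x => allN 8 fun y => im (cr C tab r s t x y)
    (Nat.beq (bit (nth 0 (nth [] mm s) t) (ix8 x y)) 1)

noncomputable def fX (l : List X5) (f : S6) (K : X5 → Bool) : Bool :=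
  List.rec (motive := fun _ => Bool) false
    (fun X _ ih => Bool.rec (motive := fun _ => Bool) ih (K X)
      (an (an (Nat.beq X.e f.e) (an (Nat.beq X.g f.g) (Nat.beq X.h f.h)))
        (an (Nat.beq X.u f.u) (an (Nat.beq X.v f.v) (Nat.beq X.w f.w))))) l

/-- number of bits -/
def n3 (a b c : Nat) : Nat := Nat.add a (Nat.add (Nat.mul 2 b) (Nat.mul 4 c))

/-- degree row of the first three points of a code, of the last one, of the point `v` -/
noncomputable def okd (s : S4) (P : Nat) : Bool :=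
  allN 2 fun a => allN 2 fun b => allN 2 fun c => Nat.beq (lq P (n3 a b c))
    (Nat.add (lq (dt C s) a) (Nat.add (lq (dt C s) (Nat.add 2 b)) (lq (dt C s) (Nat.add 4 c))))

noncomputable def okp (s : S4) (v P : Nat) : Bool :=
  an (okV 8 70368744177663 P)
    (allN 8 fun x => Nat.beq (lq P x) (lq (dt C s) (Nat.add (Nat.mul 2 v) (nb x))))

noncomputable def okX1 (R : Rk) (X : X5) : Bool :=
  an (an
    (an (okIR C (s4 R.a R.b R.c R.d X.e X.g X.h X.u X.v X.w)
        (h4 R.a R.b R.c R.d X.e X.g X.h X.u X.v X.w) X.i4 X.r4)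
      (okIR C (s3 R.a R.b R.c R.d X.e X.g X.h X.u X.v X.w)
        (h3 R.a R.b R.c R.d X.e X.g X.h X.u X.v X.w) X.i3 X.r3))
    (an (okIR C (s2 R.a R.b R.c R.d X.e X.g X.h X.u X.v X.w)
        (h2 R.a R.b R.c R.d X.e X.g X.h X.u X.v X.w) X.i2 X.r2)
      (an (okIR C (s1 R.a R.b R.c R.d X.e X.g X.h X.u X.v X.w)
          (h1 R.a R.b R.c R.d X.e X.g X.h X.u X.v X.w) X.i1 X.r1)
        (okIR C (s0 R.a R.b R.c R.d X.e X.g X.h X.u X.v X.w)
          (h0 R.a R.b R.c R.d X.e X.g X.h X.u X.v X.w) X.i0 X.r0))))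
    (an (an (an (an (Nat.beq X.be (nb X.e)) (an (Nat.beq X.bg (nb X.g)) (Nat.beq X.bh (nb X.h))))
        (an (Nat.beq X.bu (nb X.u)) (an (Nat.beq X.bv (nb X.v)) (Nat.beq X.bw (nb X.w)))))
      (an (an (Nat.beq X.q3 (n3 X.bu X.bv X.bw)) (Nat.beq X.q2 (n3 X.bg X.bh X.bw)))
        (an (Nat.beq X.q1 (n3 X.be X.bh X.bv)) (Nat.beq X.q0 (n3 X.be X.bg X.bu)))))
      (an (an (an (okd C ⟨R.a, X.e, X.g, X.h⟩ X.d3) (okd C ⟨R.b, X.e, X.u, X.v⟩ X.d2))
          (an (okd C ⟨R.c, X.g, X.u, X.w⟩ X.d1) (okd C ⟨R.d, X.h, X.v, X.w⟩ X.d0)))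
        (an (an (okp C ⟨R.a, X.e, X.g, X.h⟩ 3 X.p3) (okp C ⟨R.b, X.e, X.u, X.v⟩ 3 X.p2))
          (an (okp C ⟨R.c, X.g, X.u, X.w⟩ 3 X.p1) (okp C ⟨R.d, X.h, X.v, X.w⟩ 3 X.p0)))))

noncomputable def okX (r : Nat) (R : Rk) : Bool :=
  allN 8 fun e => allN 8 fun g => allN 8 fun h => im (cr C tab r R.a e g h)
    (allN 8 fun u => allN 8 fun v => im (cr C tab r R.b e u v)
      (allN 8 fun w => im (an (cr C tab r R.c g u w) (cr C tab r R.d h v w))
        (fX R.L ⟨e, g, h, u, v, w⟩ fun X => okX1 C R X)))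

noncomputable def rk (r : Nat) : Rk :=
  nth ⟨0, 0, 0, 0, [], 0, 0, 0, 0, 0, 0, 0, 0, 0, 0, []⟩ C.RK r

noncomputable def okRk (r : Nat) : Bool :=
  an (an (an (eq4 (rep C r) ⟨(rk C r).a, (rk C r).b, (rk C r).c, (rk C r).d⟩)
      (okM C tab r (rk C r).mm))
    (an (an (an (okp C (rep C r) 0 (rk C r).p0) (okp C (rep C r) 1 (rk C r).p1))
        (an (okp C (rep C r) 2 (rk C r).p2) (okp C (rep C r) 3 (rk C r).p3)))
      (an (an (Nat.beq (rk C r).k01 (Nat.add (nb (rk C r).c) (Nat.mul 2 (nb (rk C r).d))))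
          (an (Nat.beq (rk C r).k02 (Nat.add (nb (rk C r).b) (Nat.mul 2 (nb (rk C r).d))))
            (Nat.beq (rk C r).k12 (Nat.add (nb (rk C r).b) (Nat.mul 2 (nb (rk C r).c))))))
        (an (Nat.beq (rk C r).k03 (Nat.add (nb (rk C r).a) (Nat.mul 2 (nb (rk C r).d))))
          (an (Nat.beq (rk C r).k13 (Nat.add (nb (rk C r).a) (Nat.mul 2 (nb (rk C r).c))))
            (Nat.beq (rk C r).k23 (Nat.add (nb (rk C r).a) (Nat.mul 2 (nb (rk C r).b)))))))))
    (okX C tab r (rk C r))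

noncomputable def okT : Bool :=
  allN 2 fun a => allN 2 fun b => allN 2 fun c => allN 2 fun d =>
    allN 8 fun s => allN 8 fun t => allN 8 fun x => allN 8 fun y => im (bt tab (cd s t x y))
      (Nat.beq (lq (td C (Nat.add a (Nat.mul 2 b)) c d s t) (ix8 x y))
        (dl (dt C ⟨s, t, x, y⟩) ⟨a, b, c, d⟩))

end

end Pool.Agent.AKU6
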