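import Pool.Agent.AKU6.Mn

set_option autoImplicit false

/-!
# Six points: the engine
-/

namespace Pool.Agent.AKU6

open Finset Equiv Pool.Agent.AKY Pool.Agent.AKU5 Pool.Agent.AKC.Pm6

variable {κ : Type} {C : Ce} {tab : ℕ} {w : ℕ → ℤ} {G : Cfg κ}

/-! ### symmetries of the sum over the splittings -/

theorem SB_comm (p : P4 κ) (y z : κ) : SB C w G p z y = SB C w G p y z := by
  unfold SB
  congr 1
  funext a b c d
  ring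

theorem SB_34 (a b c d : κ) (y z : κ) : SB C w G ⟨a, b, d, c⟩ y z = SB C w G ⟨a, b, c, d⟩ y z :=
  SB_gp ⟨a, b, c, d⟩ y z 2

theorem S15_swap (a0 a1 a2 a3 a4 a5 : κ) :
    S15 C w G a0 a1 a2 a3 a5 a4 = S15 C w G a0 a1 a2 a3 a4 a5 := by
  unfold S15
  rw [SB_comm ⟨a0, a1, a2, a3⟩ a4 a5, SB_34 a0 a1 a4 a5, SB_34 a0 a2 a4 a5, SB_34 a0 a3 a4 a5,
    SB_34 a1 a2 a4 a5, SB_34 a1 a3 a4 a5, SB_34 a2 a3 a4 a5]
  ring

theorem S15_mir (H : Hy C tab w) (hG : G.Ok tab) {a0 a1 a2 a3 a4 a5 : κ}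
    (n : N6 a0 a1 a2 a3 a4 a5) :
    S15 C w G.mir a0 a1 a2 a3 a4 a5 = S15 C w G a0 a1 a2 a3 a4 a5 := by
  unfold S15
  rw [SB_mir H hG (p := ⟨a0, a1, a2, a3⟩) ⟨n.h01, n.h02, n.h03, n.h12, n.h13, n.h23⟩
      ⟨n.h04.symm, n.h14.symm, n.h24.symm, n.h34.symm⟩
      ⟨n.h05.symm, n.h15.symm, n.h25.symm, n.h35.symm⟩ n.h45,
    SB_mir H hG (p := ⟨a0, a1, a2, a4⟩) ⟨n.h01, n.h02, n.h04, n.h12, n.h14, n.h24⟩
      ⟨n.h03.symm, n.h13.symm, n.h23.symm, n.h34⟩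
      ⟨n.h05.symm, n.h15.symm, n.h25.symm, n.h45.symm⟩ n.h35,
    SB_mir H hG (p := ⟨a0, a1, a2, a5⟩) ⟨n.h01, n.h02, n.h05, n.h12, n.h15, n.h25⟩
      ⟨n.h03.symm, n.h13.symm, n.h23.symm, n.h35⟩
      ⟨n.h04.symm, n.h14.symm, n.h24.symm, n.h45⟩ n.h34,
    SB_mir H hG (p := ⟨a0, a1, a3, a4⟩) ⟨n.h01, n.h03, n.h04, n.h13, n.h14, n.h34⟩
      ⟨n.h02.symm, n.h12.symm, n.h23, n.h24⟩
      ⟨n.h05.symm, n.h15.symm, n.h35.symm, n.h45.symm⟩ n.h25,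
    SB_mir H hG (p := ⟨a0, a1, a3, a5⟩) ⟨n.h01, n.h03, n.h05, n.h13, n.h15, n.h35⟩
      ⟨n.h02.symm, n.h12.symm, n.h23, n.h25⟩
      ⟨n.h04.symm, n.h14.symm, n.h34.symm, n.h45⟩ n.h24,
    SB_mir H hG (p := ⟨a0, a1, a4, a5⟩) ⟨n.h01, n.h04, n.h05, n.h14, n.h15, n.h45⟩
      ⟨n.h02.symm, n.h12.symm, n.h24, n.h25⟩
      ⟨n.h03.symm, n.h13.symm, n.h34, n.h35⟩ n.h23,
    SB_mir H hG (p := ⟨a0, a2, a3, a4⟩) ⟨n.h02, n.h03, n.h04, n.h23, n.h24, n.h34⟩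
      ⟨n.h01.symm, n.h12, n.h13, n.h14⟩
      ⟨n.h05.symm, n.h25.symm, n.h35.symm, n.h45.symm⟩ n.h15,
    SB_mir H hG (p := ⟨a0, a2, a3, a5⟩) ⟨n.h02, n.h03, n.h05, n.h23, n.h25, n.h35⟩
      ⟨n.h01.symm, n.h12, n.h13, n.h15⟩
      ⟨n.h04.symm, n.h24.symm, n.h34.symm, n.h45⟩ n.h14,
    SB_mir H hG (p := ⟨a0, a2, a4, a5⟩) ⟨n.h02, n.h04, n.h05, n.h24, n.h25, n.h45⟩
      ⟨n.h01.symm, n.h12, n.h14, n.h15⟩
      ⟨n.h03.symm, n.h23.symm, n.h34, n.h35⟩ n.h13,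
    SB_mir H hG (p := ⟨a0, a3, a4, a5⟩) ⟨n.h03, n.h04, n.h05, n.h34, n.h35, n.h45⟩
      ⟨n.h01.symm, n.h13, n.h14, n.h15⟩
      ⟨n.h02.symm, n.h23, n.h24, n.h25⟩ n.h12,
    SB_mir H hG (p := ⟨a1, a2, a3, a4⟩) ⟨n.h12, n.h13, n.h14, n.h23, n.h24, n.h34⟩
      ⟨n.h01, n.h02, n.h03, n.h04⟩
      ⟨n.h15.symm, n.h25.symm, n.h35.symm, n.h45.symm⟩ n.h05,
    SB_mir H hG (p := ⟨a1, a2, a3, a5⟩) ⟨n.h12, n.h13, n.h15, n.h23, n.h25, n.h35⟩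
      ⟨n.h01, n.h02, n.h03, n.h05⟩
      ⟨n.h14.symm, n.h24.symm, n.h34.symm, n.h45⟩ n.h04,
    SB_mir H hG (p := ⟨a1, a2, a4, a5⟩) ⟨n.h12, n.h14, n.h15, n.h24, n.h25, n.h45⟩
      ⟨n.h01, n.h02, n.h04, n.h05⟩
      ⟨n.h13.symm, n.h23.symm, n.h34, n.h35⟩ n.h03,
    SB_mir H hG (p := ⟨a1, a3, a4, a5⟩) ⟨n.h13, n.h14, n.h15, n.h34, n.h35, n.h45⟩
      ⟨n.h01, n.h03, n.h04, n.h05⟩
      ⟨n.h12.symm, n.h23, n.h24, n.h25⟩ n.h02,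
    SB_mir H hG (p := ⟨a2, a3, a4, a5⟩) ⟨n.h23, n.h24, n.h25, n.h34, n.h35, n.h45⟩
      ⟨n.h02, n.h03, n.h04, n.h05⟩
      ⟨n.h12, n.h13, n.h14, n.h15⟩ n.h01]

/-- **six points whose first four are a representative of the least class** -/
theorem main6 (H : Hy C tab w) (hT : okT C tab = true)
    (hGr : ∀ a < 8, ∀ e < 8, okG C tab a e = true) {r : ℕ} (hR : okRk C tab r = true)
    (hI : ∀ i < (rk C r).L.length, chkI C r i = true) (hG : G.Ok tab)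
    (hr : ∀ p : P4 κ, p.N → r ≤ (wd C (G.co p)).r) {a0 a1 a2 a3 a4 a5 : κ}
    (n : N6 a0 a1 a2 a3 a4 a5) (h0 : G.co ⟨a0, a1, a2, a3⟩ = rep C r) :
    S15 C w G a0 a1 a2 a3 a4 a5 ≤ -C.og := by
  have hF := fr_of hR
  obtain ⟨X, mX, hX⟩ := getX hF hG hr
    ⟨n.h01, n.h02, n.h03, n.h04, n.h12, n.h13, n.h14, n.h23, n.h24, n.h34⟩ h0
  obtain ⟨Y, mY, hY⟩ := getX hF hG hr
    ⟨n.h01, n.h02, n.h03, n.h05, n.h12, n.h13, n.h15, n.h23, n.h25, n.h35⟩ h0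
  rcases chk_or hI mX mY with h | h
  · exact pair6 H hT hGr hF hG hr n h0 hX hY h
  · rw [← S15_swap]
    exact pair6 H hT hGr hF hG hr ⟨n.h01, n.h02, n.h03, n.h05, n.h04, n.h12, n.h13, n.h15, n.h14,
      n.h23, n.h25, n.h24, n.h35, n.h34, n.h45.symm⟩ h0 hY hX h

/-! ### the reduction -/

theorem m4_succ (m : ℕ) (s : S4) : m4 (m + 1) s = m4 1 s := rfl

theorem sum_s (F : P4 (Fin 6) → Fin 6 → Fin 6 → ℤ) (t : Perm (Fin 6)) :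
    ∑ s : Perm (Fin 6), F ⟨s 0, s 1, s 2, s 3⟩ (s 4) (s 5) =
      ∑ s : Perm (Fin 6), F ⟨t (s 0), t (s 1), t (s 2), t (s 3)⟩ (t (s 4)) (t (s 5)) := by
  rw [← Equiv.sum_comp (Equiv.mulLeft t)]
  rfl

theorem sum_S15 (C : Ce) (w : ℕ → ℤ) (G : Cfg (Fin 6)) (t : Perm (Fin 6)) :
    ∑ s : Perm (Fin 6), T C w G ⟨s 0, s 1, s 2, s 3⟩ (s 4) (s 5) =
      S15 C w G (t 0) (t 1) (t 2) (t 3) (t 4) (t 5) := by
  rw [sum_s (T C w G) t, sum_perm fun a b c d y z => T C w G ⟨t a, t b, t c, t d⟩ (t y) (t z)]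
  rfl

/-- **the engine** -/
theorem engine6 (H : Hy C tab w) (hT : okT C tab = true)
    (hGr : ∀ a < 8, ∀ e < 8, okG C tab a e = true) (hR : ∀ r < 15, okRk C tab r = true)
    (hI : ∀ r < 15, ∀ i < (rk C r).L.length, chkI C r i = true) {G : Cfg (Fin 6)}
    (hG : G.Ok tab) :
    ∑ s : Perm (Fin 6), T C w G ⟨s 0, s 1, s 2, s 3⟩ (s 4) (s 5) ≤ -C.og := by
  obtain ⟨s, hs⟩ := exists_min fun i j k l => (wd C (G.co ⟨i, j, k, l⟩)).r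
  have ne : ∀ (t : Perm (Fin 6)) {i j : Fin 6}, i ≠ j → t i ≠ t j := fun t i j h g =>
    h (t.injective g)
  set p : P4 (Fin 6) := ⟨s 0, s 1, s 2, s 3⟩ with hp
  have pN : p.N := ⟨ne s (by decide), ne s (by decide), ne s (by decide), ne s (by decide),
    ne s (by decide), ne s (by decide)⟩
  have hmin : ∀ q : P4 (Fin 6), q.N → (wd C (G.co p)).r ≤ (wd C (G.co q)).r := by
    rintro ⟨a, b, c, d⟩ ⟨h1, h2, h3, h4, h5, h6⟩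
    have ne' : ∀ {i j : Fin 6}, i ≠ j → s.symm i ≠ s.symm j := fun h g => h (s.symm.injective g)
    have := hs (s.symm a) (s.symm b) (s.symm c) (s.symm d) (ne' h1) (ne' h2) (ne' h3) (ne' h4)
      (ne' h5) (ne' h6)
    simpa only [Equiv.apply_symm_apply] using this
  obtain ⟨c1, c2, c3, c4⟩ := co_lt hG pN
  have W := wf_of H.W c1 c2 c3 c4 (hG.tab p pN)
  have qN := act_N pN (wd C (G.co p)).w
  have qc := co_act hG pN (wd C (G.co p)).w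
  have hw := W.w
  rw [← qc] at hw
  obtain ⟨h1, h2, h3, h4, h5, h6⟩ := qN
  obtain ⟨t, t0, t1, t2, t3⟩ := exists_perm4 h1 h2 h3 h4 h5 h6
  have tq : (⟨t 0, t 1, t 2, t 3⟩ : P4 (Fin 6)) = act gp (wd C (G.co p)).w p := by
    rw [t0, t1, t2, t3]
  have n : N6 (t 0) (t 1) (t 2) (t 3) (t 4) (t 5) := ⟨ne t (by decide), ne t (by decide),
    ne t (by decide), ne t (by decide), ne t (by decide), ne t (by decide), ne t (by decide),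
    ne t (by decide), ne t (by decide), ne t (by decide), ne t (by decide), ne t (by decide),
    ne t (by decide), ne t (by decide), ne t (by decide)⟩
  rw [sum_S15 C w G t]
  have hr := W.r
  rcases hm : (wd C (G.co p)).m with _ | m
  · rw [hm] at hw
    refine main6 H hT hGr (hR _ hr) (hI _ hr) hG hmin n ?_
    rw [tq]
    exact hw
  · rw [hm, m4_succ] at hw
    have hM := mt_of H.W
    rw [← S15_mir H hG n]
    refine main6 H hT hGr (hR _ hr) (hI _ hr) (mir_ok hG hM) (fun q hq => ?_) n ?_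
    · obtain ⟨d1, d2, d3, d4⟩ := co_lt hG hq
      rw [co_mir, (wf_of H.W d1 d2 d3 d4 (hG.tab q hq)).c]
      exact hmin q hq
    · rw [tq, co_mir]
      exact hw

end Pool.Agent.AKU6
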