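import Pool.Agent.AKU6.Ct
import Pool.Agent.AKU6.Bd

set_option autoImplicit false

/-!
# Six points: the facts behind the checks of the tables
-/

namespace Pool.Agent.AKU6

open Finset Pool.Agent.AKY Pool.Agent.AKU5

variable {C : Ce} {tab : ℕ}

/-! ### classes -/

theorem cls_aux (s : S4) (l : List S4) (k : ℕ) :
    List.rec (motive := fun _ => Nat → Nat) (fun _ => 15)
      (fun x _ ih k => Bool.rec (motive := fun _ => Nat) (ih (Nat.succ k)) k (eq4 x s)) l k = 15 ∨
    ∃ i, List.rec (motive := fun _ => Nat → Nat) (fun _ => 15)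
      (fun x _ ih k => Bool.rec (motive := fun _ => Nat) (ih (Nat.succ k)) k (eq4 x s)) l k =
        k + i ∧ nth ⟨0, 0, 0, 0⟩ l i = s := by
  induction l generalizing k with
  | nil => exact Or.inl rfl
  | cons x l ih =>
    cases h : eq4 x s
    · have e : List.rec (motive := fun _ => Nat → Nat) (fun _ => 15)
          (fun x _ ih k => Bool.rec (motive := fun _ => Nat) (ih (Nat.succ k)) k (eq4 x s))
          (x :: l) k = List.rec (motive := fun _ => Nat → Nat) (fun _ => 15)
          (fun x _ ih k => Bool.rec (motive := fun _ => Nat) (ih (Nat.succ k)) k (eq4 x s)) l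
          (Nat.succ k) := by
        show Bool.rec (motive := fun _ => Nat) _ k (eq4 x s) = _
        rw [h]
      rw [e]
      rcases ih (Nat.succ k) with h1 | ⟨i, h1, h2⟩
      · exact Or.inl h1
      · exact Or.inr ⟨i + 1, by rw [h1]; omega, h2⟩
    · refine Or.inr ⟨0, ?_, eq4_iff.1 h⟩
      show Bool.rec (motive := fun _ => Nat) _ k (eq4 x s) = _
      rw [h]
      rfl

theorem cls_spec {s : S4} (h : cls C s ≠ 15) : rep C (cls C s) = s := by
  rcases cls_aux s C.RP 0 with h1 | ⟨i, h1, h2⟩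
  · exact absurd h1 h
  · have : cls C s = i := by
      have : cls C s = 0 + i := h1
      omega
    rw [this]
    exact h2

/-! ### codes -/

structure WF (C : Ce) (tab : ℕ) (s : S4) : Prop where
  r : (wd C s).r < 15
  w : m4 (wd C s).m (act g4 (wd C s).w s) = rep C (wd C s).r
  m : tab.testBit (cdS (m4 1 s)) = true
  c : (wd C (m4 1 s)).r = (wd C s).r
  i : lb IX (cdS s) = lb IX (cdS (m4 1 s))
  d : ∀ n : S4, n.a < 2 → n.b < 2 → n.c < 2 → n.d < 2 →
    dl (dt C s) n = dl (dt C (rep C (wd C s).r)) (act gn (wd C s).w n)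

theorem wf_of (h : okW C tab = true) {s : S4} (ha : s.a < 8) (hb : s.b < 8) (hc : s.c < 8)
    (hd : s.d < 8) (ht : tab.testBit (cdS s) = true) : WF C tab s := by
  have h1 := im_iff.1 (allN_iff.1 (allN_iff.1 (allN_iff.1 (allN_iff.1 h s.a ha) s.b hb) s.c hc)
    s.d hd) (by rw [bt_iff]; exact ht)
  have h2 : okW1 C tab s = true := h1
  unfold okW1 at h2
  rw [an_iff, an_iff, an_iff, an_iff, an_iff, Nat.ble_eq, eq4_iff, Nat.beq_eq, Nat.beq_eq,
    bt_iff] at h2
  obtain ⟨⟨k1, k2⟩, ⟨⟨k3, k6⟩, k4⟩, k5⟩ := h2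
  exact ⟨k1, k2, k3, k6, k4, fun n na nb nc nd => Nat.eq_of_beq_eq_true
    (allN_iff.1 (allN_iff.1 (allN_iff.1 (allN_iff.1 k5 n.a na) n.b nb) n.c nc) n.d nd)⟩

theorem mt_of (h : okW C tab = true) : MT tab := fun _ ha hb hc hd ht =>
  (wf_of h ha hb hc hd ht).m

/-! ### automorphisms -/

theorem stp_spec {b : Bool} {w : List ℕ} {e : ℕ} {A : List Am} {K : List Am → Bool}
    (h : stp b w e A K = true) : (b = false ∧ K A = true) ∨
      (b = true ∧ ∃ P t, A = P :: t ∧ P.w = w ∧ P.e = e ∧ K t = true) := by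
  cases b
  · exact Or.inl ⟨rfl, h⟩
  · right
    refine ⟨rfl, ?_⟩
    cases A with
    | nil => exact absurd h (by simp [stp])
    | cons P t =>
      have h1 : an (an (eqL P.w w) (Nat.beq P.e e)) (K t) = true := h
      rw [an_iff, an_iff, Nat.beq_eq] at h1
      exact ⟨P, t, rfl, eqL_iff h1.1.1, h1.1.2, h1.2⟩

theorem fld_spec {r : ℕ} {s : S4} {l : List (List ℕ)} {A : List Am} {K : List Am → Bool}
    (h : fld C r s l A K = true) : ∃ A1 A2, A = A1 ++ A2 ∧ K A2 = true ∧
      ∀ F : List ℕ → ℕ → ℤ, (l.map fun w => (if cls C (act g4 w s) = r then F w 0 else 0) +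
        (if cls C (m4 1 (act g4 w s)) = r then F w 1 else 0)).sum =
        (A1.map fun P => F P.w P.e).sum := by
  induction l generalizing A with
  | nil => exact ⟨[], A, rfl, h, fun F => rfl⟩
  | cons w l ih =>
    have h1 : stp (Nat.beq (cls C (act g4 w s)) r) w 0 A (fun A =>
      stp (Nat.beq (cls C (m4 1 (act g4 w s))) r) w 1 A (fun A => fld C r s l A K)) = true := h
    have key : ∀ A', stp (Nat.beq (cls C (m4 1 (act g4 w s))) r) w 1 A'
        (fun A => fld C r s l A K) = true → ∃ A1 A2, A' = A1 ++ A2 ∧ K A2 = true ∧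
        ∀ F : List ℕ → ℕ → ℤ, (if cls C (m4 1 (act g4 w s)) = r then F w 1 else 0) +
          (l.map fun w => (if cls C (act g4 w s) = r then F w 0 else 0) +
          (if cls C (m4 1 (act g4 w s)) = r then F w 1 else 0)).sum =
          (A1.map fun P => F P.w P.e).sum := by
      intro A' h2
      rcases stp_spec h2 with ⟨b2, h3⟩ | ⟨b2, P, t, e1, e2, e3, h3⟩
      · obtain ⟨A1, A2, k1, k2, k3⟩ := ih h3
        refine ⟨A1, A2, k1, k2, fun F => ?_⟩
        rw [if_neg (fun g => by rw [g, Nat.beq_refl] at b2; exact absurd b2 (by simp)), zero_add,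
          k3]
      · obtain ⟨A1, A2, k1, k2, k3⟩ := ih h3
        refine ⟨P :: A1, A2, by rw [e1, k1]; rfl, k2, fun F => ?_⟩
        rw [if_pos (Nat.eq_of_beq_eq_true b2), k3, List.map_cons, List.sum_cons, e2, e3]
    rcases stp_spec h1 with ⟨b2, h3⟩ | ⟨b2, P, t, e1, e2, e3, h3⟩
    · obtain ⟨A1, A2, k1, k2, k3⟩ := key _ h3
      refine ⟨A1, A2, k1, k2, fun F => ?_⟩
      rw [List.map_cons, List.sum_cons,
        if_neg (fun g => by rw [g, Nat.beq_refl] at b2; exact absurd b2 (by simp)), zero_add, k3]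
    · obtain ⟨A1, A2, k1, k2, k3⟩ := key _ h3
      refine ⟨P :: A1, A2, by rw [e1, k1]; rfl, k2, fun F => ?_⟩
      rw [List.map_cons, List.sum_cons, if_pos (Nat.eq_of_beq_eq_true b2), add_assoc, k3,
        List.map_cons, List.sum_cons, e2, e3]

/-! ### representatives -/

/-- sum over the 24 orders -/
def sPW (F : List ℕ → ℤ) : ℤ := (PW.map fun l => (l.map F).sum).sum

theorem sPW_eq (F : List ℕ → ℤ) : sPW F = ((nth [] PW 0).map F).sum + (((nth [] PW 1).map F).sum +
    (((nth [] PW 2).map F).sum + ((nth [] PW 3).map F).sum)) := by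
  have : sPW F = ((nth [] PW 0).map F).sum + (((nth [] PW 1).map F).sum +
    (((nth [] PW 2).map F).sum + (((nth [] PW 3).map F).sum + 0))) := rfl
  rw [this, add_zero]

structure RF (C : Ce) (tab r : ℕ) : Prop where
  t : tab.testBit (cdS (rep C r)) = true
  c : cls C (rep C r) = r
  d : 4 * C.dO ≤ dk C r 0 + dk C r 1 + (dk C r 2 + dk C r 3)
  n : ∀ n : S4, n.a < 2 → n.b < 2 → n.c < 2 → n.d < 2 →
    dl (dt C (rep C r)) n + 2 * ((nth [] C.AT r).map fun P => dneg C r (act gn P.w n)).sum =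
      4 * C.od + 2 * ((nth [] C.AT r).map fun P => dpos C r (act gn P.w n)).sum
  a : ∀ F : List ℕ → ℕ → ℤ, sPW (fun w => (if cls C (act g4 w (rep C r)) = r then F w 0 else 0) +
    (if cls C (m4 1 (act g4 w (rep C r))) = r then F w 1 else 0)) =
      ((nth [] C.AT r).map fun P => F P.w P.e).sum
  z : ∀ l ∈ PW, ∀ w ∈ l, (cls C (act g4 w (rep C r)) = 15 ∨ cls C (act g4 w (rep C r)) = r) ∧
    (cls C (m4 1 (act g4 w (rep C r))) = 15 ∨ cls C (m4 1 (act g4 w (rep C r))) = r)

theorem rf_of (h1 : okR C tab = true) (h2 : okR2 C = true) (h3 : okA C = true) {r : ℕ}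
    (hr : r < 15) : RF C tab r := by
  have k1 := allN_iff.1 h1 r hr
  have k2 := allN_iff.1 h2 r hr
  have k3 := allN_iff.1 h3 r hr
  rw [an_iff, an_iff, an_iff, bt_iff, Nat.beq_eq, Nat.ble_eq] at k1
  obtain ⟨⟨⟨t, c⟩, d⟩, n⟩ := k1
  refine ⟨t, c, d, fun n' na nb nc nd => ?_, fun F => ?_, fun l hl w hw => ?_⟩
  · have := Nat.eq_of_beq_eq_true (allN_iff.1 (allN_iff.1 (allN_iff.1 (allN_iff.1 n n'.a na)
      n'.b nb) n'.c nc) n'.d nd)
    rw [sumF_eq, sumF_eq] at this
    exact this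
  · obtain ⟨A1, B1, e1, k3, f1⟩ := fld_spec k3
    obtain ⟨A2, B2, e2, k3, f2⟩ := fld_spec k3
    obtain ⟨A3, B3, e3, k3, f3⟩ := fld_spec k3
    obtain ⟨A4, B4, e4, k3, f4⟩ := fld_spec k3
    have e5 : B4 = [] := by
      cases B4 with
      | nil => rfl
      | cons P t => exact absurd k3 (by simp [nil'])
    rw [sPW_eq, f1, f2, f3, f4, e1, e2, e3, e4, e5, List.append_nil]
    simp only [List.map_append, List.sum_append]
  · have := allF_iff.1 (allF_iff.1 k2 l hl) w hw
    rw [an_iff] at this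
    have key : ∀ x, okR2.an' x r = true → x = 15 ∨ x = r := by
      intro x hx
      unfold okR2.an' at hx
      cases hb : Nat.beq x r
      · rw [hb] at hx
        exact Or.inl (Nat.eq_of_beq_eq_true hx)
      · exact Or.inr (Nat.eq_of_beq_eq_true hb)
    exact ⟨key _ this.1, key _ this.2⟩

/-! ### vectors -/

structure VF (C : Ce) : Prop where
  LB : LK6 C.LB
  th : C.th ≤ 2047
  oB : C.oB ≤ 8589934592
  cb : C.cb + C.og = 15 * C.oT + 60 * C.od
  LQ : ∀ r < 15, LK6 (nth [] C.LQ r)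
  nf : ∀ r < 15, nth 0 C.NF r ≤ 512
  mc : ∀ r < 15, ∀ k < 4, Bd 2147483647 (mc C r k)
  om : ∀ r < 15, ∀ k < 4, Bd 2047 (om C r k)
  mb : ∀ r < 15, ∀ k < 4, Bd 8589934591 (mb C r k)

theorem vf_of (h : okC C = true) : VF C := by
  unfold okC at h
  rw [an_iff, an_iff, an_iff, an_iff, Nat.ble_eq, Nat.ble_eq, Nat.beq_eq] at h
  obtain ⟨⟨h1, h2, h3⟩, h4, h5⟩ := h
  have h6 : ∀ r < 15, (okL6 (nth 0 C.NF r) (nth [] C.LQ r) = true ∧ nth 0 C.NF r ≤ 512) ∧
      ∀ k < 4, okV (nth 0 C.NF r) 2147483647 (mc C r k) = true ∧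
        okV (nth 0 C.NF r) 2047 (om C r k) = true ∧
        okV (nth 0 C.NF r) 8589934591 (mb C r k) = true := by
    intro r hr
    have := allN_iff.1 h5 r hr
    rw [an_iff, an_iff, Nat.ble_eq] at this
    refine ⟨this.1, fun k hk => ?_⟩
    have := allN_iff.1 this.2 k hk
    rw [an_iff, an_iff] at this
    exact this
  exact ⟨okL6_iff h1, h2, h3, h4, fun r hr => okL6_iff (h6 r hr).1.1,
    fun r hr => (h6 r hr).1.2,
    fun r hr k hk => okV_iff ((h6 r hr).2 k hk).1,
    fun r hr k hk => okV_iff ((h6 r hr).2 k hk).2.1,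
    fun r hr k hk => okV_iff ((h6 r hr).2 k hk).2.2⟩

/-! ### flags -/

structure FF (C : Ce) (r : ℕ) (f : S6) : Prop where
  lt : ixt C r f < nth 0 C.NF r
  au : ∀ P ∈ nth [] C.AT r, l16 P.p (ixt C r f) = ixt C r (m6 P.e (act g6 P.w f))
  k1 : ∀ k < 4, acu (fs (rep C r) k) = true →
    lq (om C r k) (ixt C r f) = lq C.W (lb IX (fc (rep C r) f k))
  k0 : ∀ k < 4, acu (fs (rep C r) k) = false →
    lq (mc C r k) (ixt C r f) = 0 ∧ lq (mb C r k) (ixt C r f) = C.oB
  kw : ∀ k < 4, ∀ w ∈ nth [] PW k, acu (act g4 w (rep C r)).a = true →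
    lq C.W (lb IX (uw (rep C r) f w)) = lq (om C r k) (ixt C r f)
  kb : ∀ k < 4, (lq (mb C r k) (ixt C r f) : ℤ) - C.oB = ((nth [] PW k).map fun w =>
    if acu (act g4 w (rep C r)).a = true then
      Qc C.LB (lb IX (cdS (act g4 w (rep C r)))) (lb IX (uw (rep C r) f w)) else 0).sum

theorem sum_split {α : Type} (l : List α) (c : α → Prop) [DecidablePred c] (x y : α → ℤ)
    (z : α → ℤ) (h : ∀ a, y a = z a + x a) :
    (l.map fun a => if c a then y a else 0).sum =
      (l.map fun a => if c a then z a else 0).sum + (l.map fun a => if c a then x a else 0).sum := by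
  induction l with
  | nil => rfl
  | cons a l ih =>
    simp only [List.map_cons, List.sum_cons, ih]
    split_ifs
    · rw [h]; ring
    · ring

theorem sumF_ite {α : Type} (l : List α) (c : α → Bool) (x : α → ℕ) :
    ((sumF l fun a => ite' (c a) (x a) 0 : ℕ) : ℤ) =
      (l.map fun a => if c a = true then (x a : ℤ) else 0).sum := by
  induction l with
  | nil => rfl
  | cons a l ih =>
    have : sumF (a :: l) (fun a => ite' (c a) (x a) 0) =
        ite' (c a) (x a) 0 + sumF l fun a => ite' (c a) (x a) 0 := rfl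
    rw [this, List.map_cons, List.sum_cons, ← ih, ite'_eq]
    push_cast
    split_ifs <;> simp

theorem ff_of (hV : VF C) {r : ℕ} {f : S6} (h : okF1 C r (rep C r) f = true) : FF C r f := by
  unfold okF1 at h
  rw [an_iff, an_iff, Nat.ble_eq] at h
  obtain ⟨h1, h2, h3⟩ := h
  have hk : ∀ k < 4, okK C r (rep C r) f (ixt C r f) k = true := allN_iff.1 h3
  have hk2 : ∀ k < 4, (Bool.rec (motive := fun _ => Bool)
      (an (Nat.beq (lq (mc C r k) (ixt C r f)) 0) (Nat.beq (lq (mb C r k) (ixt C r f)) C.oB))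
      (Nat.beq (lq (om C r k) (ixt C r f)) (lq C.W (lb IX (fc (rep C r) f k))))
        (acu (fs (rep C r) k)) = true) ∧
      (allF (nth [] PW k) fun w => im (acu (act g4 w (rep C r)).a)
        (Nat.beq (lq C.W (lb IX (uw (rep C r) f w))) (lq (om C r k) (ixt C r f)))) = true ∧
      Nat.add (lq (mb C r k) (ixt C r f)) (sumF (nth [] PW k) fun w =>
        ite' (acu (act g4 w (rep C r)).a)
          (Nat.mul OV (Nat.add (lq (ps C.LB) (lb IX (cdS (act g4 w (rep C r)))))
            (lq (ps C.LB) (lb IX (uw (rep C r) f w))))) 0) =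
        Nat.add C.oB (sumF (nth [] PW k) fun w => ite' (acu (act g4 w (rep C r)).a)
          (Nat.add (lq (rw C.LB (lb IX (cdS (act g4 w (rep C r))))) (lb IX (uw (rep C r) f w)))
            (Nat.mul (Nat.mul OV OV) (len C.LB))) 0) := by
    intro k hk'
    have := hk k hk'
    unfold okK at this
    rw [an_iff, an_iff] at this
    exact ⟨this.1, this.2.1, Nat.eq_of_beq_eq_true this.2.2⟩
  refine ⟨h1, fun P hP => Nat.eq_of_beq_eq_true (allF_iff.1 h2 P hP), fun k hk' ha => ?_,
    fun k hk' ha => ?_, fun k hk' w hw ha => ?_, fun k hk' => ?_⟩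
  · have := (hk2 k hk').1
    rw [ha] at this
    exact Nat.eq_of_beq_eq_true this
  · have := (hk2 k hk').1
    rw [ha] at this
    have h4 : an (Nat.beq (lq (mc C r k) (ixt C r f)) 0)
      (Nat.beq (lq (mb C r k) (ixt C r f)) C.oB) = true := this
    rw [an_iff, Nat.beq_eq, Nat.beq_eq] at h4
    exact h4
  · exact Nat.eq_of_beq_eq_true (im_iff.1 (allF_iff.1 (hk2 k hk').2.1 w hw) ha)
  · have h4 := congrArg (Nat.cast : ℕ → ℤ) (hk2 k hk').2.2
    simp only [nadd, nmul] at h4
    push_cast at h4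
    rw [sumF_ite, sumF_ite] at h4
    have h5 := sum_split (nth [] PW k) (fun w => acu (act g4 w (rep C r)).a = true)
      (fun w => ((OV * (lq (ps C.LB) (lb IX (cdS (act g4 w (rep C r)))) +
        lq (ps C.LB) (lb IX (uw (rep C r) f w))) : ℕ) : ℤ))
      (fun w => ((lq (rw C.LB (lb IX (cdS (act g4 w (rep C r))))) (lb IX (uw (rep C r) f w)) +
        OV * OV * len C.LB : ℕ) : ℤ))
      (fun w => Qc C.LB (lb IX (cdS (act g4 w (rep C r)))) (lb IX (uw (rep C r) f w)))
      (fun w => by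
        push_cast
        rw [Qc_eq6 hV.LB]
        ring)
    linarith

end Pool.Agent.AKU6
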