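import Pool.Agent.AKU6.Sf
import Pool.Agent.AKC.Pm6

set_option autoImplicit false

/-!
# Six points: the value of the rows over four points
-/

namespace Pool.Agent.AKU6

open Finset Pool.Agent.AKY Pool.Agent.AKU5 Pool.Agent.AKC.Pm6

variable {κ : Type} {C : Ce} {tab : ℕ} {w : ℕ → ℤ} {G : Cfg κ}

/-- the hypotheses -/
structure Hy (C : Ce) (tab : ℕ) (w : ℕ → ℤ) : Prop where
  W : okW C tab = true
  R : ∀ r < 15, RF C tab r
  V : VF C
  F : ∀ r < 15, okF C tab r = true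
  S : ∀ r < 15, ∀ k < 8, okS C r k = true
  w : ∀ s : S4, s.a < 8 → s.b < 8 → s.c < 8 → s.d < 8 → tab.testBit (cdS s) = true →
    s.a % 4 = 0 → w (cdS s) = lq C.W (lb IX (cdS s))

theorem Hy.wm (H : Hy C tab w) {s : S4} (ha : s.a < 8) (hb : s.b < 8) (hc : s.c < 8)
    (hd : s.d < 8) (ht : tab.testBit (cdS s) = true) (h4 : s.a % 4 = 0) :
    w (cdS (m4 1 s)) = w (cdS s) := by
  have f := wf_of H.W ha hb hc hd ht
  have e : (m4 1 s).a % 4 = 0 := by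
    show mi s.a % 4 = 0
    rw [mi_mod ha]
    exact h4
  rw [H.w s ha hb hc hd ht h4, H.w (m4 1 s) (mi_lt ha) (mi_lt hb) (mi_lt hc) (mi_lt hd) f.m e, f.i]

/-! ### codes of three points of the root and a further point -/

/-- the root without the point `k`, and `y` -/
def rk4 (p : P4 κ) (k : ℕ) (y : κ) : P4 κ :=
  Nat.rec (motive := fun _ => P4 κ) ⟨p.b, p.c, p.d, y⟩
    (fun k _ => Nat.rec (motive := fun _ => P4 κ) ⟨p.a, p.c, p.d, y⟩
      (fun k _ => Nat.rec (motive := fun _ => P4 κ) ⟨p.a, p.b, p.d, y⟩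
        (fun _ _ => ⟨p.a, p.b, p.c, y⟩) k) k) k

theorem rk4_N {p : P4 κ} (h : p.N) {y : κ} (hy : p.F y) (k : ℕ) : (rk4 p k y).N := by
  obtain ⟨h1, h2, h3, h4, h5, h6⟩ := h
  obtain ⟨y1, y2, y3, y4⟩ := hy
  rcases k with _ | _ | _ | k
  · exact ⟨h4, h5, y2.symm, h6, y3.symm, y4.symm⟩
  · exact ⟨h2, h3, y1.symm, h6, y3.symm, y4.symm⟩
  · exact ⟨h1, h3, y1.symm, h5, y2.symm, y4.symm⟩
  · exact ⟨h1, h2, y1.symm, h4, y2.symm, y3.symm⟩

theorem fc_eq (G : Cfg κ) (p : P4 κ) (y : κ) (k : ℕ) :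
    fc (G.co p) (G.fl p y) k = cdS (G.co (rk4 p k y)) := by
  rcases k with _ | _ | _ | k <;> rfl

theorem fs_eq (G : Cfg κ) (p : P4 κ) (y : κ) (k : ℕ) :
    fs (G.co p) k = (G.co (rk4 p k y)).a := by
  rcases k with _ | _ | _ | k <;> rfl

theorem fc_mir (G : Cfg κ) (p : P4 κ) (y : κ) (k : ℕ) :
    fc (m4 1 (G.co p)) (m6 1 (G.fl p y)) k = cdS (m4 1 (G.co (rk4 p k y))) := by
  rcases k with _ | _ | _ | k <;> rfl

theorem fs_mir (G : Cfg κ) (p : P4 κ) (k : ℕ) :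
    fs (m4 1 (G.co p)) k = mi (fs (G.co p) k) := by
  rcases k with _ | _ | _ | k <;> rfl

theorem fs_lt (hG : G.Ok tab) {p : P4 κ} (h : p.N) (k : ℕ) : fs (G.co p) k < 8 := by
  obtain ⟨h1, h2, h3, h4⟩ := co_lt hG h
  rcases k with _ | _ | _ | k
  · exact h4
  · exact h3
  · exact h2
  · exact h1

/-- the weight of the code and of its mirror image -/
theorem w_fc (H : Hy C tab w) (hG : G.Ok tab) {p : P4 κ} (h : p.N) {y : κ} (hy : p.F y) (k : ℕ)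
    (ha : fs (G.co p) k % 4 = 0) :
    w (fc (G.co p) (G.fl p y) k) = lq C.W (lb IX (fc (G.co p) (G.fl p y) k)) ∧
      w (fc (m4 1 (G.co p)) (m6 1 (G.fl p y)) k) = w (fc (G.co p) (G.fl p y) k) := by
  have hN := rk4_N h hy k
  obtain ⟨h1, h2, h3, h4⟩ := co_lt hG hN
  have ht := hG.tab _ hN
  rw [fs_eq G p y k] at ha
  rw [fc_mir, fc_eq]
  exact ⟨H.w _ h1 h2 h3 h4 ht ha, H.wm h1 h2 h3 h4 ht ha⟩

/-! ### the terms as functions of the codes -/

noncomputable def mo (C : Ce) (w : ℕ → ℤ) (s : S4) (f g : S6) (k : ℕ) : ℤ :=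
  m1 C k s f * (w (fc s g k) - C.th) + m1 C k s g * (w (fc s f k) - C.th)

noncomputable def Vc (C : Ce) (w : ℕ → ℤ) (s : S4) (f g : S6) (n : S4) : ℤ :=
  q1 C s f g + (mo C w s f g 0 + mo C w s f g 1 + (mo C w s f g 2 + mo C w s f g 3)) +
    (d1 C 0 s * (4 - 9 * n.a) + d1 C 1 s * (4 - 9 * n.b) + d1 C 2 s * (4 - 9 * n.c) +
      d1 C 3 s * (4 - 9 * n.d))

noncomputable def Bv (C : Ce) (w : ℕ → ℤ) (s : S4) (f g : S6) : ℤ :=
  (if s.a % 4 = 0 then Qc C.LB (lb IX (cdS s)) (lb IX (cd s.a f.e f.g f.h)) else 0) *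
    (w (cd s.a g.e g.g g.h) - C.th)

theorem q1_sym (s : S4) (f g : S6) : q1 C s f g = q1 C s g f := by
  unfold q1
  rw [Qc_sym]

theorem mo_mir (H : Hy C tab w) (hG : G.Ok tab) {p : P4 κ} (h : p.N) {y z : κ} (hy : p.F y)
    (hz : p.F z) (k : ℕ) :
    mo C w (m4 1 (G.co p)) (m6 1 (G.fl p y)) (m6 1 (G.fl p z)) k =
      m1 C k (m4 1 (G.co p)) (m6 1 (G.fl p y)) * (w (fc (G.co p) (G.fl p z) k) - C.th) +
      m1 C k (m4 1 (G.co p)) (m6 1 (G.fl p z)) * (w (fc (G.co p) (G.fl p y) k) - C.th) := by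
  unfold mo
  by_cases ha : fs (G.co p) k % 4 = 0
  · rw [(w_fc H hG h hy k ha).2, (w_fc H hG h hz k ha).2]
  · have e : ∀ f, m1 C k (m4 1 (G.co p)) f = 0 := fun f => by
      unfold m1
      rw [if_neg]
      rintro ⟨-, h2⟩
      rw [fs_mir, mi_mod (fs_lt hG h k)] at h2
      exact ha h2
    rw [e, e]
    ring

theorem T_add (H : Hy C tab w) (hG : G.Ok tab) {p : P4 κ} (h : p.N) {y z : κ} (hy : p.F y)
    (hz : p.F z) (hyz : y ≠ z) :
    T C w G p y z + T C w G p z y =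
      2 * (Vc C w (G.co p) (G.fl p y) (G.fl p z) (G.bi p y z) +
        Vc C w (m4 1 (G.co p)) (m6 1 (G.fl p y)) (m6 1 (G.fl p z)) (G.bi p y z)) +
      (Bv C w (G.co p) (G.fl p y) (G.fl p z) + Bv C w (G.co p) (G.fl p z) (G.fl p y)) := by
  have n1 : na (G.st p.a z y) = na (G.st p.a y z) := by
    rw [hG.sw _ _ _ hy.1.symm hz.1.symm hyz, na_sw (hG.lt _ _ _ hy.1.symm hz.1.symm hyz)]
  have n2 : na (G.st p.b z y) = na (G.st p.b y z) := by
    rw [hG.sw _ _ _ hy.2.1.symm hz.2.1.symm hyz, na_sw (hG.lt _ _ _ hy.2.1.symm hz.2.1.symm hyz)]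
  have n3 : na (G.st p.c z y) = na (G.st p.c y z) := by
    rw [hG.sw _ _ _ hy.2.2.1.symm hz.2.2.1.symm hyz,
      na_sw (hG.lt _ _ _ hy.2.2.1.symm hz.2.2.1.symm hyz)]
  have n4 : na (G.st p.d z y) = na (G.st p.d y z) := by
    rw [hG.sw _ _ _ hy.2.2.2.symm hz.2.2.2.symm hyz,
      na_sw (hG.lt _ _ _ hy.2.2.2.symm hz.2.2.2.symm hyz)]
  have e0 : ∀ u, wt C w G p.b p.c p.d u = w (fc (G.co p) (G.fl p u) 0) - C.th := fun u => rfl
  have e1 : ∀ u, wt C w G p.a p.c p.d u = w (fc (G.co p) (G.fl p u) 1) - C.th := fun u => rfl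
  have e2 : ∀ u, wt C w G p.a p.b p.d u = w (fc (G.co p) (G.fl p u) 2) - C.th := fun u => rfl
  have e3 : ∀ u, wt C w G p.a p.b p.c u = w (fc (G.co p) (G.fl p u) 3) - C.th := fun u => rfl
  have b1 : TB C G p.a p.b p.c p.d y * wt C w G p.a p.b p.c z =
    Bv C w (G.co p) (G.fl p y) (G.fl p z) := rfl
  have b2 : TB C G p.a p.b p.c p.d z * wt C w G p.a p.b p.c y =
    Bv C w (G.co p) (G.fl p z) (G.fl p y) := rfl
  unfold T
  rw [b1, b2, n1, n2, n3, n4]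
  unfold Vc
  rw [mo_mir H hG h hy hz, mo_mir H hG h hy hz, mo_mir H hG h hy hz, mo_mir H hG h hy hz]
  simp only [e0, e1, e2, e3]
  unfold TQ TM TD mo Cfg.bi
  rw [q1_sym (G.co p) (G.fl p z) (G.fl p y),
    q1_sym (m4 1 (G.co p)) (m6 1 (G.fl p z)) (m6 1 (G.fl p y))]
  ring

/-! ### the sum over the orders -/

/-- the sum of the rows over the orders of the root and of `y z` -/
noncomputable def SB (C : Ce) (w : ℕ → ℤ) (G : Cfg κ) (p : P4 κ) (y z : κ) : ℤ :=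
  s24 (fun a b c d => T C w G ⟨a, b, c, d⟩ y z + T C w G ⟨a, b, c, d⟩ z y) p.a p.b p.c p.d

theorem s24_sPW (g : P4 κ → ℤ) (p : P4 κ) :
    s24 (fun a b c d => g ⟨a, b, c, d⟩) p.a p.b p.c p.d = sPW fun w => g (act gp w p) := by
  obtain ⟨a, b, c, d⟩ := p
  have e : (sPW fun w => g (act gp w ⟨a, b, c, d⟩)) =
      (g ⟨b, c, d, a⟩ + (g ⟨c, b, d, a⟩ + (g ⟨b, d, c, a⟩ + (g ⟨c, d, b, a⟩ + (g ⟨d, b, c, a⟩ +
        (g ⟨d, c, b, a⟩ + 0)))))) +
      ((g ⟨a, c, d, b⟩ + (g ⟨c, a, d, b⟩ + (g ⟨a, d, c, b⟩ + (g ⟨c, d, a, b⟩ + (g ⟨d, a, c, b⟩ +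
        (g ⟨d, c, a, b⟩ + 0)))))) +
      ((g ⟨a, b, d, c⟩ + (g ⟨b, a, d, c⟩ + (g ⟨a, d, b, c⟩ + (g ⟨b, d, a, c⟩ + (g ⟨d, a, b, c⟩ +
        (g ⟨d, b, a, c⟩ + 0)))))) +
      ((g ⟨a, b, c, d⟩ + (g ⟨b, a, c, d⟩ + (g ⟨a, c, b, d⟩ + (g ⟨b, c, a, d⟩ + (g ⟨c, a, b, d⟩ +
        (g ⟨c, b, a, d⟩ + 0)))))) + 0))) := rfl
  rw [e]
  unfold s24
  ring

theorem SB_eq (p : P4 κ) (y z : κ) : SB C w G p y z =
    sPW fun v => T C w G (act gp v p) y z + T C w G (act gp v p) z y :=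
  s24_sPW (fun p => T C w G p y z + T C w G p z y) p

theorem SB_gp (p : P4 κ) (y z : κ) (k : ℕ) : SB C w G (gp k p) y z = SB C w G p y z := by
  rcases k with _ | _ | k
  · exact s24_swap0 (fun a b c d => T C w G ⟨a, b, c, d⟩ y z + T C w G ⟨a, b, c, d⟩ z y) _ _ _ _
  · exact s24_swap1 (fun a b c d => T C w G ⟨a, b, c, d⟩ y z + T C w G ⟨a, b, c, d⟩ z y) _ _ _ _
  · exact s24_swap2 (fun a b c d => T C w G ⟨a, b, c, d⟩ y z + T C w G ⟨a, b, c, d⟩ z y) _ _ _ _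

theorem SB_act (p : P4 κ) (y z : κ) (v : List ℕ) : SB C w G (act gp v p) y z = SB C w G p y z := by
  induction v generalizing p with
  | nil => rfl
  | cons k v ih => rw [act_cons, ih, SB_gp]

theorem T_mir (H : Hy C tab w) (hG : G.Ok tab) {p : P4 κ} (h : p.N) {y z : κ} (hy : p.F y)
    (hz : p.F z) (hyz : y ≠ z) : T C w G.mir p y z = T C w G p y z := by
  obtain ⟨c1, c2, c3, c4⟩ := co_lt hG h
  have hc := m4_m4 c1 c2 c3 c4
  have hf : ∀ u, p.F u → m6 1 (m6 1 (G.fl p u)) = G.fl p u := fun u hu => m6_m6 (fl_lt hG h hu)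
  have eQ : TQ C G.mir p y z = TQ C G p y z := by
    unfold TQ
    simp only [co_mir, fl_mir]
    rw [hc, hf y hy, hf z hz]
    ring
  have eM : ∀ k u, p.F u → TM C G.mir k p u = TM C G k p u := by
    intro k u hu
    unfold TM
    rw [co_mir, fl_mir, hc, hf u hu]
    ring
  have eD : ∀ k, TD C G.mir k p = TD C G k p := by
    intro k
    unfold TD
    rw [co_mir, hc]
    ring
  have key : ∀ k u v, p.F u → p.F v → TM C G.mir k p u * (w (fc (G.mir.co p) (G.mir.fl p v) k) -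
      C.th) = TM C G k p u * (w (fc (G.co p) (G.fl p v) k) - C.th) := by
    intro k u v hu hv
    rw [eM k u hu, co_mir, fl_mir]
    by_cases ha : fs (G.co p) k % 4 = 0
    · rw [(w_fc H hG h hv k ha).2]
    · have e : TM C G k p u = 0 := by
        unfold TM m1
        rw [if_neg (fun g => ha g.2), if_neg (fun g => ha (by
          have := g.2
          rwa [fs_mir, mi_mod (fs_lt hG h k)] at this))]
        ring
      rw [e]
      ring
  have k0 : ∀ u v, p.F u → p.F v → TM C G.mir 0 p u * wt C w G.mir p.b p.c p.d v =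
    TM C G 0 p u * wt C w G p.b p.c p.d v := fun u v hu hv => key 0 u v hu hv
  have k1 : ∀ u v, p.F u → p.F v → TM C G.mir 1 p u * wt C w G.mir p.a p.c p.d v =
    TM C G 1 p u * wt C w G p.a p.c p.d v := fun u v hu hv => key 1 u v hu hv
  have k2 : ∀ u v, p.F u → p.F v → TM C G.mir 2 p u * wt C w G.mir p.a p.b p.d v =
    TM C G 2 p u * wt C w G p.a p.b p.d v := fun u v hu hv => key 2 u v hu hv
  have k3 : ∀ u v, p.F u → p.F v → TM C G.mir 3 p u * wt C w G.mir p.a p.b p.c v =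
    TM C G 3 p u * wt C w G p.a p.b p.c v := fun u v hu hv => key 3 u v hu hv
  have n : ∀ q, q ≠ y → q ≠ z → na (G.mir.st q y z) = na (G.st q y z) := fun q h1 h2 =>
    na_mi (hG.lt _ _ _ h1 h2 hyz)
  have eB : TB C G.mir p.a p.b p.c p.d y * wt C w G.mir p.a p.b p.c z =
      TB C G p.a p.b p.c p.d y * wt C w G p.a p.b p.c z := by
    unfold TB
    have e1 : G.mir.st p.a p.b p.c % 4 = G.st p.a p.b p.c % 4 := mi_mod c1
    rw [e1]
    by_cases ha : G.st p.a p.b p.c % 4 = 0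
    · rw [if_pos ha, if_pos ha]
      have e2 : G.mir.c4 p.a p.b p.c p.d = cdS (m4 1 (G.co p)) := rfl
      have e3 : G.c4 p.a p.b p.c p.d = cdS (G.co p) := rfl
      have e4 : G.mir.c4 p.a p.b p.c y = cdS (m4 1 (G.co (rk4 p 3 y))) := rfl
      have e5 : G.c4 p.a p.b p.c y = cdS (G.co (rk4 p 3 y)) := rfl
      have e6 : wt C w G.mir p.a p.b p.c z = wt C w G p.a p.b p.c z := by
        have := (w_fc H hG h hz 3 ha).2
        show w (fc (m4 1 (G.co p)) (m6 1 (G.fl p z)) 3) - C.th = w (fc (G.co p) (G.fl p z) 3) - C.th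
        rw [this]
      obtain ⟨r1, r2, r3, r4⟩ := co_lt hG (rk4_N h hy 3)
      rw [e2, e3, e4, e5, e6, ← (wf_of H.W c1 c2 c3 c4 (hG.tab p h)).i,
        ← (wf_of H.W r1 r2 r3 r4 (hG.tab _ (rk4_N h hy 3))).i]
    · rw [if_neg ha, if_neg ha]
      ring
  unfold T
  rw [eQ, eB, k0 y z hy hz, k0 z y hz hy, k1 y z hy hz, k1 z y hz hy, k2 y z hy hz,
    k2 z y hz hy, k3 y z hy hz, k3 z y hz hy, eD, eD, eD, eD, n p.a hy.1.symm hz.1.symm,
    n p.b hy.2.1.symm hz.2.1.symm, n p.c hy.2.2.1.symm hz.2.2.1.symm,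
    n p.d hy.2.2.2.symm hz.2.2.2.symm]

theorem sPW_congr {F F' : List ℕ → ℤ} (h : ∀ v, F v = F' v) : sPW F = sPW F' := by
  have : F = F' := funext h
  rw [this]

theorem SB_mir (H : Hy C tab w) (hG : G.Ok tab) {p : P4 κ} (h : p.N) {y z : κ} (hy : p.F y)
    (hz : p.F z) (hyz : y ≠ z) : SB C w G.mir p y z = SB C w G p y z := by
  rw [SB_eq, SB_eq]
  refine sPW_congr fun v => ?_
  rw [T_mir H hG (act_N h v) (act_F hy v) (act_F hz v) hyz,
    T_mir H hG (act_N h v) (act_F hz v) (act_F hy v) hyz.symm]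

end Pool.Agent.AKU6
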