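import Pool.Agent.AKU6.Kl

set_option autoImplicit false

/-!
# Six points: the value of the rows over four points, from the tables
-/

namespace Pool.Agent.AKU6

open Finset Pool.Agent.AKY Pool.Agent.AKU5 Pool.Agent.AKC.Pm6

variable {κ : Type} {C : Ce} {tab : ℕ} {w : ℕ → ℤ} {G : Cfg κ}

/-- the facts about the flag of a point over a representative -/
theorem ff_cfg (H : Hy C tab w) (hG : G.Ok tab) {p : P4 κ} (h : p.N) {y : κ} (hy : p.F y) {r : ℕ}
    (hr : r < 15) (hc : G.co p = rep C r) : FF C r (G.fl p y) := by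
  obtain ⟨e1, e2, e3, e4, e5, e6⟩ := fl_lt hG h hy
  have t : ∀ k, tab.testBit (cdS (G.co (rk4 p k y))) = true := fun k => hG.tab _ (rk4_N h hy k)
  have h0 : okFr C tab r (rep C r) = true := H.F r hr
  unfold okFr at h0
  have h1 := allN_iff.1 (allN_iff.1 (allN_iff.1 h0 (G.fl p y).e e1) (G.fl p y).g e2)
    (G.fl p y).h e3
  rw [← hc] at h1
  have h2 := allN_iff.1 (allN_iff.1 (im_iff.1 h1 (by rw [bt_iff]; exact t 3)) (G.fl p y).u e4)
    (G.fl p y).v e5
  have h3 := im_iff.1 (allN_iff.1 (im_iff.1 h2 (by rw [bt_iff]; exact t 2)) (G.fl p y).w e6)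
    (an_iff.2 ⟨by rw [bt_iff]; exact t 1, by rw [bt_iff]; exact t 0⟩)
  rw [hc] at h3
  exact ff_of H.V h3

/-- degree part at a representative -/
noncomputable def dv (C : Ce) (r : ℕ) (n : S4) : ℤ :=
  ((dk C r 0 : ℤ) - C.dO) * (4 - 9 * n.a) + ((dk C r 1 : ℤ) - C.dO) * (4 - 9 * n.b) +
    ((dk C r 2 : ℤ) - C.dO) * (4 - 9 * n.c) + ((dk C r 3 : ℤ) - C.dO) * (4 - 9 * n.d)

theorem fs_acu (hG : G.Ok tab) {p : P4 κ} (h : p.N) (k : ℕ) :
    acu (fs (G.co p) k) = true ↔ fs (G.co p) k % 4 = 0 := acu_iff (fs_lt hG h k)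

theorem Vc_rep (H : Hy C tab w) (hG : G.Ok tab) {p : P4 κ} (h : p.N) {y z : κ} (hy : p.F y)
    (hz : p.F z) {r : ℕ} (hr : r < 15) (hc : G.co p = rep C r) (n : S4) :
    Vc C w (G.co p) (G.fl p y) (G.fl p z) n =
      TT C r (ixt C r (G.fl p y)) (ixt C r (G.fl p z)) + dv C r n := by
  have R := H.R r hr
  have fy := ff_cfg H hG h hy hr hc
  have fz := ff_cfg H hG h hz hr hc
  have ecls : cls C (G.co p) = r := by rw [hc]; exact R.c
  have hq : q1 C (G.co p) (G.fl p y) (G.fl p z) =
      Qc (nth [] C.LQ r) (ixt C r (G.fl p y)) (ixt C r (G.fl p z)) := by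
    unfold q1
    rw [ecls, if_pos hr]
  have hd : ∀ k, d1 C k (G.co p) = (dk C r k : ℤ) - C.dO := by
    intro k
    unfold d1
    rw [ecls, if_pos hr]
  have hm : ∀ k < 4, mo C w (G.co p) (G.fl p y) (G.fl p z) k =
      pr (mc C r k) (om C r k) 0 C.th (ixt C r (G.fl p y)) (ixt C r (G.fl p z)) := by
    intro k hk
    unfold mo m1 pr
    rw [ecls]
    by_cases ha : fs (G.co p) k % 4 = 0
    · have ha' := (fs_acu hG h k).2 ha
      rw [hc] at ha'
      rw [if_pos ⟨hr, ha⟩, if_pos ⟨hr, ha⟩, (w_fc H hG h hy k ha).1, (w_fc H hG h hz k ha).1, hc,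
        fy.k1 k hk ha', fz.k1 k hk ha']
      ring
    · have ha' : acu (fs (rep C r) k) = false := by
        rw [← hc]
        cases hb : acu (fs (G.co p) k)
        · rfl
        · exact absurd ((fs_acu hG h k).1 hb) ha
      rw [if_neg (fun g => ha g.2), if_neg (fun g => ha g.2), (fy.k0 k hk ha').1,
        (fz.k0 k hk ha').1]
      ring
  unfold Vc TT dv
  rw [hq, hm 0 (by norm_num), hm 1 (by norm_num), hm 2 (by norm_num), hm 3 (by norm_num), hd, hd,
    hd, hd]

theorem Vc_zero {s : S4} (h : cls C s = 15) (f g : S6) (n : S4) : Vc C w s f g n = 0 := by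
  have hq : q1 C s f g = 0 := by
    unfold q1
    rw [h, if_neg (by norm_num)]
  have hm : ∀ k f, m1 C k s f = 0 := by
    intro k f
    unfold m1
    rw [h, if_neg (fun g => absurd g.1 (by norm_num))]
  have hd : ∀ k, d1 C k s = 0 := by
    intro k
    unfold d1
    rw [h, if_neg (by norm_num)]
  unfold Vc mo
  rw [hq, hd, hd, hd, hd]
  simp only [hm]
  ring

theorem sPW_congr' {F F' : List ℕ → ℤ} (h : ∀ l ∈ PW, ∀ v ∈ l, F v = F' v) : sPW F = sPW F' := by
  unfold sPW
  congr 1
  refine List.map_congr_left fun l hl => ?_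
  congr 1
  exact List.map_congr_left fun v hv => h l hl v hv

theorem sPW_add (F F' : List ℕ → ℤ) : sPW (fun v => F v + F' v) = sPW F + sPW F' := by
  unfold sPW
  have h1 : ∀ l : List (List ℕ), (l.map fun v => F v + F' v).sum = (l.map F).sum + (l.map F').sum := by
    intro l
    induction l with
    | nil => rfl
    | cons a l ih =>
      simp only [List.map_cons, List.sum_cons, ih]
      ring
  generalize PW = L
  induction L with
  | nil => rfl
  | cons l L ih =>
    simp only [List.map_cons, List.sum_cons, h1] at ih ⊢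
    linarith

theorem sPW_mul (c : ℤ) (F : List ℕ → ℤ) : sPW (fun v => c * F v) = c * sPW F := by
  unfold sPW
  have h1 : ∀ l : List (List ℕ), (l.map fun v => c * F v).sum = c * (l.map F).sum := by
    intro l
    induction l with
    | nil => simp
    | cons a l ih =>
      simp only [List.map_cons, List.sum_cons, ih]
      ring
  generalize PW = L
  induction L with
  | nil => simp
  | cons l L ih =>
    simp only [List.map_cons, List.sum_cons, h1] at ih ⊢
    linarith

/-- the block of three points -/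
theorem Bv_sum (H : Hy C tab w) (hG : G.Ok tab) {p : P4 κ} (h : p.N) {y z : κ} (hy : p.F y)
    (hz : p.F z) {r : ℕ} (hr : r < 15) (hc : G.co p = rep C r) {k : ℕ} (hk : k < 4) :
    ((nth [] PW k).map fun v => Bv C w (G.co (act gp v p)) (G.fl (act gp v p) y)
      (G.fl (act gp v p) z)).sum =
      ((lq (mb C r k) (ixt C r (G.fl p y)) : ℤ) - C.oB) *
        (lq (om C r k) (ixt C r (G.fl p z)) - C.th) := by
  have fy := ff_cfg H hG h hy hr hc
  have fz := ff_cfg H hG h hz hr hc
  rw [fy.kb k hk]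
  have e : ∀ v ∈ nth [] PW k, Bv C w (G.co (act gp v p)) (G.fl (act gp v p) y)
      (G.fl (act gp v p) z) = (if acu (act g4 v (rep C r)).a = true then
      Qc C.LB (lb IX (cdS (act g4 v (rep C r)))) (lb IX (uw (rep C r) (G.fl p y) v)) else 0) *
        (lq (om C r k) (ixt C r (G.fl p z)) - C.th) := by
    intro v hv
    have hN := act_N h v
    have hFy := act_F hy v
    have hFz := act_F hz v
    have ea : G.co (act gp v p) = act g4 v (rep C r) := by rw [co_act hG h, hc]
    have hlt := (co_lt hG hN).1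
    have e1 : cd (G.co (act gp v p)).a (G.fl (act gp v p) y).e (G.fl (act gp v p) y).g
        (G.fl (act gp v p) y).h = uw (rep C r) (G.fl p y) v := by
      unfold uw
      rw [ea, fl_act hG h hy]
    have e2 : cd (G.co (act gp v p)).a (G.fl (act gp v p) z).e (G.fl (act gp v p) z).g
        (G.fl (act gp v p) z).h = uw (rep C r) (G.fl p z) v := by
      unfold uw
      rw [ea, fl_act hG h hz]
    unfold Bv
    rw [e1, e2]
    by_cases ha : (G.co (act gp v p)).a % 4 = 0
    · have ha' : acu (act g4 v (rep C r)).a = true := by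
        rw [← ea]
        exact (acu_iff hlt).2 ha
      have hw : w (uw (rep C r) (G.fl p z) v) = lq (om C r k) (ixt C r (G.fl p z)) := by
        rw [← fz.kw k hk v hv ha', ← e2]
        exact (w_fc H hG hN hFz 3 ha).1
      rw [if_pos ha, if_pos ha', hw, ea]
    · have ha' : ¬ acu (act g4 v (rep C r)).a = true := by
        rw [← ea]
        exact fun g => ha ((acu_iff hlt).1 g)
      rw [if_neg ha, if_neg ha']
      ring
  rw [List.map_congr_left e]
  generalize (lq (om C r k) (ixt C r (G.fl p z)) : ℤ) - C.th = c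
  generalize nth [] PW k = l
  induction l with
  | nil => simp
  | cons a l ih =>
    simp only [List.map_cons, List.sum_cons, ih]
    ring

theorem dv_eq (r : ℕ) (n : S4) : dv C r n = (dpos C r n : ℤ) - dneg C r n := by
  unfold dv dpos dneg
  simp only [nadd, nmul]
  push_cast
  ring

/-- **the value at a representative** -/
theorem SB_rep (H : Hy C tab w) (hG : G.Ok tab) {p : P4 κ} (h : p.N) {y z : κ} (hy : p.F y)
    (hz : p.F z) (hyz : y ≠ z) {r : ℕ} (hr : r < 15) (hc : G.co p = rep C r)
    (hn : (G.bi p y z).a < 2 ∧ (G.bi p y z).b < 2 ∧ (G.bi p y z).c < 2 ∧ (G.bi p y z).d < 2) :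
    SB C w G p y z = ((lq (row C r (ixt C r (G.fl p y))) (ixt C r (G.fl p z)) : ℤ) - C.oT) +
      ((dl (dt C (rep C r)) (G.bi p y z) : ℤ) - 4 * C.od) := by
  have R := H.R r hr
  have fy := ff_cfg H hG h hy hr hc
  have fz := ff_cfg H hG h hz hr hc
  have hM := mt_of H.W
  have hGm := mir_ok hG hM
  -- all orders
  have e1 : SB C w G p y z = 2 * sPW (fun v =>
        (if cls C (act g4 v (rep C r)) = r then
          TT C r (ixt C r (m6 0 (act g6 v (G.fl p y)))) (ixt C r (m6 0 (act g6 v (G.fl p z)))) +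
            dv C r (act gn v (G.bi p y z)) else 0) +
        (if cls C (m4 1 (act g4 v (rep C r))) = r then
          TT C r (ixt C r (m6 1 (act g6 v (G.fl p y)))) (ixt C r (m6 1 (act g6 v (G.fl p z)))) +
            dv C r (act gn v (G.bi p y z)) else 0)) +
      sPW (fun v => Bv C w (G.co (act gp v p)) (G.fl (act gp v p) y) (G.fl (act gp v p) z) +
        Bv C w (G.co (act gp v p)) (G.fl (act gp v p) z) (G.fl (act gp v p) y)) := by
    rw [SB_eq, ← sPW_mul, ← sPW_add]
    refine sPW_congr' fun l hl v hv => ?_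
    have hN := act_N h v
    have hFy := act_F hy v
    have hFz := act_F hz v
    have ec : G.co (act gp v p) = act g4 v (rep C r) := by rw [co_act hG h, hc]
    have efy : G.fl (act gp v p) y = act g6 v (G.fl p y) := fl_act hG h hy v
    have efz : G.fl (act gp v p) z = act g6 v (G.fl p z) := fl_act hG h hz v
    have eb : G.bi (act gp v p) y z = act gn v (G.bi p y z) := bi_act p y z v
    obtain ⟨z1, z2⟩ := R.z l hl v hv
    rw [T_add H hG hN hFy hFz hyz]
    have p1 : Vc C w (G.co (act gp v p)) (G.fl (act gp v p) y) (G.fl (act gp v p) z)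
        (G.bi (act gp v p) y z) = if cls C (act g4 v (rep C r)) = r then
          TT C r (ixt C r (m6 0 (act g6 v (G.fl p y)))) (ixt C r (m6 0 (act g6 v (G.fl p z)))) +
            dv C r (act gn v (G.bi p y z)) else 0 := by
      rcases z1 with g | g
      · rw [if_neg (by rw [g]; omega), Vc_zero (by rw [ec]; exact g)]
      · have hc' : G.co (act gp v p) = rep C r := by
          have := cls_spec (C := C) (s := act g4 v (rep C r)) (by rw [g]; omega)
          rw [g] at this
          exact ec.trans this.symm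
        rw [if_pos g, Vc_rep H hG hN hFy hFz hr hc', efy, efz, eb]
        rfl
    have p2 : Vc C w (m4 1 (G.co (act gp v p))) (m6 1 (G.fl (act gp v p) y))
        (m6 1 (G.fl (act gp v p) z)) (G.bi (act gp v p) y z) =
          if cls C (m4 1 (act g4 v (rep C r))) = r then
          TT C r (ixt C r (m6 1 (act g6 v (G.fl p y)))) (ixt C r (m6 1 (act g6 v (G.fl p z)))) +
            dv C r (act gn v (G.bi p y z)) else 0 := by
      rcases z2 with g | g
      · rw [if_neg (by rw [g]; omega), Vc_zero (by rw [ec]; exact g)]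
      · have hc' : G.mir.co (act gp v p) = rep C r := by
          have := cls_spec (C := C) (s := m4 1 (act g4 v (rep C r))) (by rw [g]; omega)
          rw [g] at this
          rw [co_mir, ec]
          exact this.symm
        have := Vc_rep (w := w) H hGm hN hFy hFz hr hc' (G.bi (act gp v p) y z)
        rw [co_mir, fl_mir, fl_mir] at this
        rw [if_pos g, this, efy, efz, eb]
    rw [p1, p2]
  -- automorphisms
  have e2 := R.a fun v e => TT C r (ixt C r (m6 e (act g6 v (G.fl p y))))
    (ixt C r (m6 e (act g6 v (G.fl p z)))) + dv C r (act gn v (G.bi p y z))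
  have e3 : ((nth [] C.AT r).map fun P => TT C r (ixt C r (m6 P.e (act g6 P.w (G.fl p y))))
      (ixt C r (m6 P.e (act g6 P.w (G.fl p z)))) + dv C r (act gn P.w (G.bi p y z))).sum =
      ((nth [] C.AT r).map fun P => TT C r (l16 P.p (ixt C r (G.fl p y)))
        (l16 P.p (ixt C r (G.fl p z)))).sum +
      ((nth [] C.AT r).map fun P => dv C r (act gn P.w (G.bi p y z))).sum := by
    have h4 : ∀ P ∈ nth [] C.AT r, TT C r (ixt C r (m6 P.e (act g6 P.w (G.fl p y))))
        (ixt C r (m6 P.e (act g6 P.w (G.fl p z)))) + dv C r (act gn P.w (G.bi p y z)) =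
        TT C r (l16 P.p (ixt C r (G.fl p y))) (l16 P.p (ixt C r (G.fl p z))) +
          dv C r (act gn P.w (G.bi p y z)) := fun P hP => by
      rw [fy.au P hP, fz.au P hP]
    rw [List.map_congr_left h4]
    generalize nth [] C.AT r = L
    induction L with
    | nil => rfl
    | cons P L ih =>
      simp only [List.map_cons, List.sum_cons, ih]
      ring
  -- degrees
  have e4 : 2 * ((nth [] C.AT r).map fun P => dv C r (act gn P.w (G.bi p y z))).sum =
      (dl (dt C (rep C r)) (G.bi p y z) : ℤ) - 4 * C.od := by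
    have h5 := congrArg (Nat.cast : ℕ → ℤ) (R.n (G.bi p y z) hn.1 hn.2.1 hn.2.2.1 hn.2.2.2)
    push_cast at h5
    have h6 := sum_lin (nth [] C.AT r) (fun P => dv C r (act gn P.w (G.bi p y z)))
      (fun P => (dpos C r (act gn P.w (G.bi p y z)) : ℤ))
      (fun P => (dneg C r (act gn P.w (G.bi p y z)) : ℤ)) (fun P => dv_eq r _)
    rw [h6]
    simp only [List.map_map, Function.comp_def] at h5
    linarith
  -- three points
  have e5 : sPW (fun v => Bv C w (G.co (act gp v p)) (G.fl (act gp v p) y) (G.fl (act gp v p) z) +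
      Bv C w (G.co (act gp v p)) (G.fl (act gp v p) z) (G.fl (act gp v p) y)) =
      Bb C r (ixt C r (G.fl p y)) (ixt C r (G.fl p z)) := by
    rw [sPW_add, sPW_eq, sPW_eq]
    have b1 := fun k (hk : k < 4) => Bv_sum H hG h hy hz hr hc hk
    have b2 := fun k (hk : k < 4) => Bv_sum H hG h hz hy hr hc hk
    rw [b1 0 (by norm_num), b1 1 (by norm_num), b1 2 (by norm_num), b1 3 (by norm_num),
      b2 0 (by norm_num), b2 1 (by norm_num), b2 2 (by norm_num), b2 3 (by norm_num)]
    unfold Bb pr
    ring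
  rw [e1, e2, e3, e5, sf_of H.V hr (H.S r hr) fy.lt fz.lt]
  linarith

theorem bi_lt (G : Cfg κ) (p : P4 κ) (y z : κ) : (G.bi p y z).a < 2 ∧ (G.bi p y z).b < 2 ∧
    (G.bi p y z).c < 2 ∧ (G.bi p y z).d < 2 := ⟨na_lt _, na_lt _, na_lt _, na_lt _⟩

/-- **the value over four points** -/
theorem SB_val (H : Hy C tab w) (hG : G.Ok tab) {p : P4 κ} (h : p.N) {y z : κ} (hy : p.F y)
    (hz : p.F z) (hyz : y ≠ z) :
    SB C w G p y z = ((lq (row C (wd C (G.co p)).r (ixc C (G.co p) (G.fl p y)))
      (ixc C (G.co p) (G.fl p z)) : ℤ) - C.oT) +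
      ((dl (dt C (G.co p)) (G.bi p y z) : ℤ) - 4 * C.od) := by
  obtain ⟨c1, c2, c3, c4⟩ := co_lt hG h
  have W := wf_of H.W c1 c2 c3 c4 (hG.tab p h)
  obtain ⟨n1, n2, n3, n4⟩ := bi_lt G p y z
  rw [W.d _ n1 n2 n3 n4]
  have hN := act_N h (wd C (G.co p)).w
  have hFy := act_F hy (wd C (G.co p)).w
  have hFz := act_F hz (wd C (G.co p)).w
  have ec := co_act hG h (wd C (G.co p)).w
  have efy := fl_act hG h hy (wd C (G.co p)).w
  have efz := fl_act hG h hz (wd C (G.co p)).w
  have eb := bi_act (G := G) p y z (wd C (G.co p)).w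
  have W2 := W.w
  unfold ixc cf
  rw [← SB_act p y z (wd C (G.co p)).w]
  rcases hm : (wd C (G.co p)).m with _ | m
  · rw [hm] at W2
    have hc : G.co (act gp (wd C (G.co p)).w p) = rep C (wd C (G.co p)).r := by
      rw [ec]
      exact W2
    have := SB_rep H hG hN hFy hFz hyz W.r hc (bi_lt G _ y z)
    rw [efy, efz, eb] at this
    exact this
  · rw [hm] at W2
    have hGm := mir_ok hG (mt_of H.W)
    have hc : G.mir.co (act gp (wd C (G.co p)).w p) = rep C (wd C (G.co p)).r := by
      rw [co_mir, ec]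
      exact W2
    have := SB_rep H hGm hN hFy hFz hyz W.r hc (bi_lt G.mir _ y z)
    have ebm : G.mir.bi (act gp (wd C (G.co p)).w p) y z =
        G.bi (act gp (wd C (G.co p)).w p) y z := by
      unfold Cfg.bi
      rw [S4.mk.injEq]
      exact ⟨na_mi (hG.lt _ _ _ hFy.1.symm hFz.1.symm hyz),
        na_mi (hG.lt _ _ _ hFy.2.1.symm hFz.2.1.symm hyz),
        na_mi (hG.lt _ _ _ hFy.2.2.1.symm hFz.2.2.1.symm hyz),
        na_mi (hG.lt _ _ _ hFy.2.2.2.symm hFz.2.2.2.symm hyz)⟩
    rw [ebm, fl_mir, fl_mir, efy, efz, eb, SB_mir H hG hN hFy hFz hyz] at this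
    exact this

end Pool.Agent.AKU6
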