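import Pool.Agent.AKU6.Kr

set_option autoImplicit false

/-!
# Six points: the loops of the check
-/

namespace Pool.Agent.AKU6

open Finset Pool.Agent.AKY Pool.Agent.AKU5

variable {C : Ce} {tab : ℕ}

theorem bit_iff (m k : ℕ) : Nat.beq (bit m k) 1 = true ↔ m.testBit k = true := by
  unfold bit
  have e : Nat.land 1 (Nat.shiftRight m k) = 1 &&& (m >>> k) := rfl
  rw [Nat.beq_eq, e, Nat.one_and_eq_mod_two, Nat.testBit_eq_decide_div_mod_eq,
    Nat.shiftRight_eq_div_pow, decide_eq_true_eq]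

theorem xor_bit (m k x : ℕ) (h : x ≠ k) :
    (Nat.xor m (Nat.shiftLeft 1 x)).testBit k = m.testBit k := by
  have e : Nat.xor m (Nat.shiftLeft 1 x) = m ^^^ (1 <<< x) := rfl
  rw [e, Nat.testBit_xor, Nat.testBit_shiftLeft]
  have : (decide (k ≥ x) && Nat.testBit 1 (k - x)) = false := by
    by_cases hk : x ≤ k
    · have h2 : k - x ≠ 0 := by omega
      rw [Bool.and_eq_false_iff]
      right
      cases hb : Nat.testBit 1 (k - x)
      · rfl
      · exact absurd (Nat.testBit_one_eq_true_iff_self_eq_zero.1 hb) h2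
    · rw [decide_eq_false (by omega)]
      rfl
  rw [this, Bool.xor_false]

theorem lp_spec {l : List E5} {K : E5 → Bool} {m : ℕ} (h : lp l K m = true) {k : ℕ}
    (hk : m.testBit k = true) : ∃ e ∈ l, e.x = k ∧ K e = true := by
  induction l generalizing m with
  | nil =>
    have h1 : Nat.beq m 0 = true := h
    rw [Nat.beq_eq] at h1
    rw [h1, Nat.zero_testBit] at hk
    exact absurd hk (by simp)
  | cons e l ih =>
    have h1 : Bool.rec (motive := fun _ => Bool) (lp l K m)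
      (Bool.rec (motive := fun _ => Bool) false (lp l K (Nat.xor m (Nat.shiftLeft 1 e.x))) (K e))
      (Nat.beq (bit m e.x) 1) = true := h
    cases hb : Nat.beq (bit m e.x) 1
    · rw [hb] at h1
      obtain ⟨e', h2, h3⟩ := ih h1 hk
      exact ⟨e', List.mem_cons_of_mem _ h2, h3⟩
    · rw [hb] at h1
      have h1 : Bool.rec (motive := fun _ => Bool) false
        (lp l K (Nat.xor m (Nat.shiftLeft 1 e.x))) (K e) = true := h1
      cases hK : K e
      · rw [hK] at h1
        exact absurd h1 (by simp)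
      · rw [hK] at h1
        by_cases hx : e.x = k
        · exact ⟨e, List.mem_cons_self, hx, hK⟩
        · obtain ⟨e', h2, h3⟩ := ih h1 (by rw [xor_bit _ _ _ hx]; exact hk)
          exact ⟨e', List.mem_cons_of_mem _ h2, h3⟩

theorem fr_spec {l : List E5} {x : ℕ} {K : E5 → Bool} (h : fr l x K = true) :
    ∃ e ∈ l, e.x = x ∧ K e = true := by
  induction l with
  | nil => exact absurd h (by simp [fr])
  | cons e l ih =>
    have h1 : Bool.rec (motive := fun _ => Bool) (fr l x K) (K e) (Nat.beq e.x x) = true := h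
    cases hb : Nat.beq e.x x
    · rw [hb] at h1
      obtain ⟨e', h2, h3⟩ := ih h1
      exact ⟨e', List.mem_cons_of_mem _ h2, h3⟩
    · rw [hb] at h1
      exact ⟨e, List.mem_cons_self, Nat.eq_of_beq_eq_true hb, h1⟩

theorem f0_mem {l : List N0} {x : ℕ} {m : N1} (h : m ∈ f0 l x) : ∃ n ∈ l, n.x = x ∧ m ∈ n.l := by
  induction l with
  | nil => exact absurd h (by simp [f0])
  | cons n l ih =>
    have h1 : m ∈ Bool.rec (motive := fun _ => List N1) (f0 l x) n.l (Nat.beq n.x x) := h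
    cases hb : Nat.beq n.x x
    · rw [hb] at h1
      obtain ⟨e', h2, h3⟩ := ih h1
      exact ⟨e', List.mem_cons_of_mem _ h2, h3⟩
    · rw [hb] at h1
      exact ⟨n, List.mem_cons_self, Nat.eq_of_beq_eq_true hb, h1⟩

theorem f1_mem {l : List N1} {x : ℕ} {m : E5} (h : m ∈ f1 l x) : ∃ n ∈ l, n.x = x ∧ m ∈ n.l := by
  induction l with
  | nil => exact absurd h (by simp [f1])
  | cons n l ih =>
    have h1 : m ∈ Bool.rec (motive := fun _ => List E5) (f1 l x) n.l (Nat.beq n.x x) := h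
    cases hb : Nat.beq n.x x
    · rw [hb] at h1
      obtain ⟨e', h2, h3⟩ := ih h1
      exact ⟨e', List.mem_cons_of_mem _ h2, h3⟩
    · rw [hb] at h1
      exact ⟨n, List.mem_cons_self, Nat.eq_of_beq_eq_true hb, h1⟩

theorem mem_L8 {x : ℕ} (h : x < 8) : x ∈ L8 := by
  unfold L8
  interval_cases x <;> simp

theorem ro8_bit (m x y : ℕ) : (ro8 m x).testBit y = m.testBit (ix8 x y) := by
  have e : ro8 m x = m >>> (8 * x) := rfl
  have e2 : ix8 x y = 8 * x + y := rfl
  rw [e, e2, Nat.testBit_shiftRight]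

theorem b255 {y : ℕ} (h : y < 8) : (255 : ℕ).testBit y = true := by interval_cases y <;> decide

theorem land_bit (a b k : ℕ) : (Nat.land a b).testBit k = (a.testBit k && b.testBit k) :=
  Nat.testBit_and a b k

/-- **the check of two points** -/
theorem chkP_spec {R : Rk} {X Y : X5} (h : chkP C R X Y = true) {x0 x1 x2 x3 : ℕ} (h0 : x0 < 8)
    (h1 : x1 < 8) (h2 : x2 < 8) (h3 : x3 < 8)
    (b01 : (m01 R X Y).testBit (ix8 x0 x1) = true) (b02 : (m02 R X Y).testBit (ix8 x0 x2) = true)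
    (b12 : (m12 R X Y).testBit (ix8 x1 x2) = true) (b03 : (m03 R X Y).testBit (ix8 x0 x3) = true)
    (b13 : (m13 R X Y).testBit (ix8 x1 x3) = true) (b23 : (m23 R X Y).testBit (ix8 x2 x3) = true) :
    ∃ Z ∈ f1 (f0 (gZ C R X Y) x0) x1, Z.x = x2 ∧ ∃ W ∈ f1 (f0 (gW C R X Y) x0) x1, W.x = x3 ∧
      ∃ V ∈ f1 (f0 (gV C R X Y) x0) x2, V.x = x3 ∧ ∃ U ∈ f1 (f0 (gU C R X Y) x1) x2, U.x = x3 ∧
        t4 C R X Y x0 x1 Z W V U ≤ C.cb := by
  have k0 := allF_iff.1 h x0 (mem_L8 h0)
  unfold lv0 at k0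
  have k1 : lv1 C R X Y x0 x1 = true := by
    cases hb : Nat.beq (Nat.land 255 (ro8 (m01 R X Y) x0)) 0
    · rw [hb] at k0
      exact allF_iff.1 k0 x1 (mem_L8 h1)
    · rw [Nat.beq_eq] at hb
      have : (Nat.land 255 (ro8 (m01 R X Y) x0)).testBit x1 = true := by
        rw [land_bit, ro8_bit, b01, b255 h1]
        rfl
      rw [hb, Nat.zero_testBit] at this
      exact absurd this (by simp)
  unfold lv1 at k1
  rw [(bit_iff _ _).2 b01] at k1
  obtain ⟨Z, hZ, eZ, k2⟩ := lp_spec (k := x2) k1 (by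
    unfold al2
    rw [land_bit, land_bit, ro8_bit, ro8_bit, b02, b12, b255 h2]
    rfl)
  unfold lv2 at k2
  obtain ⟨W, hW, eW, k3⟩ := lp_spec (k := x3) k2 (by
    unfold al3
    rw [land_bit, land_bit, land_bit, ro8_bit, ro8_bit, ro8_bit, b03, b13, eZ, b23, b255 h3]
    rfl)
  unfold lv3 at k3
  obtain ⟨V, hV, eV, k4⟩ := fr_spec k3
  obtain ⟨U, hU, eU, k5⟩ := fr_spec k4
  rw [Nat.ble_eq] at k5
  rw [eZ] at hV hU
  rw [eW] at eV eU
  exact ⟨Z, hZ, eZ, W, hW, eW, V, hV, eV, U, hU, eU, k5⟩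

/-! ### the lists of points -/

theorem dropN_eq {α : Type} (i : ℕ) (l : List α) : dropN i l = l.drop i := by
  induction i generalizing l with
  | zero => rfl
  | succ i ih =>
    cases l with
    | nil => rfl
    | cons x l => exact ih l

theorem chkI_spec {r i : ℕ} (h : chkI C r i = true) {X Y : X5} {j : ℕ}
    (hX : (rk C r).L[i]? = some X) (hY : (rk C r).L[j]? = some Y) (hij : i ≤ j) :
    chkP C (rk C r) X Y = true := by
  unfold chkI at h
  rw [dropN_eq] at h
  have h1 : (rk C r).L.drop i = X :: (rk C r).L.drop (i + 1) := by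
    rw [List.getElem?_eq_some_iff] at hX
    obtain ⟨hi, e⟩ := hX
    rw [List.drop_eq_getElem_cons hi, e]
  have h2 : Y ∈ (rk C r).L.drop i := by
    rw [List.mem_iff_getElem?]
    exact ⟨j - i, by rw [List.getElem?_drop, Nat.add_sub_cancel' hij]; exact hY⟩
  have h3 : List.rec (motive := fun _ => Bool) true
      (fun X l _ => allF (X :: l) fun Y => chkP C (rk C r) X Y) ((rk C r).L.drop i) = true := h
  rw [h1] at h3 h2
  exact allF_iff.1 h3 Y h2

theorem chk_or {r : ℕ} (h : ∀ i < (rk C r).L.length, chkI C r i = true) {X Y : X5}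
    (hX : X ∈ (rk C r).L) (hY : Y ∈ (rk C r).L) :
    chkP C (rk C r) X Y = true ∨ chkP C (rk C r) Y X = true := by
  rw [List.mem_iff_getElem?] at hX hY
  obtain ⟨i, hi⟩ := hX
  obtain ⟨j, hj⟩ := hY
  have li : i < (rk C r).L.length := (List.getElem?_eq_some_iff.1 hi).1
  have lj : j < (rk C r).L.length := (List.getElem?_eq_some_iff.1 hj).1
  rcases le_total i j with g | g
  · exact Or.inl (chkI_spec (h i li) hi hj g)
  · exact Or.inr (chkI_spec (h j lj) hj hi g)

/-! ### groups -/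

theorem gr_ok (h : ∀ a < 8, ∀ e < 8, okG C tab a e = true) {a e g hh e' g' h' : ℕ} (ha : a < 8)
    (he : e < 8) (hg : g < 8) (h8 : hh < 8) (he' : e' < 8) (hg' : g' < 8) (hh' : h' < 8)
    (t1 : tab.testBit (cd a e g hh) = true) (t2 : tab.testBit (cd a e' g' h') = true) {x y : ℕ}
    {E : E5} (hE : E ∈ f1 (f0 (gr C a e g hh e' g' h') x) y) :
    okE C a e g hh e' g' h' x y E = true := by
  have k1 := im_iff.1 (allN_iff.1 (allN_iff.1 (h a ha e he) g hg) hh h8) (by rw [bt_iff]; exact t1)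
  have k2 := im_iff.1 (allN_iff.1 (allN_iff.1 (allN_iff.1 k1 e' he') g' hg') h' hh')
    (by rw [bt_iff]; exact t2)
  obtain ⟨m, hm, e2, h2⟩ := f1_mem hE
  obtain ⟨n, hn, e1, h1⟩ := f0_mem hm
  have := allF_iff.1 (allF_iff.1 (allF_iff.1 k2 n hn) m h1) E h2
  rw [e1, e2] at this
  exact this

end Pool.Agent.AKU6
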