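import Pool.Agent.AKU6.Rc

set_option autoImplicit false

/-!
# Six points: the main inequality
-/

namespace Pool.Agent.AKU6

open Finset Pool.Agent.AKY Pool.Agent.AKU5 Pool.Agent.AKC.Pm6

variable {κ : Type} {C : Ce} {tab : ℕ} {w : ℕ → ℤ} {G : Cfg κ}

/-- six different points -/
structure N6 (a0 a1 a2 a3 a4 a5 : κ) : Prop where
  h01 : a0 ≠ a1
  h02 : a0 ≠ a2
  h03 : a0 ≠ a3
  h04 : a0 ≠ a4
  h05 : a0 ≠ a5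
  h12 : a1 ≠ a2
  h13 : a1 ≠ a3
  h14 : a1 ≠ a4
  h15 : a1 ≠ a5
  h23 : a2 ≠ a3
  h24 : a2 ≠ a4
  h25 : a2 ≠ a5
  h34 : a3 ≠ a4
  h35 : a3 ≠ a5
  h45 : a4 ≠ a5

/-- the sum over the 15 splittings -/
noncomputable def S15 (C : Ce) (w : ℕ → ℤ) (G : Cfg κ) (a0 a1 a2 a3 a4 a5 : κ) : ℤ :=
  SB C w G ⟨a0, a1, a2, a3⟩ a4 a5 + SB C w G ⟨a0, a1, a2, a4⟩ a3 a5 +
  SB C w G ⟨a0, a1, a2, a5⟩ a3 a4 + SB C w G ⟨a0, a1, a3, a4⟩ a2 a5 +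
  SB C w G ⟨a0, a1, a3, a5⟩ a2 a4 + SB C w G ⟨a0, a1, a4, a5⟩ a2 a3 +
  SB C w G ⟨a0, a2, a3, a4⟩ a1 a5 + SB C w G ⟨a0, a2, a3, a5⟩ a1 a4 +
  SB C w G ⟨a0, a2, a4, a5⟩ a1 a3 + SB C w G ⟨a0, a3, a4, a5⟩ a1 a2 +
  SB C w G ⟨a1, a2, a3, a4⟩ a0 a5 + SB C w G ⟨a1, a2, a3, a5⟩ a0 a4 +
  SB C w G ⟨a1, a2, a4, a5⟩ a0 a3 + SB C w G ⟨a1, a3, a4, a5⟩ a0 a2 +
  SB C w G ⟨a2, a3, a4, a5⟩ a0 a1

/-- value of a splitting -/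
noncomputable def vl (C : Ce) (G : Cfg κ) (p : P4 κ) (y z : κ) : ℕ :=
  lq (rs' C G p y) (ps' C G p z) + dl (dt C (G.co p)) (G.bi p y z)

theorem SB_vl (H : Hy C tab w) (hG : G.Ok tab) {p : P4 κ} (h : p.N) {y z : κ} (hy : p.F y)
    (hz : p.F z) (hyz : y ≠ z) :
    SB C w G p y z = (vl C G p y z : ℤ) - (C.oT + 4 * C.od) := by
  rw [SB_val H hG h hy hz hyz]
  unfold vl rs' ps'
  push_cast
  ring

theorem lz_eq (P i : ℕ) : lz P (48 * i) = lq P i := rfl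

/-! ### degrees -/

theorem dl_three {s : S4} {D P x : ℕ} {n : S4} (hD : FD C s D) (hP : FP C s 3 P) (h1 : n.a < 2)
    (h2 : n.b < 2) (h3 : n.c < 2) (hx : x < 8) (e : n.d = na x) :
    dl (dt C s) n = lq D (n3 n.a n.b n.c) + lq P x := by
  rw [hD _ h1 _ h2 _ h3, hP.2 x hx, ← e]
  have : dl (dt C s) n = (lq (dt C s) n.a + lq (dt C s) (2 + n.b)) +
    (lq (dt C s) (4 + n.c) + lq (dt C s) (6 + n.d)) := rfl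
  rw [this]
  ring

theorem dl_four {s : S4} {P0 P1 P2 P3 x0 x1 x2 x3 : ℕ} (h0 : FP C s 0 P0) (h1 : FP C s 1 P1)
    (h2 : FP C s 2 P2) (h3 : FP C s 3 P3) (l0 : x0 < 8) (l1 : x1 < 8) (l2 : x2 < 8)
    (l3 : x3 < 8) :
    dl (dt C s) ⟨na x0, na x1, na x2, na x3⟩ = lq P0 x0 + lq P1 x1 + lq P2 x2 + lq P3 x3 := by
  rw [h0.2 _ l0, h1.2 _ l1, h2.2 _ l2, h3.2 _ l3]
  have : dl (dt C s) ⟨na x0, na x1, na x2, na x3⟩ = (lq (dt C s) (na x0) +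
    lq (dt C s) (2 + na x1)) + (lq (dt C s) (4 + na x2) + lq (dt C s) (6 + na x3)) := rfl
  rw [this]
  simp only [mul_zero, zero_add, mul_one]
  norm_num
  ring

theorem dl_two (hT : okT C tab = true) {a b c d s t x y k : ℕ} (ha : a < 2) (hb : b < 2)
    (hc : c < 2) (hd : d < 2) (hs : s < 8) (ht : t < 8) (hx : x < 8) (hy : y < 8)
    (hb' : tab.testBit (cd s t x y) = true) (hk : k = a + 2 * b) :
    dl (dt C ⟨s, t, x, y⟩) ⟨a, b, c, d⟩ = lq (td C k c d s t) (ix8 x y) := by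
  have := im_iff.1 (allN_iff.1 (allN_iff.1 (allN_iff.1 (allN_iff.1 (allN_iff.1 (allN_iff.1
    (allN_iff.1 (allN_iff.1 hT a ha) b hb) c hc) d hd) s hs) t ht) x hx) y hy)
    (by rw [bt_iff]; exact hb')
  rw [Nat.beq_eq] at this
  rw [hk]
  exact this.symm

theorem na_ro {t : ℕ} (h : t < 8) : na (ro t) = na t := by interval_cases t <;> decide

theorem na_sx' (hG : G.Ok tab) {a b c : κ} (h1 : a ≠ b) (h2 : a ≠ c) (h3 : b ≠ c) :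
    na (G.st b a c) = na (G.st a b c) := by
  rw [hG.sx a b c h1 h2 h3, na_sx (hG.lt a b c h1 h2 h3)]

/-- the state with the last point first -/
theorem na_ro' (hG : G.Ok tab) {a b c : κ} (h1 : a ≠ b) (h2 : a ≠ c) (h3 : b ≠ c) :
    na (G.st c a b) = na (G.st a b c) := by
  rw [hG.sx a c b h2 h1 h3.symm, na_sx (hG.lt a c b h2 h1 h3.symm), hG.sw a b c h1 h2 h3,
    na_sw (hG.lt a b c h1 h2 h3)]

theorem sum3 {R X Y x : ℕ} (hR : Bd 70368744177663 R) (hX : Bd 70368744177663 X)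
    (hY : Bd 70368744177663 Y) : lq (Nat.add R (Nat.add X Y)) x = lq R x + (lq X x + lq Y x) := by
  obtain ⟨h1, h2⟩ := hX.add hY (by norm_num)
  obtain ⟨h3, h4⟩ := hR.add h1 (by norm_num)
  show lq (R + (X + Y)) x = _
  rw [h4, h2]

/-! ### the points over a representative -/

theorem getX {r : ℕ} (hR : FR C tab r) (hG : G.Ok tab)
    (hr : ∀ p : P4 κ, p.N → r ≤ (wd C (G.co p)).r) {q0 q1 q2 q3 y : κ}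
    (h : N5 q0 q1 q2 q3 y) (h0 : G.co ⟨q0, q1, q2, q3⟩ = rep C r) :
    ∃ X ∈ (rk C r).L, FX C G q0 q1 q2 q3 y X := by
  have hs := hR.s
  rw [← h0] at hs
  have hs' : S4.mk (G.st q0 q1 q2) (G.st q0 q1 q3) (G.st q0 q2 q3) (G.st q1 q2 q3) =
    S4.mk (rk C r).a (rk C r).b (rk C r).c (rk C r).d := hs
  rw [S4.mk.injEq] at hs'
  obtain ⟨ea, eb, ec, ed⟩ := hs'
  have hX := hR.X
  unfold okX at hX
  have l1 := hG.lt _ _ _ h.h01 h.h04 h.h14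
  have l2 := hG.lt _ _ _ h.h02 h.h04 h.h24
  have l3 := hG.lt _ _ _ h.h12 h.h14 h.h24
  have l4 := hG.lt _ _ _ h.h03 h.h04 h.h34
  have l5 := hG.lt _ _ _ h.h13 h.h14 h.h34
  have l6 := hG.lt _ _ _ h.h23 h.h24 h.h34
  have c1 : cr C tab r (rk C r).a (G.st q0 q1 y) (G.st q0 q2 y) (G.st q1 q2 y) = true := by
    unfold cr
    rw [an_iff, bt_iff, Nat.ble_eq, ← ea]
    have hN : P4.N (⟨q0, q1, q2, y⟩ : P4 κ) := ⟨h.h01, h.h02, h.h04, h.h12, h.h14, h.h24⟩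
    exact ⟨hG.tab _ hN, hr _ hN⟩
  have c2 : cr C tab r (rk C r).b (G.st q0 q1 y) (G.st q0 q3 y) (G.st q1 q3 y) = true := by
    unfold cr
    rw [an_iff, bt_iff, Nat.ble_eq, ← eb]
    have hN : P4.N (⟨q0, q1, q3, y⟩ : P4 κ) := ⟨h.h01, h.h03, h.h04, h.h13, h.h14, h.h34⟩
    exact ⟨hG.tab _ hN, hr _ hN⟩
  have c3 : cr C tab r (rk C r).c (G.st q0 q2 y) (G.st q0 q3 y) (G.st q2 q3 y) = true := by
    unfold cr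
    rw [an_iff, bt_iff, Nat.ble_eq, ← ec]
    have hN : P4.N (⟨q0, q2, q3, y⟩ : P4 κ) := ⟨h.h02, h.h03, h.h04, h.h23, h.h24, h.h34⟩
    exact ⟨hG.tab _ hN, hr _ hN⟩
  have c4 : cr C tab r (rk C r).d (G.st q1 q2 y) (G.st q1 q3 y) (G.st q2 q3 y) = true := by
    unfold cr
    rw [an_iff, bt_iff, Nat.ble_eq, ← ed]
    have hN : P4.N (⟨q1, q2, q3, y⟩ : P4 κ) := ⟨h.h12, h.h13, h.h14, h.h23, h.h24, h.h34⟩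
    exact ⟨hG.tab _ hN, hr _ hN⟩
  have k1 := im_iff.1 (allN_iff.1 (allN_iff.1 (allN_iff.1 hX _ l1) _ l2) _ l3) c1
  have k2 := im_iff.1 (allN_iff.1 (allN_iff.1 k1 _ l4) _ l5) c2
  have k3 := im_iff.1 (allN_iff.1 k2 _ l6) (by rw [an_iff]; exact ⟨c3, c4⟩)
  obtain ⟨X, hm, x1, x2, x3, x4, x5, x6, hx⟩ := fX_spec k3
  exact ⟨X, hm, fx_of hG h ea.symm eb.symm ec.symm ed.symm x1 x2 x3 x4 x5 x6 hx⟩

/-- **two points over a representative** -/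
theorem pair6 (H : Hy C tab w) (hT : okT C tab = true)
    (hGr : ∀ a < 8, ∀ e < 8, okG C tab a e = true) {r : ℕ} (hR : FR C tab r) (hG : G.Ok tab)
    (hr : ∀ p : P4 κ, p.N → r ≤ (wd C (G.co p)).r) {a0 a1 a2 a3 a4 a5 : κ}
    (n : N6 a0 a1 a2 a3 a4 a5) (h0 : G.co ⟨a0, a1, a2, a3⟩ = rep C r) {X Y : X5}
    (hX : FX C G a0 a1 a2 a3 a4 X) (hY : FX C G a0 a1 a2 a3 a5 Y)
    (hc : chkP C (rk C r) X Y = true) : S15 C w G a0 a1 a2 a3 a4 a5 ≤ -C.og := by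
  have hs := hR.s
  rw [← h0] at hs
  have hs' : S4.mk (G.st a0 a1 a2) (G.st a0 a1 a3) (G.st a0 a2 a3) (G.st a1 a2 a3) =
    S4.mk (rk C r).a (rk C r).b (rk C r).c (rk C r).d := hs
  rw [S4.mk.injEq] at hs'
  obtain ⟨ea, eb, ec, ed⟩ := hs'
  have l0 := hG.lt _ _ _ n.h04 n.h05 n.h45
  have l1 := hG.lt _ _ _ n.h14 n.h15 n.h45
  have l2 := hG.lt _ _ _ n.h24 n.h25 n.h45
  have l3 := hG.lt _ _ _ n.h34 n.h35 n.h45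
  -- the 15 splittings
  have N0123 : P4.N (⟨a0, a1, a2, a3⟩ : P4 κ) := ⟨n.h01, n.h02, n.h03, n.h12, n.h13, n.h23⟩
  have N0124 : P4.N (⟨a0, a1, a2, a4⟩ : P4 κ) := ⟨n.h01, n.h02, n.h04, n.h12, n.h14, n.h24⟩
  have N0125 : P4.N (⟨a0, a1, a2, a5⟩ : P4 κ) := ⟨n.h01, n.h02, n.h05, n.h12, n.h15, n.h25⟩
  have N0134 : P4.N (⟨a0, a1, a3, a4⟩ : P4 κ) := ⟨n.h01, n.h03, n.h04, n.h13, n.h14, n.h34⟩
  have N0135 : P4.N (⟨a0, a1, a3, a5⟩ : P4 κ) := ⟨n.h01, n.h03, n.h05, n.h13, n.h15, n.h35⟩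
  have N0145 : P4.N (⟨a0, a1, a4, a5⟩ : P4 κ) := ⟨n.h01, n.h04, n.h05, n.h14, n.h15, n.h45⟩
  have N0234 : P4.N (⟨a0, a2, a3, a4⟩ : P4 κ) := ⟨n.h02, n.h03, n.h04, n.h23, n.h24, n.h34⟩
  have N0235 : P4.N (⟨a0, a2, a3, a5⟩ : P4 κ) := ⟨n.h02, n.h03, n.h05, n.h23, n.h25, n.h35⟩
  have N0245 : P4.N (⟨a0, a2, a4, a5⟩ : P4 κ) := ⟨n.h02, n.h04, n.h05, n.h24, n.h25, n.h45⟩
  have N0345 : P4.N (⟨a0, a3, a4, a5⟩ : P4 κ) := ⟨n.h03, n.h04, n.h05, n.h34, n.h35, n.h45⟩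
  have N1234 : P4.N (⟨a1, a2, a3, a4⟩ : P4 κ) := ⟨n.h12, n.h13, n.h14, n.h23, n.h24, n.h34⟩
  have N1235 : P4.N (⟨a1, a2, a3, a5⟩ : P4 κ) := ⟨n.h12, n.h13, n.h15, n.h23, n.h25, n.h35⟩
  have N1245 : P4.N (⟨a1, a2, a4, a5⟩ : P4 κ) := ⟨n.h12, n.h14, n.h15, n.h24, n.h25, n.h45⟩
  have N1345 : P4.N (⟨a1, a3, a4, a5⟩ : P4 κ) := ⟨n.h13, n.h14, n.h15, n.h34, n.h35, n.h45⟩
  have N2345 : P4.N (⟨a2, a3, a4, a5⟩ : P4 κ) := ⟨n.h23, n.h24, n.h25, n.h34, n.h35, n.h45⟩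
  have s1 := SB_vl H hG N0123 (y := a4) (z := a5) ⟨n.h04.symm, n.h14.symm, n.h24.symm, n.h34.symm⟩
    ⟨n.h05.symm, n.h15.symm, n.h25.symm, n.h35.symm⟩ n.h45
  have s2 := SB_vl H hG N0124 (y := a3) (z := a5) ⟨n.h03.symm, n.h13.symm, n.h23.symm, n.h34⟩
    ⟨n.h05.symm, n.h15.symm, n.h25.symm, n.h45.symm⟩ n.h35
  have s3 := SB_vl H hG N0125 (y := a3) (z := a4) ⟨n.h03.symm, n.h13.symm, n.h23.symm, n.h35⟩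
    ⟨n.h04.symm, n.h14.symm, n.h24.symm, n.h45⟩ n.h34
  have s4 := SB_vl H hG N0134 (y := a2) (z := a5) ⟨n.h02.symm, n.h12.symm, n.h23, n.h24⟩
    ⟨n.h05.symm, n.h15.symm, n.h35.symm, n.h45.symm⟩ n.h25
  have s5 := SB_vl H hG N0135 (y := a2) (z := a4) ⟨n.h02.symm, n.h12.symm, n.h23, n.h25⟩
    ⟨n.h04.symm, n.h14.symm, n.h34.symm, n.h45⟩ n.h24
  have s6 := SB_vl H hG N0145 (y := a2) (z := a3) ⟨n.h02.symm, n.h12.symm, n.h24, n.h25⟩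
    ⟨n.h03.symm, n.h13.symm, n.h34, n.h35⟩ n.h23
  have s7 := SB_vl H hG N0234 (y := a1) (z := a5) ⟨n.h01.symm, n.h12, n.h13, n.h14⟩
    ⟨n.h05.symm, n.h25.symm, n.h35.symm, n.h45.symm⟩ n.h15
  have s8 := SB_vl H hG N0235 (y := a1) (z := a4) ⟨n.h01.symm, n.h12, n.h13, n.h15⟩
    ⟨n.h04.symm, n.h24.symm, n.h34.symm, n.h45⟩ n.h14
  have s9 := SB_vl H hG N0245 (y := a1) (z := a3) ⟨n.h01.symm, n.h12, n.h14, n.h15⟩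
    ⟨n.h03.symm, n.h23.symm, n.h34, n.h35⟩ n.h13
  have s10 := SB_vl H hG N0345 (y := a1) (z := a2) ⟨n.h01.symm, n.h13, n.h14, n.h15⟩
    ⟨n.h02.symm, n.h23, n.h24, n.h25⟩ n.h12
  have s11 := SB_vl H hG N1234 (y := a0) (z := a5) ⟨n.h01, n.h02, n.h03, n.h04⟩
    ⟨n.h15.symm, n.h25.symm, n.h35.symm, n.h45.symm⟩ n.h05
  have s12 := SB_vl H hG N1235 (y := a0) (z := a4) ⟨n.h01, n.h02, n.h03, n.h05⟩
    ⟨n.h14.symm, n.h24.symm, n.h34.symm, n.h45⟩ n.h04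
  have s13 := SB_vl H hG N1245 (y := a0) (z := a3) ⟨n.h01, n.h02, n.h04, n.h05⟩
    ⟨n.h13.symm, n.h23.symm, n.h34, n.h35⟩ n.h03
  have s14 := SB_vl H hG N1345 (y := a0) (z := a2) ⟨n.h01, n.h03, n.h04, n.h05⟩
    ⟨n.h12.symm, n.h23, n.h24, n.h25⟩ n.h02
  have s15 := SB_vl H hG N2345 (y := a0) (z := a1) ⟨n.h02, n.h03, n.h04, n.h05⟩
    ⟨n.h12, n.h13, n.h14, n.h15⟩ n.h01
  -- the check
  have b01 : (m01 (rk C r) X Y).testBit (ix8 (G.st a0 a4 a5) (G.st a1 a4 a5)) = true := by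
    unfold m01
    rw [hX.e, hY.e]
    exact hR.m _ (hG.lt _ _ _ n.h01 n.h04 n.h14) _ (hG.lt _ _ _ n.h01 n.h05 n.h15) _ l0 _ l1
      (hG.tab _ N0145) (hr _ N0145)
  have b02 : (m02 (rk C r) X Y).testBit (ix8 (G.st a0 a4 a5) (G.st a2 a4 a5)) = true := by
    unfold m02
    rw [hX.g, hY.g]
    exact hR.m _ (hG.lt _ _ _ n.h02 n.h04 n.h24) _ (hG.lt _ _ _ n.h02 n.h05 n.h25) _ l0 _ l2
      (hG.tab _ N0245) (hr _ N0245)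
  have b12 : (m12 (rk C r) X Y).testBit (ix8 (G.st a1 a4 a5) (G.st a2 a4 a5)) = true := by
    unfold m12
    rw [hX.h, hY.h]
    exact hR.m _ (hG.lt _ _ _ n.h12 n.h14 n.h24) _ (hG.lt _ _ _ n.h12 n.h15 n.h25) _ l1 _ l2
      (hG.tab _ N1245) (hr _ N1245)
  have b03 : (m03 (rk C r) X Y).testBit (ix8 (G.st a0 a4 a5) (G.st a3 a4 a5)) = true := by
    unfold m03
    rw [hX.u, hY.u]
    exact hR.m _ (hG.lt _ _ _ n.h03 n.h04 n.h34) _ (hG.lt _ _ _ n.h03 n.h05 n.h35) _ l0 _ l3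
      (hG.tab _ N0345) (hr _ N0345)
  have b13 : (m13 (rk C r) X Y).testBit (ix8 (G.st a1 a4 a5) (G.st a3 a4 a5)) = true := by
    unfold m13
    rw [hX.v, hY.v]
    exact hR.m _ (hG.lt _ _ _ n.h13 n.h14 n.h34) _ (hG.lt _ _ _ n.h13 n.h15 n.h35) _ l1 _ l3
      (hG.tab _ N1345) (hr _ N1345)
  have b23 : (m23 (rk C r) X Y).testBit (ix8 (G.st a2 a4 a5) (G.st a3 a4 a5)) = true := by
    unfold m23
    rw [hX.w, hY.w]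
    exact hR.m _ (hG.lt _ _ _ n.h23 n.h24 n.h34) _ (hG.lt _ _ _ n.h23 n.h25 n.h35) _ l2 _ l3
      (hG.tab _ N2345) (hr _ N2345)
  obtain ⟨Z, hZ, eZ, W, hW, eW, V, hV, eV, U, hU, eU, hle⟩ :=
    chkP_spec hc l0 l1 l2 l3 b01 b02 b12 b03 b13 b23
  have fZ : F5 C G a0 a1 a2 a4 a5 Z := by
    refine f5_of hG ⟨n.h01, n.h02, n.h04, n.h05, n.h12, n.h14, n.h15, n.h24, n.h25, n.h45⟩ ?_ eZ
    unfold gZ at hZ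
    rw [← ea, hX.e, hX.g, hX.h, hY.e, hY.g, hY.h] at hZ
    exact gr_ok hGr (hG.lt _ _ _ n.h01 n.h02 n.h12) (hG.lt _ _ _ n.h01 n.h04 n.h14)
      (hG.lt _ _ _ n.h02 n.h04 n.h24) (hG.lt _ _ _ n.h12 n.h14 n.h24)
      (hG.lt _ _ _ n.h01 n.h05 n.h15) (hG.lt _ _ _ n.h02 n.h05 n.h25)
      (hG.lt _ _ _ n.h12 n.h15 n.h25) (hG.tab _ N0124) (hG.tab _ N0125) hZ
  have fW : F5 C G a0 a1 a3 a4 a5 W := by
    refine f5_of hG ⟨n.h01, n.h03, n.h04, n.h05, n.h13, n.h14, n.h15, n.h34, n.h35, n.h45⟩ ?_ eW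
    unfold gW at hW
    rw [← eb, hX.e, hX.u, hX.v, hY.e, hY.u, hY.v] at hW
    exact gr_ok hGr (hG.lt _ _ _ n.h01 n.h03 n.h13) (hG.lt _ _ _ n.h01 n.h04 n.h14)
      (hG.lt _ _ _ n.h03 n.h04 n.h34) (hG.lt _ _ _ n.h13 n.h14 n.h34)
      (hG.lt _ _ _ n.h01 n.h05 n.h15) (hG.lt _ _ _ n.h03 n.h05 n.h35)
      (hG.lt _ _ _ n.h13 n.h15 n.h35) (hG.tab _ N0134) (hG.tab _ N0135) hW
  have fV : F5 C G a0 a2 a3 a4 a5 V := by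
    refine f5_of hG ⟨n.h02, n.h03, n.h04, n.h05, n.h23, n.h24, n.h25, n.h34, n.h35, n.h45⟩ ?_ eV
    unfold gV at hV
    rw [← ec, hX.g, hX.u, hX.w, hY.g, hY.u, hY.w] at hV
    exact gr_ok hGr (hG.lt _ _ _ n.h02 n.h03 n.h23) (hG.lt _ _ _ n.h02 n.h04 n.h24)
      (hG.lt _ _ _ n.h03 n.h04 n.h34) (hG.lt _ _ _ n.h23 n.h24 n.h34)
      (hG.lt _ _ _ n.h02 n.h05 n.h25) (hG.lt _ _ _ n.h03 n.h05 n.h35)
      (hG.lt _ _ _ n.h23 n.h25 n.h35) (hG.tab _ N0234) (hG.tab _ N0235) hV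
  have fU : F5 C G a1 a2 a3 a4 a5 U := by
    refine f5_of hG ⟨n.h12, n.h13, n.h14, n.h15, n.h23, n.h24, n.h25, n.h34, n.h35, n.h45⟩ ?_ eU
    unfold gU at hU
    rw [← ed, hX.h, hX.v, hX.w, hY.h, hY.v, hY.w] at hU
    exact gr_ok hGr (hG.lt _ _ _ n.h12 n.h13 n.h23) (hG.lt _ _ _ n.h12 n.h14 n.h24)
      (hG.lt _ _ _ n.h13 n.h14 n.h34) (hG.lt _ _ _ n.h23 n.h24 n.h34)
      (hG.lt _ _ _ n.h12 n.h15 n.h25) (hG.lt _ _ _ n.h13 n.h15 n.h35)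
      (hG.lt _ _ _ n.h23 n.h25 n.h35) (hG.tab _ N1234) (hG.tab _ N1235) hU
  -- degrees
  have rot4 := fun {a b : κ} (h1 : a ≠ b) (h2 : a ≠ a4) (h3 : b ≠ a4) => na_ro' hG h1 h2 h3
  have d1 : dl (dt C (G.co ⟨a0, a1, a2, a3⟩)) (G.bi ⟨a0, a1, a2, a3⟩ a4 a5) =
      lq (rk C r).p0 (G.st a0 a4 a5) + lq (rk C r).p1 (G.st a1 a4 a5) +
      lq (rk C r).p2 (G.st a2 a4 a5) + lq (rk C r).p3 (G.st a3 a4 a5) := by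
    rw [h0]
    exact dl_four hR.p0 hR.p1 hR.p2 hR.p3 l0 l1 l2 l3
  have d2 : dl (dt C (G.co ⟨a0, a1, a2, a4⟩)) (G.bi ⟨a0, a1, a2, a4⟩ a3 a5) =
      lq X.d3 Y.q3 + lq X.p3 (G.st a3 a4 a5) := by
    rw [hY.n3]
    exact dl_three hX.d3 hX.p3 (na_lt _) (na_lt _) (na_lt _) l3 (na_sx' hG n.h34 n.h35 n.h45)
  have d3 : dl (dt C (G.co ⟨a0, a1, a2, a5⟩)) (G.bi ⟨a0, a1, a2, a5⟩ a3 a4) =
      lq Y.d3 X.q3 + lq Y.p3 (G.st a3 a4 a5) := by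
    rw [hX.n3]
    exact dl_three hY.d3 hY.p3 (na_lt _) (na_lt _) (na_lt _) l3 (na_ro' hG n.h34 n.h35 n.h45)
  have d4 : dl (dt C (G.co ⟨a0, a1, a3, a4⟩)) (G.bi ⟨a0, a1, a3, a4⟩ a2 a5) =
      lq X.d2 Y.q2 + lq X.p2 (G.st a2 a4 a5) := by
    rw [hY.n2, ← na_sx' hG n.h23 n.h25 n.h35]
    exact dl_three hX.d2 hX.p2 (na_lt _) (na_lt _) (na_lt _) l2 (na_sx' hG n.h24 n.h25 n.h45)
  have d5 : dl (dt C (G.co ⟨a0, a1, a3, a5⟩)) (G.bi ⟨a0, a1, a3, a5⟩ a2 a4) =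
      lq Y.d2 X.q2 + lq Y.p2 (G.st a2 a4 a5) := by
    rw [hX.n2, ← na_sx' hG n.h23 n.h24 n.h34]
    exact dl_three hY.d2 hY.p2 (na_lt _) (na_lt _) (na_lt _) l2 (na_ro' hG n.h24 n.h25 n.h45)
  have d7 : dl (dt C (G.co ⟨a0, a2, a3, a4⟩)) (G.bi ⟨a0, a2, a3, a4⟩ a1 a5) =
      lq X.d1 Y.q1 + lq X.p1 (G.st a1 a4 a5) := by
    rw [hY.n1, ← na_sx' hG n.h12 n.h15 n.h25, ← na_sx' hG n.h13 n.h15 n.h35]
    exact dl_three hX.d1 hX.p1 (na_lt _) (na_lt _) (na_lt _) l1 (na_sx' hG n.h14 n.h15 n.h45)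
  have d8 : dl (dt C (G.co ⟨a0, a2, a3, a5⟩)) (G.bi ⟨a0, a2, a3, a5⟩ a1 a4) =
      lq Y.d1 X.q1 + lq Y.p1 (G.st a1 a4 a5) := by
    rw [hX.n1, ← na_sx' hG n.h12 n.h14 n.h24, ← na_sx' hG n.h13 n.h14 n.h34]
    exact dl_three hY.d1 hY.p1 (na_lt _) (na_lt _) (na_lt _) l1 (na_ro' hG n.h14 n.h15 n.h45)
  have d11 : dl (dt C (G.co ⟨a1, a2, a3, a4⟩)) (G.bi ⟨a1, a2, a3, a4⟩ a0 a5) =
      lq X.d0 Y.q0 + lq X.p0 (G.st a0 a4 a5) := by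
    rw [hY.n0, ← na_sx' hG n.h01 n.h05 n.h15, ← na_sx' hG n.h02 n.h05 n.h25,
      ← na_sx' hG n.h03 n.h05 n.h35]
    exact dl_three hX.d0 hX.p0 (na_lt _) (na_lt _) (na_lt _) l0 (na_sx' hG n.h04 n.h05 n.h45)
  have d12 : dl (dt C (G.co ⟨a1, a2, a3, a5⟩)) (G.bi ⟨a1, a2, a3, a5⟩ a0 a4) =
      lq Y.d0 X.q0 + lq Y.p0 (G.st a0 a4 a5) := by
    rw [hX.n0, ← na_sx' hG n.h01 n.h04 n.h14, ← na_sx' hG n.h02 n.h04 n.h24,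
      ← na_sx' hG n.h03 n.h04 n.h34]
    exact dl_three hY.d0 hY.p0 (na_lt _) (na_lt _) (na_lt _) l0 (na_ro' hG n.h04 n.h05 n.h45)
  have d6 : dl (dt C (G.co ⟨a0, a1, a4, a5⟩)) (G.bi ⟨a0, a1, a4, a5⟩ a2 a3) =
      lq (d01 C (rk C r) X Y) (ix8 (G.st a0 a4 a5) (G.st a1 a4 a5)) := by
    unfold d01
    rw [hX.bw, hY.bw, hX.e, hY.e, ← na_ro' hG n.h23 n.h24 n.h34, ← na_ro' hG n.h23 n.h25 n.h35]
    refine dl_two hT (na_lt _) (na_lt _) (na_lt _) (na_lt _) (hG.lt _ _ _ n.h01 n.h04 n.h14)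
      (hG.lt _ _ _ n.h01 n.h05 n.h15) l0 l1 (hG.tab _ N0145) ?_
    rw [hR.k01, ← ec, ← ed, nb_iff' _ (hG.lt _ _ _ n.h02 n.h03 n.h23),
      nb_iff' _ (hG.lt _ _ _ n.h12 n.h13 n.h23)]
  have d9 : dl (dt C (G.co ⟨a0, a2, a4, a5⟩)) (G.bi ⟨a0, a2, a4, a5⟩ a1 a3) =
      lq (d02 C (rk C r) X Y) (ix8 (G.st a0 a4 a5) (G.st a2 a4 a5)) := by
    unfold d02
    rw [hX.bv, hY.bv, hX.g, hY.g, ← na_ro' hG n.h13 n.h14 n.h34, ← na_ro' hG n.h13 n.h15 n.h35]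
    refine dl_two hT (na_lt _) (na_lt _) (na_lt _) (na_lt _) (hG.lt _ _ _ n.h02 n.h04 n.h24)
      (hG.lt _ _ _ n.h02 n.h05 n.h25) l0 l2 (hG.tab _ N0245) ?_
    rw [hR.k02, ← eb, ← ed, nb_iff' _ (hG.lt _ _ _ n.h01 n.h03 n.h13),
      nb_iff' _ (hG.lt _ _ _ n.h12 n.h13 n.h23), ← na_sx' hG n.h12 n.h13 n.h23]
  have d13 : dl (dt C (G.co ⟨a1, a2, a4, a5⟩)) (G.bi ⟨a1, a2, a4, a5⟩ a0 a3) =
      lq (AKU6.d12 C (rk C r) X Y) (ix8 (G.st a1 a4 a5) (G.st a2 a4 a5)) := by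
    unfold AKU6.d12
    rw [hX.bu, hY.bu, hX.h, hY.h, ← na_ro' hG n.h03 n.h04 n.h34, ← na_ro' hG n.h03 n.h05 n.h35]
    refine dl_two hT (na_lt _) (na_lt _) (na_lt _) (na_lt _) (hG.lt _ _ _ n.h12 n.h14 n.h24)
      (hG.lt _ _ _ n.h12 n.h15 n.h25) l1 l2 (hG.tab _ N1245) ?_
    rw [hR.k12, ← eb, ← ec, nb_iff' _ (hG.lt _ _ _ n.h01 n.h03 n.h13),
      nb_iff' _ (hG.lt _ _ _ n.h02 n.h03 n.h23), ← na_sx' hG n.h01 n.h03 n.h13,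
      ← na_sx' hG n.h02 n.h03 n.h23]
  have d10 : dl (dt C (G.co ⟨a0, a3, a4, a5⟩)) (G.bi ⟨a0, a3, a4, a5⟩ a1 a2) =
      lq (d03 C (rk C r) X Y) (ix8 (G.st a0 a4 a5) (G.st a3 a4 a5)) := by
    unfold d03
    rw [hX.bh, hY.bh, hX.u, hY.u, ← na_ro' hG n.h12 n.h14 n.h24, ← na_ro' hG n.h12 n.h15 n.h25]
    refine dl_two hT (na_lt _) (na_lt _) (na_lt _) (na_lt _) (hG.lt _ _ _ n.h03 n.h04 n.h34)
      (hG.lt _ _ _ n.h03 n.h05 n.h35) l0 l3 (hG.tab _ N0345) ?_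
    rw [hR.k03, ← ea, ← ed, nb_iff' _ (hG.lt _ _ _ n.h01 n.h02 n.h12),
      nb_iff' _ (hG.lt _ _ _ n.h12 n.h13 n.h23), ← na_ro' hG n.h12 n.h13 n.h23]
  have d14 : dl (dt C (G.co ⟨a1, a3, a4, a5⟩)) (G.bi ⟨a1, a3, a4, a5⟩ a0 a2) =
      lq (AKU6.d13 C (rk C r) X Y) (ix8 (G.st a1 a4 a5) (G.st a3 a4 a5)) := by
    unfold AKU6.d13
    rw [hX.bg, hY.bg, hX.v, hY.v, ← na_ro' hG n.h02 n.h04 n.h24, ← na_ro' hG n.h02 n.h05 n.h25]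
    refine dl_two hT (na_lt _) (na_lt _) (na_lt _) (na_lt _) (hG.lt _ _ _ n.h13 n.h14 n.h34)
      (hG.lt _ _ _ n.h13 n.h15 n.h35) l1 l3 (hG.tab _ N1345) ?_
    rw [hR.k13, ← ea, ← ec, nb_iff' _ (hG.lt _ _ _ n.h01 n.h02 n.h12),
      nb_iff' _ (hG.lt _ _ _ n.h02 n.h03 n.h23), ← na_sx' hG n.h01 n.h02 n.h12,
      ← na_ro' hG n.h02 n.h03 n.h23]
  have d15 : dl (dt C (G.co ⟨a2, a3, a4, a5⟩)) (G.bi ⟨a2, a3, a4, a5⟩ a0 a1) =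
      lq (d23 C (rk C r) X Y) (ix8 (G.st a2 a4 a5) (G.st a3 a4 a5)) := by
    unfold d23
    rw [hX.be, hY.be, hX.w, hY.w, ← na_ro' hG n.h01 n.h04 n.h14, ← na_ro' hG n.h01 n.h05 n.h15]
    refine dl_two hT (na_lt _) (na_lt _) (na_lt _) (na_lt _) (hG.lt _ _ _ n.h23 n.h24 n.h34)
      (hG.lt _ _ _ n.h23 n.h25 n.h35) l2 l3 (hG.tab _ N2345) ?_
    rw [hR.k23, ← ea, ← eb, nb_iff' _ (hG.lt _ _ _ n.h01 n.h02 n.h12),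
      nb_iff' _ (hG.lt _ _ _ n.h01 n.h03 n.h13), ← na_ro' hG n.h01 n.h02 n.h12,
      ← na_ro' hG n.h01 n.h03 n.h13]
  -- the value
  have p0 : lq (P0 (rk C r) X Y) (G.st a0 a4 a5) = lq (rk C r).p0 (G.st a0 a4 a5) +
      (lq X.p0 (G.st a0 a4 a5) + lq Y.p0 (G.st a0 a4 a5)) := sum3 hR.p0.1 hX.p0.1 hY.p0.1
  have p1 : lq (P1 (rk C r) X Y) (G.st a1 a4 a5) = lq (rk C r).p1 (G.st a1 a4 a5) +
      (lq X.p1 (G.st a1 a4 a5) + lq Y.p1 (G.st a1 a4 a5)) := sum3 hR.p1.1 hX.p1.1 hY.p1.1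
  have p2 : lq (P2 (rk C r) X Y) (G.st a2 a4 a5) = lq (rk C r).p2 (G.st a2 a4 a5) +
      (lq X.p2 (G.st a2 a4 a5) + lq Y.p2 (G.st a2 a4 a5)) := sum3 hR.p2.1 hX.p2.1 hY.p2.1
  have p3 : lq (P3 (rk C r) X Y) (G.st a3 a4 a5) = lq (rk C r).p3 (G.st a3 a4 a5) +
      (lq X.p3 (G.st a3 a4 a5) + lq Y.p3 (G.st a3 a4 a5)) := sum3 hR.p3.1 hX.p3.1 hY.p3.1
  have key : t4 C (rk C r) X Y (G.st a0 a4 a5) (G.st a1 a4 a5) Z W V U =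
      vl C G ⟨a0, a1, a2, a3⟩ a4 a5 + vl C G ⟨a0, a1, a2, a4⟩ a3 a5 +
      vl C G ⟨a0, a1, a2, a5⟩ a3 a4 + vl C G ⟨a0, a1, a3, a4⟩ a2 a5 +
      vl C G ⟨a0, a1, a3, a5⟩ a2 a4 + vl C G ⟨a0, a1, a4, a5⟩ a2 a3 +
      vl C G ⟨a0, a2, a3, a4⟩ a1 a5 + vl C G ⟨a0, a2, a3, a5⟩ a1 a4 +
      vl C G ⟨a0, a2, a4, a5⟩ a1 a3 + vl C G ⟨a0, a3, a4, a5⟩ a1 a2 +
      vl C G ⟨a1, a2, a3, a4⟩ a0 a5 + vl C G ⟨a1, a2, a3, a5⟩ a0 a4 +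
      vl C G ⟨a1, a2, a4, a5⟩ a0 a3 + vl C G ⟨a1, a3, a4, a5⟩ a0 a2 +
      vl C G ⟨a2, a3, a4, a5⟩ a0 a1 := by
    unfold vl
    rw [d1, d2, d3, d4, d5, d6, d7, d8, d9, d10, d11, d12, d13, d14, d15]
    unfold t4 t3 t2 t1 t0
    rw [eZ, eW, p0, p1, p2, p3, hY.i4, fZ.i4, fZ.i3, fW.i4, fW.i3, fW.i2, fV.i4, fV.i3, fV.i2,
      fV.i1, fU.i4, fU.i3, fU.i2, fU.i1, fU.i0, hX.r4, hX.r3, hX.r2, hX.r1, hX.r0, hY.r3, hY.r2,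
      hY.r1, hY.r0, fZ.r2, fZ.r1, fZ.r0, fW.r1, fW.r0, fV.r0]
    simp only [lz_eq, Nat.add_eq]
    ring
  rw [key] at hle
  unfold S15
  rw [s1, s2, s3, s4, s5, s6, s7, s8, s9, s10, s11, s12, s13, s14, s15]
  have hcb := H.V.cb
  zify at hle hcb
  linarith

end Pool.Agent.AKU6
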