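import Pool.Agent.AKU6.Lp

set_option autoImplicit false

/-!
# Six points: the records
-/

namespace Pool.Agent.AKU6

open Finset Pool.Agent.AKY Pool.Agent.AKU5

variable {κ : Type} {C : Ce} {tab : ℕ} {G : Cfg κ}

theorem st_ro (hG : G.Ok tab) {a b c : κ} (h1 : a ≠ b) (h2 : a ≠ c) (h3 : b ≠ c) :
    G.st b c a = ro (G.st a b c) := by
  rw [ro_eq (hG.lt a b c h1 h2 h3), ← hG.sx a b c h1 h2 h3, ← hG.sw b a c h1.symm h3 h2]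

/-- five different points -/
structure N5 (q0 q1 q2 q3 q4 : κ) : Prop where
  h01 : q0 ≠ q1
  h02 : q0 ≠ q2
  h03 : q0 ≠ q3
  h04 : q0 ≠ q4
  h12 : q1 ≠ q2
  h13 : q1 ≠ q3
  h14 : q1 ≠ q4
  h23 : q2 ≠ q3
  h24 : q2 ≠ q4
  h34 : q3 ≠ q4

/-- position of a flag -/
noncomputable def ps' (C : Ce) (G : Cfg κ) (p : P4 κ) (y : κ) : ℕ := ixc C (G.co p) (G.fl p y)

/-- row of a flag -/
noncomputable def rs' (C : Ce) (G : Cfg κ) (p : P4 κ) (y : κ) : ℕ :=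
  row C (wd C (G.co p)).r (ps' C G p y)

theorem fl3 (hG : G.Ok tab) {q0 q1 q2 q3 q4 : κ} (h : N5 q0 q1 q2 q3 q4) :
    h3 (G.st q0 q1 q2) (G.st q0 q1 q3) (G.st q0 q2 q3) (G.st q1 q2 q3) (G.st q0 q1 q4)
      (G.st q0 q2 q4) (G.st q1 q2 q4) (G.st q0 q3 q4) (G.st q1 q3 q4) (G.st q2 q3 q4) =
    G.fl ⟨q0, q1, q2, q4⟩ q3 := by
  show S6.mk _ _ _ _ _ _ = S6.mk _ _ _ _ _ _
  rw [S6.mk.injEq]
  exact ⟨rfl, rfl, rfl, (hG.sw _ _ _ h.h03 h.h04 h.h34).symm, (hG.sw _ _ _ h.h13 h.h14 h.h34).symm,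
    (hG.sw _ _ _ h.h23 h.h24 h.h34).symm⟩

theorem fl2 (hG : G.Ok tab) {q0 q1 q2 q3 q4 : κ} (h : N5 q0 q1 q2 q3 q4) :
    h2 (G.st q0 q1 q2) (G.st q0 q1 q3) (G.st q0 q2 q3) (G.st q1 q2 q3) (G.st q0 q1 q4)
      (G.st q0 q2 q4) (G.st q1 q2 q4) (G.st q0 q3 q4) (G.st q1 q3 q4) (G.st q2 q3 q4) =
    G.fl ⟨q0, q1, q3, q4⟩ q2 := by
  show S6.mk _ _ _ _ _ _ = S6.mk _ _ _ _ _ _
  rw [S6.mk.injEq]
  exact ⟨rfl, (hG.sw _ _ _ h.h02 h.h03 h.h23).symm, (hG.sw _ _ _ h.h12 h.h13 h.h23).symm,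
    (hG.sw _ _ _ h.h02 h.h04 h.h24).symm, (hG.sw _ _ _ h.h12 h.h14 h.h24).symm,
    (st_ro hG h.h23 h.h24 h.h34).symm⟩

theorem fl1 (hG : G.Ok tab) {q0 q1 q2 q3 q4 : κ} (h : N5 q0 q1 q2 q3 q4) :
    h1 (G.st q0 q1 q2) (G.st q0 q1 q3) (G.st q0 q2 q3) (G.st q1 q2 q3) (G.st q0 q1 q4)
      (G.st q0 q2 q4) (G.st q1 q2 q4) (G.st q0 q3 q4) (G.st q1 q3 q4) (G.st q2 q3 q4) =
    G.fl ⟨q0, q2, q3, q4⟩ q1 := by
  show S6.mk _ _ _ _ _ _ = S6.mk _ _ _ _ _ _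
  rw [S6.mk.injEq]
  exact ⟨(hG.sw _ _ _ h.h01 h.h02 h.h12).symm, (hG.sw _ _ _ h.h01 h.h03 h.h13).symm,
    (st_ro hG h.h12 h.h13 h.h23).symm, (hG.sw _ _ _ h.h01 h.h04 h.h14).symm,
    (st_ro hG h.h12 h.h14 h.h24).symm, (st_ro hG h.h13 h.h14 h.h34).symm⟩

theorem fl0 (hG : G.Ok tab) {q0 q1 q2 q3 q4 : κ} (h : N5 q0 q1 q2 q3 q4) :
    h0 (G.st q0 q1 q2) (G.st q0 q1 q3) (G.st q0 q2 q3) (G.st q1 q2 q3) (G.st q0 q1 q4)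
      (G.st q0 q2 q4) (G.st q1 q2 q4) (G.st q0 q3 q4) (G.st q1 q3 q4) (G.st q2 q3 q4) =
    G.fl ⟨q1, q2, q3, q4⟩ q0 := by
  show S6.mk _ _ _ _ _ _ = S6.mk _ _ _ _ _ _
  rw [S6.mk.injEq]
  exact ⟨(st_ro hG h.h01 h.h02 h.h12).symm, (st_ro hG h.h01 h.h03 h.h13).symm,
    (st_ro hG h.h02 h.h03 h.h23).symm, (st_ro hG h.h01 h.h04 h.h14).symm,
    (st_ro hG h.h02 h.h04 h.h24).symm, (st_ro hG h.h03 h.h04 h.h34).symm⟩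

/-- the facts about a record -/
structure F5 (C : Ce) (G : Cfg κ) (q0 q1 q2 q3 q4 : κ) (E : E5) : Prop where
  i4 : E.i4 = 48 * ps' C G ⟨q0, q1, q2, q3⟩ q4
  i3 : E.i3 = 48 * ps' C G ⟨q0, q1, q2, q4⟩ q3
  i2 : E.i2 = 48 * ps' C G ⟨q0, q1, q3, q4⟩ q2
  i1 : E.i1 = 48 * ps' C G ⟨q0, q2, q3, q4⟩ q1
  i0 : E.i0 = 48 * ps' C G ⟨q1, q2, q3, q4⟩ q0
  r2 : E.r2 = rs' C G ⟨q0, q1, q3, q4⟩ q2
  r1 : E.r1 = rs' C G ⟨q0, q2, q3, q4⟩ q1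
  r0 : E.r0 = rs' C G ⟨q1, q2, q3, q4⟩ q0

theorem okIR_iff {s : S4} {f : S6} {i r : ℕ} (h : okIR C s f i r = true) :
    i = 48 * ixc C s f ∧ r = row C (wd C s).r (ixc C s f) := by
  unfold okIR at h
  rw [an_iff, Nat.beq_eq, Nat.beq_eq] at h
  exact h

theorem f5_of (hG : G.Ok tab) {q0 q1 q2 q3 q4 : κ} (h : N5 q0 q1 q2 q3 q4) {E : E5}
    (hE : okE C (G.st q0 q1 q2) (G.st q0 q1 q3) (G.st q0 q2 q3) (G.st q1 q2 q3) (G.st q0 q1 q4)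
      (G.st q0 q2 q4) (G.st q1 q2 q4) (G.st q0 q3 q4) (G.st q1 q3 q4) E = true)
    (hx : E.x = G.st q2 q3 q4) : F5 C G q0 q1 q2 q3 q4 E := by
  unfold okE at hE
  rw [hx, fl3 hG h, fl2 hG h, fl1 hG h, fl0 hG h, an_iff, an_iff, an_iff, an_iff] at hE
  obtain ⟨⟨k4, k3⟩, k2, k1, k0⟩ := hE
  have e2 := okIR_iff k2
  have e1 := okIR_iff k1
  have e0 := okIR_iff k0
  exact ⟨Nat.eq_of_beq_eq_true k4, Nat.eq_of_beq_eq_true k3, e2.1, e1.1, e0.1, e2.2, e1.2, e0.2⟩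

/-! ### points over a representative -/

/-- degree row of three points -/
def FD (C : Ce) (s : S4) (P : ℕ) : Prop := ∀ a < 2, ∀ b < 2, ∀ c < 2,
  lq P (n3 a b c) = lq (dt C s) a + (lq (dt C s) (2 + b) + lq (dt C s) (4 + c))

/-- degree row of the point `v` -/
def FP (C : Ce) (s : S4) (v P : ℕ) : Prop :=
  Bd 70368744177663 P ∧ ∀ x < 8, lq P x = lq (dt C s) (2 * v + na x)

structure FX (C : Ce) (G : Cfg κ) (q0 q1 q2 q3 y : κ) (X : X5) : Prop where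
  e : X.e = G.st q0 q1 y
  g : X.g = G.st q0 q2 y
  h : X.h = G.st q1 q2 y
  u : X.u = G.st q0 q3 y
  v : X.v = G.st q1 q3 y
  w : X.w = G.st q2 q3 y
  i4 : X.i4 = 48 * ps' C G ⟨q0, q1, q2, q3⟩ y
  i3 : X.i3 = 48 * ps' C G ⟨q0, q1, q2, y⟩ q3
  i2 : X.i2 = 48 * ps' C G ⟨q0, q1, q3, y⟩ q2
  i1 : X.i1 = 48 * ps' C G ⟨q0, q2, q3, y⟩ q1
  i0 : X.i0 = 48 * ps' C G ⟨q1, q2, q3, y⟩ q0
  r4 : X.r4 = rs' C G ⟨q0, q1, q2, q3⟩ y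
  r3 : X.r3 = rs' C G ⟨q0, q1, q2, y⟩ q3
  r2 : X.r2 = rs' C G ⟨q0, q1, q3, y⟩ q2
  r1 : X.r1 = rs' C G ⟨q0, q2, q3, y⟩ q1
  r0 : X.r0 = rs' C G ⟨q1, q2, q3, y⟩ q0
  be : X.be = na (G.st q0 q1 y)
  bg : X.bg = na (G.st q0 q2 y)
  bh : X.bh = na (G.st q1 q2 y)
  bu : X.bu = na (G.st q0 q3 y)
  bv : X.bv = na (G.st q1 q3 y)
  bw : X.bw = na (G.st q2 q3 y)
  n3 : X.q3 = n3 (na (G.st q0 q3 y)) (na (G.st q1 q3 y)) (na (G.st q2 q3 y))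
  n2 : X.q2 = AKU6.n3 (na (G.st q0 q2 y)) (na (G.st q1 q2 y)) (na (G.st q2 q3 y))
  n1 : X.q1 = AKU6.n3 (na (G.st q0 q1 y)) (na (G.st q1 q2 y)) (na (G.st q1 q3 y))
  n0 : X.q0 = AKU6.n3 (na (G.st q0 q1 y)) (na (G.st q0 q2 y)) (na (G.st q0 q3 y))
  d3 : FD C (G.co ⟨q0, q1, q2, y⟩) X.d3
  d2 : FD C (G.co ⟨q0, q1, q3, y⟩) X.d2
  d1 : FD C (G.co ⟨q0, q2, q3, y⟩) X.d1
  d0 : FD C (G.co ⟨q1, q2, q3, y⟩) X.d0
  p3 : FP C (G.co ⟨q0, q1, q2, y⟩) 3 X.p3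
  p2 : FP C (G.co ⟨q0, q1, q3, y⟩) 3 X.p2
  p1 : FP C (G.co ⟨q0, q2, q3, y⟩) 3 X.p1
  p0 : FP C (G.co ⟨q1, q2, q3, y⟩) 3 X.p0

theorem okd_iff {s : S4} {P : ℕ} (h : okd C s P = true) : FD C s P := fun a ha b hb c hc =>
  Nat.eq_of_beq_eq_true (allN_iff.1 (allN_iff.1 (allN_iff.1 h a ha) b hb) c hc)

theorem okp_iff {s : S4} {v P : ℕ} (h : okp C s v P = true) : FP C s v P := by
  unfold okp at h
  rw [an_iff] at h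
  exact ⟨okV_iff h.1, fun x hx => by
    have := Nat.eq_of_beq_eq_true (allN_iff.1 h.2 x hx)
    rw [this, nb_iff' x hx]
    rfl⟩

theorem fx_of (hG : G.Ok tab) {q0 q1 q2 q3 y : κ} (h : N5 q0 q1 q2 q3 y) {R : Rk} {X : X5}
    (ra : R.a = G.st q0 q1 q2) (rb : R.b = G.st q0 q1 q3) (rc : R.c = G.st q0 q2 q3)
    (rd : R.d = G.st q1 q2 q3) (xe : X.e = G.st q0 q1 y) (xg : X.g = G.st q0 q2 y)
    (xh : X.h = G.st q1 q2 y) (xu : X.u = G.st q0 q3 y) (xv : X.v = G.st q1 q3 y)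
    (xw : X.w = G.st q2 q3 y) (hX : okX1 C R X = true) : FX C G q0 q1 q2 q3 y X := by
  unfold okX1 at hX
  rw [ra, rb, rc, rd, xe, xg, xh, xu, xv, xw, fl3 hG h, fl2 hG h, fl1 hG h, fl0 hG h,
    nb_iff' _ (hG.lt _ _ _ h.h01 h.h04 h.h14), nb_iff' _ (hG.lt _ _ _ h.h02 h.h04 h.h24),
    nb_iff' _ (hG.lt _ _ _ h.h12 h.h14 h.h24), nb_iff' _ (hG.lt _ _ _ h.h03 h.h04 h.h34),
    nb_iff' _ (hG.lt _ _ _ h.h13 h.h14 h.h34), nb_iff' _ (hG.lt _ _ _ h.h23 h.h24 h.h34)] at hX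
  simp only [an_iff, Nat.beq_eq] at hX
  obtain ⟨⟨⟨k4, k3⟩, k2, k1, k0⟩, ⟨⟨⟨b1, b2, b3⟩, b4, b5, b6⟩, ⟨n1, n2⟩, n3, n4⟩,
    ⟨⟨d1, d2⟩, d3, d4⟩, ⟨p1, p2⟩, p3, p4⟩ := hX
  have e4 := okIR_iff k4
  have e3 := okIR_iff k3
  have e2 := okIR_iff k2
  have e1 := okIR_iff k1
  have e0 := okIR_iff k0
  exact ⟨xe, xg, xh, xu, xv, xw, e4.1, e3.1, e2.1, e1.1, e0.1, e4.2, e3.2, e2.2, e1.2, e0.2,
    b1, b2, b3, b4, b5, b6, by rw [n1, b4, b5, b6], by rw [n2, b2, b3, b6],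
    by rw [n3, b1, b3, b5], by rw [n4, b1, b2, b4], okd_iff d1, okd_iff d2, okd_iff d3, okd_iff d4,
    okp_iff p1, okp_iff p2, okp_iff p3, okp_iff p4⟩

theorem fX_spec {l : List X5} {f : S6} {K : X5 → Bool} (h : fX l f K = true) :
    ∃ X ∈ l, X.e = f.e ∧ X.g = f.g ∧ X.h = f.h ∧ X.u = f.u ∧ X.v = f.v ∧ X.w = f.w ∧
      K X = true := by
  induction l with
  | nil => exact absurd h (by simp [fX])
  | cons X l ih =>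
    have h1 : Bool.rec (motive := fun _ => Bool) (fX l f K) (K X)
      (an (an (Nat.beq X.e f.e) (an (Nat.beq X.g f.g) (Nat.beq X.h f.h)))
        (an (Nat.beq X.u f.u) (an (Nat.beq X.v f.v) (Nat.beq X.w f.w)))) = true := h
    cases hb : an (an (Nat.beq X.e f.e) (an (Nat.beq X.g f.g) (Nat.beq X.h f.h)))
        (an (Nat.beq X.u f.u) (an (Nat.beq X.v f.v) (Nat.beq X.w f.w)))
    · rw [hb] at h1
      obtain ⟨e', h2, h3⟩ := ih h1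
      exact ⟨e', List.mem_cons_of_mem _ h2, h3⟩
    · rw [hb] at h1
      rw [an_iff, an_iff, an_iff, an_iff, an_iff, Nat.beq_eq, Nat.beq_eq, Nat.beq_eq, Nat.beq_eq,
        Nat.beq_eq, Nat.beq_eq] at hb
      obtain ⟨⟨b1, b2, b3⟩, b4, b5, b6⟩ := hb
      exact ⟨X, List.mem_cons_self, b1, b2, b3, b4, b5, b6, h1⟩

/-- the facts about a representative in the check -/
structure FR (C : Ce) (tab r : ℕ) : Prop where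
  s : rep C r = ⟨(rk C r).a, (rk C r).b, (rk C r).c, (rk C r).d⟩
  m : ∀ s < 8, ∀ t < 8, ∀ x < 8, ∀ y < 8, tab.testBit (cd s t x y) = true →
    r ≤ (wd C ⟨s, t, x, y⟩).r → (nth 0 (nth [] (rk C r).mm s) t).testBit (ix8 x y) = true
  p0 : FP C (rep C r) 0 (rk C r).p0
  p1 : FP C (rep C r) 1 (rk C r).p1
  p2 : FP C (rep C r) 2 (rk C r).p2
  p3 : FP C (rep C r) 3 (rk C r).p3
  k01 : (rk C r).k01 = nb (rk C r).c + 2 * nb (rk C r).d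
  k02 : (rk C r).k02 = nb (rk C r).b + 2 * nb (rk C r).d
  k12 : (rk C r).k12 = nb (rk C r).b + 2 * nb (rk C r).c
  k03 : (rk C r).k03 = nb (rk C r).a + 2 * nb (rk C r).d
  k13 : (rk C r).k13 = nb (rk C r).a + 2 * nb (rk C r).c
  k23 : (rk C r).k23 = nb (rk C r).a + 2 * nb (rk C r).b
  X : okX C tab r (rk C r) = true

theorem fr_of {r : ℕ} (h : okRk C tab r = true) : FR C tab r := by
  unfold okRk at h
  simp only [an_iff, eq4_iff, Nat.beq_eq] at h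
  obtain ⟨⟨⟨h1, h2⟩, ⟨⟨p0, p1⟩, p2, p3⟩, k1, k2⟩, h4⟩ := h
  refine ⟨h1, fun s hs t ht x hx y hy hb hr => ?_, okp_iff p0, okp_iff p1, okp_iff p2, okp_iff p3,
    k1.1, k1.2.1, k1.2.2, k2.1, k2.2.1, k2.2.2, h4⟩
  have := im_iff.1 (allN_iff.1 (allN_iff.1 (allN_iff.1 (allN_iff.1 h2 s hs) t ht) x hx) y hy)
    (by unfold cr; rw [an_iff, bt_iff, Nat.ble_eq]; exact ⟨hb, hr⟩)
  exact (bit_iff _ _).1 this

end Pool.Agent.AKU6
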