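import Pool.Agent.AKU6.Fa

set_option autoImplicit false

/-!
# Six points: the entries of the tables
-/

namespace Pool.Agent.AKU6

open Finset Pool.Agent.AKY Pool.Agent.AKU5

variable {C : Ce} {tab : ℕ}

/-- one term of a row -/
def u1 (A B : ℕ) (i j : ℕ) : ℤ := (lq A i : ℤ) * lq B j + lq B i * lq A j

theorem U_eq (hV : VF C) {r : ℕ} (hr : r < 15) (i j : ℕ) :
    (lq (U C r i) j : ℤ) = lq (rw (nth [] C.LQ r) i) j +
      ((u1 (mc C r 0) (om C r 0) i j + u1 (mc C r 1) (om C r 1) i j) +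
        (u1 (mc C r 2) (om C r 2) i j + u1 (mc C r 3) (om C r 3) i j)) := by
  have k : ∀ k < 4, Bd (2147483647 * 2047 + 2047 * 2147483647) (U1 (mc C r k) (om C r k) i) ∧
      ∀ j, lq (U1 (mc C r k) (om C r k) i) j =
        lq (mc C r k) i * lq (om C r k) j + lq (om C r k) i * lq (mc C r k) j :=
    fun k hk => U1_eq (hV.mc r hr k hk) (hV.om r hr k hk) (by norm_num) i
  obtain ⟨a0, b0⟩ := k 0 (by norm_num)
  obtain ⟨a1, b1⟩ := k 1 (by norm_num)
  obtain ⟨a2, b2⟩ := k 2 (by norm_num)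
  obtain ⟨a3, b3⟩ := k 3 (by norm_num)
  obtain ⟨c0, d0⟩ := a0.add a1 (by norm_num)
  obtain ⟨c1, d1⟩ := a2.add a3 (by norm_num)
  obtain ⟨c2, d2⟩ := c0.add c1 (by norm_num)
  obtain ⟨c3, d3⟩ := (rw6 (hV.LQ r hr) i).1.add c2 (by norm_num)
  have e : U C r i = rw (nth [] C.LQ r) i + ((U1 (mc C r 0) (om C r 0) i +
    U1 (mc C r 1) (om C r 1) i) + (U1 (mc C r 2) (om C r 2) i + U1 (mc C r 3) (om C r 3) i)) := rfl
  rw [e, d3, d2, d0, d1, b0, b1, b2, b3]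
  unfold u1
  push_cast
  ring

theorem Ub_eq (hV : VF C) {r : ℕ} (hr : r < 15) (i j : ℕ) :
    (lq (Ub C r i) j : ℤ) =
      ((u1 (mb C r 0) (om C r 0) i j + u1 (mb C r 1) (om C r 1) i j) +
        (u1 (mb C r 2) (om C r 2) i j + u1 (mb C r 3) (om C r 3) i j)) := by
  have k : ∀ k < 4, Bd (8589934591 * 2047 + 2047 * 8589934591) (U1 (mb C r k) (om C r k) i) ∧
      ∀ j, lq (U1 (mb C r k) (om C r k) i) j =
        lq (mb C r k) i * lq (om C r k) j + lq (om C r k) i * lq (mb C r k) j :=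
    fun k hk => U1_eq (hV.mb r hr k hk) (hV.om r hr k hk) (by norm_num) i
  obtain ⟨a0, b0⟩ := k 0 (by norm_num)
  obtain ⟨a1, b1⟩ := k 1 (by norm_num)
  obtain ⟨a2, b2⟩ := k 2 (by norm_num)
  obtain ⟨a3, b3⟩ := k 3 (by norm_num)
  obtain ⟨c0, d0⟩ := a0.add a1 (by norm_num)
  obtain ⟨c1, d1⟩ := a2.add a3 (by norm_num)
  obtain ⟨c2, d2⟩ := c0.add c1 (by norm_num)
  have e : Ub C r i = ((U1 (mb C r 0) (om C r 0) i +
    U1 (mb C r 1) (om C r 1) i) + (U1 (mb C r 2) (om C r 2) i + U1 (mb C r 3) (om C r 3) i)) := rfl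
  rw [e, d2, d0, d1, b0, b1, b2, b3]
  unfold u1
  push_cast
  ring

theorem s4_eq {b : ℕ} {A : ℕ → ℕ} (h : ∀ k < 4, Bd b (A k)) (hb : b + b + (b + b) < 2 ^ 48) :
    Bd (b + b + (b + b)) (A 0 + A 1 + (A 2 + A 3)) ∧
      ∀ j, lq (A 0 + A 1 + (A 2 + A 3)) j = lq (A 0) j + lq (A 1) j + (lq (A 2) j + lq (A 3) j) := by
  obtain ⟨c0, d0⟩ := (h 0 (by norm_num)).add (h 1 (by norm_num)) (by omega)
  obtain ⟨c1, d1⟩ := (h 2 (by norm_num)).add (h 3 (by norm_num)) (by omega)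
  obtain ⟨c2, d2⟩ := c0.add c1 hb
  exact ⟨c2, fun j => by rw [d2, d0, d1]⟩

theorem ll_eq (hV : VF C) {r : ℕ} (hr : r < 15) (j : ℕ) :
    lq (ll C r) j = OV * lq (ps (nth [] C.LQ r)) j +
      C.th * (lq (mc C r 0) j + lq (mc C r 1) j + (lq (mc C r 2) j + lq (mc C r 3) j)) := by
  obtain ⟨a1, b1⟩ := s4_eq (A := fun k => mc C r k) (hV.mc r hr) (by norm_num)
  obtain ⟨a2, b2⟩ := a1.mul hV.th (by norm_num)
  obtain ⟨a3, b3⟩ := (ps6 (hV.LQ r hr)).1.mul (t := OV) (b := 131072) le_rfl (by norm_num)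
  obtain ⟨a4, b4⟩ := a3.add a2 (by norm_num)
  have e : ll C r = OV * ps (nth [] C.LQ r) +
    C.th * (mc C r 0 + mc C r 1 + (mc C r 2 + mc C r 3)) := rfl
  rw [e, b4, b3, b2, b1]

theorem lb'_eq (hV : VF C) {r : ℕ} (hr : r < 15) (j : ℕ) :
    lq (lb' C r) j = C.th * (lq (mb C r 0) j + lq (mb C r 1) j + (lq (mb C r 2) j + lq (mb C r 3) j)) +
      C.oB * (lq (om C r 0) j + lq (om C r 1) j + (lq (om C r 2) j + lq (om C r 3) j)) := by
  obtain ⟨a1, b1⟩ := s4_eq (A := fun k => mb C r k) (hV.mb r hr) (by norm_num)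
  obtain ⟨a2, b2⟩ := a1.mul hV.th (by norm_num)
  obtain ⟨a3, b3⟩ := s4_eq (A := fun k => om C r k) (hV.om r hr) (by norm_num)
  obtain ⟨a4, b4⟩ := a3.mul hV.oB (by norm_num)
  obtain ⟨a5, b5⟩ := a2.add a4 (by norm_num)
  have e : lb' C r = C.th * (mb C r 0 + mb C r 1 + (mb C r 2 + mb C r 3)) +
    C.oB * (om C r 0 + om C r 1 + (om C r 2 + om C r 3)) := rfl
  rw [e, b5, b4, b3, b2, b1]

/-- product of a multiplier and a weight -/
def pr (A B : ℕ) (o th : ℤ) (i j : ℕ) : ℤ :=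
  ((lq A i : ℤ) - o) * (lq B j - th) + ((lq A j : ℤ) - o) * (lq B i - th)

/-- the blocks and the weights at a representative -/
noncomputable def TT (C : Ce) (r i j : ℕ) : ℤ :=
  Qc (nth [] C.LQ r) i j + ((pr (mc C r 0) (om C r 0) 0 C.th i j +
    pr (mc C r 1) (om C r 1) 0 C.th i j) + (pr (mc C r 2) (om C r 2) 0 C.th i j +
      pr (mc C r 3) (om C r 3) 0 C.th i j))

noncomputable def Bb (C : Ce) (r i j : ℕ) : ℤ :=
  (pr (mb C r 0) (om C r 0) C.oB C.th i j + pr (mb C r 1) (om C r 1) C.oB C.th i j) +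
    (pr (mb C r 2) (om C r 2) C.oB C.th i j + pr (mb C r 3) (om C r 3) C.oB C.th i j)

theorem TT_eq (hV : VF C) {r : ℕ} (hr : r < 15) (i j : ℕ) :
    TT C r i j = (lq (U C r i) j : ℤ) + (OV : ℤ) * OV * len (nth [] C.LQ r) -
      (lq (ll C r) i + lq (ll C r) j) := by
  rw [U_eq hV hr, ll_eq hV hr, ll_eq hV hr, Qc_eq6 (hV.LQ r hr)]
  unfold TT pr u1
  push_cast
  ring

theorem Bb_eq (hV : VF C) {r : ℕ} (hr : r < 15) (i j : ℕ) :
    Bb C r i j = (lq (Ub C r i) j : ℤ) + 8 * ((C.oB : ℤ) * C.th) -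
      (lq (lb' C r) i + lq (lb' C r) j) := by
  rw [Ub_eq hV hr, lb'_eq hV hr, lb'_eq hV hr]
  unfold Bb pr u1
  push_cast
  ring

theorem sum_lin {α : Type} (l : List α) (x y z : α → ℤ) (h : ∀ a, x a = y a - z a) :
    (l.map x).sum = (l.map y).sum - (l.map z).sum := by
  induction l with
  | nil => rfl
  | cons a l ih =>
    simp only [List.map_cons, List.sum_cons, ih, h a]
    ring

theorem sumF_cast {α : Type} (l : List α) (x : α → ℕ) :
    ((sumF l x : ℕ) : ℤ) = (l.map fun a => (x a : ℤ)).sum := by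
  induction l with
  | nil => rfl
  | cons a l ih =>
    have : sumF (a :: l) x = x a + sumF l x := rfl
    rw [this, List.map_cons, List.sum_cons, ← ih]
    push_cast
    rfl

theorem sf1 (hV : VF C) {r : ℕ} (hr : r < 15) {i j : ℕ} (h : okS1 C r i j = true) :
    (lq (row C r i) j : ℤ) = C.oT +
      2 * ((nth [] C.AT r).map fun P => TT C r (l16 P.p i) (l16 P.p j)).sum + Bb C r i j := by
  have h1 := congrArg (Nat.cast : ℕ → ℤ) (Nat.eq_of_beq_eq_true h)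
  simp only [nadd, nmul] at h1
  push_cast at h1
  rw [sumF_cast, sumF_cast] at h1
  have h2 := sum_lin (nth [] C.AT r) (fun P => TT C r (l16 P.p i) (l16 P.p j))
    (fun P => ((lq (U C r (l16 P.p i)) (l16 P.p j) + OV * OV * len (nth [] C.LQ r) : ℕ) : ℤ))
    (fun P => ((lq (ll C r) (l16 P.p i) + lq (ll C r) (l16 P.p j) : ℕ) : ℤ))
    (fun P => by
      rw [TT_eq hV hr]
      push_cast
      ring)
  rw [h2, Bb_eq hV hr]
  linarith

theorem sf_of (hV : VF C) {r : ℕ} (hr : r < 15) (hS : ∀ k < 8, okS C r k = true) {i j : ℕ}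
    (hi : i < nth 0 C.NF r) (hj : j < nth 0 C.NF r) :
    (lq (row C r i) j : ℤ) = C.oT +
      2 * ((nth [] C.AT r).map fun P => TT C r (l16 P.p i) (l16 P.p j)).sum + Bb C r i j := by
  have h1 := hV.nf r hr
  have h2 := im_iff.1 (allN_iff.1 (hS (i / 64) (by omega)) (i % 64) (by omega))
  have e : Nat.add (Nat.mul 64 (i / 64)) (i % 64) = i := by
    show 64 * (i / 64) + i % 64 = i
    omega
  rw [e] at h2
  exact sf1 hV hr (allN_iff.1 (h2 (by rw [Nat.ble_eq]; exact hi)) j hj)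

end Pool.Agent.AKU6
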